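import Mathlib

set_option autoImplicit false

namespace Pool.Agent.J6H66.Queens

open Finset

/-- number of elements with a given value -/
def cnt {ι : Type*} (Q : Finset ι) (g : ι → ℤ) (x : ℤ) : ℕ := (Q.filter (fun i => g i = x)).card

section
variable {ι : Type*}

theorem cnt_pos {Q : Finset ι} {g : ι → ℤ} {x : ℤ} : 0 < cnt Q g x ↔ ∃ i ∈ Q, g i = x := by
  unfold cnt
  rw [card_pos]
  constructor
  · rintro ⟨i, hi⟩
    exact ⟨i, (mem_filter.1 hi).1, (mem_filter.1 hi).2⟩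
  · rintro ⟨i, h1, h2⟩
    exact ⟨i, mem_filter.2 ⟨h1, h2⟩⟩

theorem cnt_zero {Q : Finset ι} {g : ι → ℤ} {x : ℤ} : cnt Q g x = 0 ↔ ∀ i ∈ Q, g i ≠ x := by
  constructor
  · intro h i hi he
    have := cnt_pos.2 ⟨i, hi, he⟩
    omega
  · intro h
    by_contra hne
    obtain ⟨i, h1, h2⟩ := cnt_pos.1 (Nat.pos_of_ne_zero hne)
    exact h i h1 h2

theorem cnt_congr {Q : Finset ι} {g g' : ι → ℤ} {x x' : ℤ} (h : ∀ i, g i = x ↔ g' i = x') :
    cnt Q g x = cnt Q g' x' := by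
  unfold cnt
  congr 1
  ext i
  simp only [mem_filter, h i]

theorem cnt_inj {Q : Finset ι} {g : ι → ℤ} {x : ℤ} (h : cnt Q g x ≤ 1) {i i' : ι} (hi : i ∈ Q)
    (hi' : i' ∈ Q) (e : g i = x) (e' : g i' = x) : i = i' := by
  unfold cnt at h
  rw [card_le_one] at h
  exact h i (mem_filter.2 ⟨hi, e⟩) i' (mem_filter.2 ⟨hi', e'⟩)

theorem sum_cnt (Q : Finset ι) (g : ι → ℤ) (S : Finset ℤ) :
    ∑ y ∈ S, cnt Q g y = (Q.filter (fun i => g i ∈ S)).card := by
  unfold cnt
  rw [card_eq_sum_card_fiberwise (f := g) (s := Q.filter (fun i => g i ∈ S)) (t := S)]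
  · apply sum_congr rfl
    intro y hy
    congr 1
    ext i
    simp only [mem_filter]
    constructor
    · rintro ⟨h1, h2⟩; exact ⟨⟨h1, by rw [h2]; exact hy⟩, h2⟩
    · rintro ⟨⟨h1, _⟩, h2⟩; exact ⟨h1, h2⟩
  · intro i hi
    exact (mem_filter.1 hi).2

theorem window (Q : Finset ι) (g : ι → ℤ) (r w : ℤ) (hw : 0 ≤ w) :
    ∑ y ∈ Ico r (r + w), (cnt Q g y + cnt Q g (y - w)) =
      (Q.filter (fun i => r - w ≤ g i ∧ g i < r + w)).card := by
  classical
  have h1 : ∀ y, cnt Q g (y - w) = cnt Q (fun i => g i + w) y := fun y =>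
    cnt_congr (fun i => by constructor <;> intro h <;> linarith)
  simp only [h1]
  rw [sum_add_distrib, sum_cnt, sum_cnt, ← card_union_of_disjoint]
  · congr 1
    ext i
    simp only [mem_union, mem_filter, mem_Ico]
    constructor
    · rintro (⟨h, h2⟩ | ⟨h, h2⟩)
      · exact ⟨h, by omega⟩
      · exact ⟨h, by omega⟩
    · rintro ⟨h, h2⟩
      by_cases h3 : r ≤ g i
      · left; exact ⟨h, h3, h2.2⟩
      · right; exact ⟨h, by omega⟩
  · rw [disjoint_left]
    intro i h2 h3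
    simp only [mem_filter, mem_Ico] at h2 h3
    omega

theorem all_one {S : Finset ℤ} {f : ℤ → ℕ} (h1 : ∀ y ∈ S, 1 ≤ f y) (h2 : ∑ y ∈ S, f y ≤ S.card) :
    ∀ y ∈ S, f y = 1 := by
  intro y hy
  by_contra hne
  have h3 : 1 < f y := lt_of_le_of_ne (h1 y hy) (Ne.symm hne)
  have h4 : ∑ y ∈ S, 1 < ∑ y ∈ S, f y := sum_lt_sum h1 ⟨y, hy, h3⟩
  rw [sum_const, smul_eq_mul, mul_one] at h4
  omega

/-- A dominating configuration, seen from its box. -/
structure Pre (N p q w w' : ℤ) (Q : Finset ι) (s t : ι → ℤ) : Prop where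
  card : (Q.card : ℤ) = N
  hp : 0 ≤ p
  hq : 0 ≤ q
  hw : 1 ≤ w
  hw' : 1 ≤ w'
  hwq : w ≤ 2 * N - q
  hwp : w' ≤ 2 * N - p
  bc : ∀ i ∈ Q, -q ≤ s i ∧ s i ≤ 2 * N - q
  br : ∀ i ∈ Q, -p ≤ t i ∧ t i ≤ 2 * N - p
  dom : ∀ x y, -q ≤ x → x ≤ 2 * N - q → -p ≤ y → y ≤ 2 * N - p →
    ∃ i ∈ Q, s i = x ∨ t i = y ∨ t i - s i = y - x ∨ s i + t i = x + y
  c0 : ∀ i ∈ Q, s i ≠ 0
  cw : ∀ i ∈ Q, s i ≠ w
  r0 : ∀ i ∈ Q, t i ≠ 0
  rw : ∀ i ∈ Q, t i ≠ w'
  co : ∀ x, -q ≤ x → x ≤ 2 * N - q → (x < 0 ∨ w < x) → ∃ i ∈ Q, s i = x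
  ro : ∀ y, -p ≤ y → y ≤ 2 * N - p → (y < 0 ∨ w' < y) → ∃ i ∈ Q, t i = y

namespace Pre

variable {N p q w w' : ℤ} {Q : Finset ι} {s t : ι → ℤ}

theorem swap (h : Pre N p q w w' Q s t) : Pre N q p w' w Q t s where
  card := h.card
  hp := h.hq
  hq := h.hp
  hw := h.hw'
  hw' := h.hw
  hwq := h.hwp
  hwp := h.hwq
  bc := h.br
  br := h.bc
  dom := fun x y h1 h2 h3 h4 => by
    obtain ⟨i, hi, h5⟩ := h.dom y x h3 h4 h1 h2
    refine ⟨i, hi, ?_⟩
    rcases h5 with h5 | h5 | h5 | h5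
    · right; left; exact h5
    · left; exact h5
    · right; right; left; linarith
    · right; right; right; linarith
  c0 := h.r0
  cw := h.rw
  r0 := h.c0
  rw := h.cw
  co := h.ro
  ro := h.co

theorem hit0 (h : Pre N p q w w' Q s t) {y : ℤ} (h1 : -p ≤ y) (h2 : y ≤ 2 * N - p) :
    1 ≤ cnt Q t y + cnt Q (fun i => t i - s i) y + cnt Q (fun i => s i + t i - w) (y - w) := by
  have hq := h.hq
  have hwq := h.hwq
  have hw := h.hw
  obtain ⟨i, hi, h3⟩ := h.dom 0 y (by omega) (by omega) h1 h2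
  rcases h3 with h3 | h3 | h3 | h3
  · exact absurd h3 (h.c0 i hi)
  · have := (cnt_pos (Q := Q) (g := t)).2 ⟨i, hi, h3⟩
    omega
  · have := (cnt_pos (Q := Q) (g := fun i => t i - s i) (x := y)).2 ⟨i, hi, by linarith⟩
    omega
  · have := (cnt_pos (Q := Q) (g := fun i => s i + t i - w) (x := y - w)).2 ⟨i, hi, by linarith⟩
    omega

theorem hitw (h : Pre N p q w w' Q s t) {y : ℤ} (h1 : -p ≤ y) (h2 : y ≤ 2 * N - p) :
    1 ≤ cnt Q t y + cnt Q (fun i => t i - s i) (y - w) + cnt Q (fun i => s i + t i - w) y := by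
  have hq := h.hq
  have hwq := h.hwq
  have hw := h.hw
  obtain ⟨i, hi, h3⟩ := h.dom w y (by omega) (by omega) h1 h2
  rcases h3 with h3 | h3 | h3 | h3
  · exact absurd h3 (h.cw i hi)
  · have := (cnt_pos (Q := Q) (g := t)).2 ⟨i, hi, h3⟩
    omega
  · have := (cnt_pos (Q := Q) (g := fun i => t i - s i) (x := y - w)).2 ⟨i, hi, by linarith⟩
    omega
  · have := (cnt_pos (Q := Q) (g := fun i => s i + t i - w) (x := y)).2 ⟨i, hi, by linarith⟩
    omega

theorem win (h : Pre N p q w w' Q s t) {r : ℤ} (h1 : -p ≤ r) (h2 : r + w ≤ 2 * N - p + 1) :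
    w ≤ ((Q.filter (fun i => t i ∈ Ico r (r + w))).card : ℤ) + N ∧
    (((Q.filter (fun i => t i ∈ Ico r (r + w))).card : ℤ) + N ≤ w →
      (∀ y ∈ Ico r (r + w),
        cnt Q t y + cnt Q (fun i => t i - s i) y + cnt Q (fun i => s i + t i - w) (y - w) = 1 ∧
        cnt Q t y + cnt Q (fun i => t i - s i) (y - w) + cnt Q (fun i => s i + t i - w) y = 1) ∧
      ∀ i ∈ Q, (r - w ≤ t i - s i ∧ t i - s i < r + w) ∧
        (r - w ≤ s i + t i - w ∧ s i + t i - w < r + w)) := by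
  have hw := h.hw
  set RW := (Q.filter (fun i => t i ∈ Ico r (r + w))).card with hRW
  set W := Ico r (r + w) with hW
  have cW : (W.card : ℤ) = w := by rw [hW, Int.card_Ico]; omega
  set f : ℤ → ℕ := fun y => cnt Q t y + cnt Q (fun i => t i - s i) y +
    cnt Q (fun i => s i + t i - w) (y - w) with hf
  set f' : ℤ → ℕ := fun y => cnt Q t y + cnt Q (fun i => t i - s i) (y - w) +
    cnt Q (fun i => s i + t i - w) y with hf'
  have hf1 : ∀ y ∈ W, 1 ≤ f y := by
    intro y hy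
    rw [hW, mem_Ico] at hy
    exact h.hit0 (by omega) (by omega)
  have hf1' : ∀ y ∈ W, 1 ≤ f' y := by
    intro y hy
    rw [hW, mem_Ico] at hy
    exact h.hitw (by omega) (by omega)
  have S1 : ∑ y ∈ W, (f y + f' y) = 2 * RW +
      (Q.filter (fun i => r - w ≤ t i - s i ∧ t i - s i < r + w)).card +
      (Q.filter (fun i => r - w ≤ s i + t i - w ∧ s i + t i - w < r + w)).card := by
    have e1 := window Q (fun i => t i - s i) r w (by omega)
    have e2 := window Q (fun i => s i + t i - w) r w (by omega)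
    have e3 := sum_cnt Q t W
    rw [← hW] at e1 e2
    rw [← hRW] at e3
    rw [← e1, ← e2, ← e3, mul_sum, ← sum_add_distrib, ← sum_add_distrib]
    apply sum_congr rfl
    intro y _
    simp only [hf, hf']
    ring
  have b1 : (Q.filter (fun i => r - w ≤ t i - s i ∧ t i - s i < r + w)).card ≤ Q.card :=
    card_filter_le _ _
  have b2 : (Q.filter (fun i => r - w ≤ s i + t i - w ∧ s i + t i - w < r + w)).card ≤ Q.card :=
    card_filter_le _ _
  have g1 : W.card ≤ ∑ y ∈ W, f y := by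
    have := sum_le_sum hf1
    rwa [sum_const, smul_eq_mul, mul_one] at this
  have g2 : W.card ≤ ∑ y ∈ W, f' y := by
    have := sum_le_sum hf1'
    rwa [sum_const, smul_eq_mul, mul_one] at this
  have hc := h.card
  rw [sum_add_distrib] at S1
  refine ⟨by omega, fun hle => ⟨fun y hy => ⟨?_, ?_⟩, fun i hi => ?_⟩⟩
  · exact all_one hf1 (by omega) y hy
  · exact all_one hf1' (by omega) y hy
  · have k1 : (Q.filter (fun i => r - w ≤ t i - s i ∧ t i - s i < r + w)).card = Q.card := by omega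
    have k2 : (Q.filter (fun i => r - w ≤ s i + t i - w ∧ s i + t i - w < r + w)).card = Q.card := by
      omega
    rw [card_filter_eq_iff] at k1 k2
    exact ⟨k1 i hi, k2 i hi⟩

theorem outer (h : Pre N p q w w' Q s t) {r v : ℤ} {O : Finset ℤ}
    (hO : ∀ y ∈ O, -p ≤ y ∧ y ≤ 2 * N - p ∧ (y < 0 ∨ w' < y) ∧ ¬ (r ≤ y ∧ y < v)) :
    ((Q.filter (fun i => t i ∈ Ico r v)).card : ℤ) + O.card ≤ N := by
  classical
  have h1 : O ⊆ (Q.filter (fun i => ¬ (t i ∈ Ico r v))).image t := by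
    intro y hy
    obtain ⟨h1, h2, h3, h4⟩ := hO y hy
    obtain ⟨i, hi, h5⟩ := h.ro y h1 h2 h3
    rw [mem_image]
    refine ⟨i, mem_filter.2 ⟨hi, ?_⟩, h5⟩
    rw [mem_Ico, h5]
    exact h4
  have h2 := card_le_card h1
  have h3 : ((Q.filter (fun i => ¬ (t i ∈ Ico r v))).image t).card ≤
      (Q.filter (fun i => ¬ (t i ∈ Ico r v))).card := card_image_le
  have h4 := card_filter_add_card_filter_not (s := Q) (fun i => t i ∈ Ico r v)
  have hc := h.card
  omega

theorem w_le (h : Pre N p q w w' Q s t) : w ≤ w' := by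
  by_contra hlt
  have hw := h.hw
  have hw' := h.hw'
  have hp := h.hp
  have hq := h.hq
  have hwq := h.hwq
  have hwp := h.hwp
  obtain ⟨r, h1, h2, h3, h4⟩ : ∃ r : ℤ, -p ≤ r ∧ r ≤ 0 ∧ w' + 1 ≤ r + w ∧ r + w ≤ 2 * N - p + 1 := by
    rcases le_total (-p) (w' + 1 - w) with h5 | h5
    · exact ⟨w' + 1 - w, h5, by omega, by omega, by omega⟩
    · exact ⟨-p, le_refl _, by omega, by omega, by omega⟩
  have h5 := (h.win h1 h4).1
  have h6 := h.outer (r := r) (v := r + w) (O := Ico (-p) r ∪ Icc (r + w) (2 * N - p)) (by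
    intro y hy
    rw [mem_union, mem_Ico, mem_Icc] at hy
    omega)
  rw [card_union_of_disjoint, Int.card_Ico, Int.card_Icc] at h6
  · omega
  · rw [disjoint_left]
    intro x hx hx'
    rw [mem_Ico] at hx
    rw [mem_Icc] at hx'
    omega

theorem w_eq (h : Pre N p q w w' Q s t) : w' = w := le_antisymm h.swap.w_le h.w_le

theorem exact (h : Pre N p q w w Q s t) :
    (∀ y, 0 ≤ y → y ≤ w →
        cnt Q t y + cnt Q (fun i => t i - s i) y + cnt Q (fun i => s i + t i - w) (y - w) = 1 ∧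
        cnt Q t y + cnt Q (fun i => t i - s i) (y - w) + cnt Q (fun i => s i + t i - w) y = 1) ∧
      ∀ i ∈ Q, |t i - s i| < w ∧ |s i + t i - w| < w := by
  have hw := h.hw
  have hp := h.hp
  have hq := h.hq
  have hwq := h.hwq
  have hwp := h.hwp
  have c1 : ((Ico (-p) 0 ∪ Icc (w + 1) (2 * N - p)).card : ℤ) = 2 * N - w := by
    rw [card_union_of_disjoint, Int.card_Ico, Int.card_Icc]
    · omega
    · rw [disjoint_left]
      intro x hx hx'
      rw [mem_Ico] at hx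
      rw [mem_Icc] at hx'
      omega
  have h1 := h.win (r := 0) (by omega) (by omega)
  have h2 := h.outer (r := 0) (v := 0 + w) (O := Ico (-p) 0 ∪ Icc (w + 1) (2 * N - p)) (by
    intro y hy
    rw [mem_union, mem_Ico, mem_Icc] at hy
    omega)
  have h3 := h.win (r := 1)
  have h4 := h.outer (r := 1) (v := 1 + w) (O := Ico (-p) 0 ∪ Icc (w + 1) (2 * N - p)) (by
    intro y hy
    rw [mem_union, mem_Ico, mem_Icc] at hy
    omega)
  rw [c1] at h2 h4
  obtain ⟨h5, h6⟩ := h1.2 (by omega)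
  by_cases hb : 1 + w ≤ 2 * N - p + 1
  · obtain ⟨h7, h8⟩ := (h3 (by omega) hb).2 (by omega)
    constructor
    · intro y hy1 hy2
      by_cases hy3 : y < w
      · exact h5 y (by rw [mem_Ico]; omega)
      · exact h7 y (by rw [mem_Ico]; omega)
    · intro i hi
      have k1 := h6 i hi
      have k2 := h8 i hi
      rw [abs_lt, abs_lt]
      omega
  · omega

end Pre

end

end Pool.Agent.J6H66.Queens
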