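import Mathlib

set_option autoImplicit false

namespace Pool.Agent.J6H66.Queens

/-- A splitting `E = X ⊔ Y` of a subset of `[0,w]` with the shift property for `d`. -/
structure Dec (w d : ℤ) (E X Y : ℤ → Prop) : Prop where
  hd : 0 < d
  rng : ∀ x, E x → 0 ≤ x ∧ x ≤ w
  spl : ∀ x, E x ↔ X x ∨ Y x
  dis : ∀ x, X x → ¬ Y x
  zero : X 0
  top : Y w
  gap : ∀ x, E x → 0 < x → d ≤ x
  gap' : ∀ x, E x → x < w → x ≤ w - d
  shift : ∀ x, E x → 0 < x → x < w → X (x - d) ∨ Y (x + d)

namespace Dec

variable {w d : ℤ} {E X Y : ℤ → Prop}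

theorem EX (h : Dec w d E X Y) {x : ℤ} (hx : X x) : E x := (h.spl x).2 (Or.inl hx)

theorem EY (h : Dec w d E X Y) {x : ℤ} (hx : Y x) : E x := (h.spl x).2 (Or.inr hx)

theorem mirror (h : Dec w d E X Y) :
    Dec w d (fun x => E (w - x)) (fun x => Y (w - x)) (fun x => X (w - x)) where
  hd := h.hd
  rng := fun x hx => by have := h.rng _ hx; omega
  spl := fun x => by
    have := h.spl (w - x)
    tauto
  dis := fun x hx hy => h.dis _ hy hx
  zero := by simpa using h.top
  top := by simpa using h.zero
  gap := fun x hx h0 => by have := h.gap' _ hx (by omega); omega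
  gap' := fun x hx h0 => by have := h.gap _ hx (by omega); omega
  shift := fun x hx h0 h1 => by
    have := h.shift (w - x) hx (by omega) (by omega)
    rcases this with h2 | h2
    · right
      have e : w - (x + d) = w - x - d := by ring
      simpa [e] using h2
    · left
      have e : w - (x - d) = w - x + d := by ring
      simpa [e] using h2

theorem chainX (h : Dec w d E X Y) : ∀ (n : ℕ) (x : ℤ), x.toNat = n → X x → X (x - d) →
    ∃ k : ℕ, x = k * d ∧ ∀ i : ℕ, i ≤ k → X (i * d) := by
  intro n
  induction n using Nat.strong_induction_on with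
  | _ n ih =>
    intro x hn hx hxd
    have hd := h.hd
    have h1 := h.rng _ (h.EX hx)
    have h2 := h.rng _ (h.EX hxd)
    rcases eq_or_lt_of_le h2.1 with h3 | h3
    · refine ⟨1, by push_cast; omega, ?_⟩
      intro i hi
      interval_cases i
      · simpa using h.zero
      · have : ((1 : ℕ) : ℤ) * d = x := by push_cast; omega
        rw [this]; exact hx
    · have h4 := h.shift (x - d) (h.EX hxd) h3 (by
        by_contra hcon
        have : x - d = w := by omega
        rw [this] at hxd
        exact h.dis _ hxd h.top)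
      rcases h4 with h4 | h4
      · obtain ⟨k, hk, hall⟩ := ih (x - d).toNat (by omega) (x - d) rfl hxd h4
        refine ⟨k + 1, by push_cast; linarith [hk], ?_⟩
        intro i hi
        rcases Nat.lt_or_ge i (k + 1) with h5 | h5
        · exact hall i (by omega)
        · have : i = k + 1 := by omega
          subst this
          have e : ((k + 1 : ℕ) : ℤ) * d = x := by push_cast; linarith [hk]
          rw [e]; exact hx
      · exfalso
        have e : x - d + d = x := by ring
        rw [e] at h4
        exact h.dis _ hx h4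

/-- If `x ∈ X` and `x - d ∈ X` then `x` is in the initial chain. -/
theorem chainX' (h : Dec w d E X Y) {x : ℤ} (hx : X x) (hxd : X (x - d)) :
    ∃ k : ℕ, x = k * d ∧ ∀ i : ℕ, i ≤ k → X (i * d) :=
  h.chainX _ x rfl hx hxd

/-- If `y ∈ Y` and `y + d ∈ Y` then `y` is in the final chain. -/
theorem chainY' (h : Dec w d E X Y) {y : ℤ} (hy : Y y) (hyd : Y (y + d)) :
    ∃ k : ℕ, y = w - k * d ∧ ∀ i : ℕ, i ≤ k → Y (w - i * d) := by
  have := h.mirror.chainX' (x := w - y) (by simpa using hy) (by
    have e : w - (w - y - d) = y + d := by ring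
    simpa [e] using hyd)
  obtain ⟨k, hk, hall⟩ := this
  refine ⟨k, by linarith, ?_⟩
  intro i hi
  exact hall i hi

/-- Elements of `X` are in the initial chain or are followed by an element of `Y`. -/
theorem X_cases (h : Dec w d E X Y) {x : ℤ} (hx : X x) :
    (∃ k : ℕ, x = k * d ∧ ∀ i : ℕ, i ≤ k → X (i * d)) ∨ (¬ X (x - d) ∧ Y (x + d)) := by
  have h1 := h.rng _ (h.EX hx)
  rcases eq_or_lt_of_le h1.1 with h2 | h2
  · left
    refine ⟨0, by push_cast; omega, ?_⟩
    intro i hi
    interval_cases i
    simpa using h.zero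
  · by_cases h3 : X (x - d)
    · left; exact h.chainX' hx h3
    · right
      refine ⟨h3, ?_⟩
      have hxw : x ≠ w := by
        intro e
        rw [e] at hx
        exact h.dis _ hx h.top
      rcases h.shift x (h.EX hx) h2 (by omega) with h4 | h4
      · exact absurd h4 h3
      · exact h4

theorem Y_cases (h : Dec w d E X Y) {y : ℤ} (hy : Y y) :
    (∃ k : ℕ, y = w - k * d ∧ ∀ i : ℕ, i ≤ k → Y (w - i * d)) ∨ (¬ Y (y + d) ∧ X (y - d)) := by
  have h1 := h.rng _ (h.EY hy)
  rcases eq_or_lt_of_le h1.2 with h2 | h2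
  · left
    refine ⟨0, by push_cast; omega, ?_⟩
    intro i hi
    interval_cases i
    simpa using h.top
  · by_cases h3 : Y (y + d)
    · left; exact h.chainY' hy h3
    · right
      refine ⟨h3, ?_⟩
      have hy0 : y ≠ 0 := by
        intro e
        rw [e] at hy
        exact h.dis _ h.zero hy
      rcases h.shift y (h.EY hy) (by omega) (by omega) with h4 | h4
      · exact h4
      · exact absurd h4 h3

end Dec

end Pool.Agent.J6H66.Queens
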