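import Mathlib
import Pool.Agent.J6H66.Queens.Dec

set_option autoImplicit false

namespace Pool.Agent.J6H66.Queens

/-- `x` is an empty line of the box. -/
def Em (w : ℤ) (A : Finset ℤ) (x : ℤ) : Prop := x ∈ A ∨ w - x ∈ A

/-- column `s` can hold the queen of row `t` (or `w - t`), near the boundary. -/
def InS (w : ℤ) (A : Finset ℤ) (t s : ℤ) : Prop := ¬ Em w A s ∧ s - t ∈ A ∧ w - (s + t) ∈ A

/-- column `c` can hold the queen of an outer row at depth `i`. -/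
def InO (w : ℤ) (A : Finset ℤ) (i c : ℤ) : Prop := ¬ Em w A c ∧ w - (c - i) ∈ A ∧ c + i ∈ A

structure Sys (w j : ℤ) (A : Finset ℤ) : Prop where
  hw : 1 ≤ w
  hj : 0 ≤ j
  zero : (0 : ℤ) ∈ A
  rng : ∀ x ∈ A, 0 ≤ x ∧ x < w
  dis : ∀ x ∈ A, w - x ∉ A
  C1 : ∀ x y, Em w A x → Em w A y → |y - x| ∈ A ∨ |w - x - y| ∈ A
  card : 4 * (A.card : ℤ) = w + 2 + j
  S : ∀ t, 0 < t → 2 * t ≠ w → (∀ x, Em w A x → 0 < x → t < x) →
    ∃ s s', s ≠ s' ∧ InS w A t s ∧ InS w A t s'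
  O1 : 1 ≤ j → ∃ c, InO w A 1 c
  O2 : 2 ≤ j → (∃ c c', c ≠ c' ∧ InO w A 1 c ∧ InO w A 1 c') ∨ ∃ c, InO w A 2 c
  O3 : 3 ≤ j → ∃ c, InO w A 2 c
  J0 : j = 0 → ∀ r, 0 < r → (∀ x, 0 ≤ x → x < r → Em w A x) → ∀ a ∈ A, a ≤ w - 2 * r
  J1 : j = 0 → ∀ t t', t ≠ t' → 0 < t → t < w → 0 < t' → t' < w → ¬ Em w A t → ¬ Em w A t' →
    ∃ s s', s ≠ s' ∧ |t - s| ∈ A ∧ |w - s - t| ∈ A ∧ |t' - s'| ∈ A ∧ |w - s' - t'| ∈ A
  P : j = 0 → 4 * ∑ a ∈ A, a ^ 2 = ∑ t ∈ (Finset.Icc 0 w).filter (fun t => t ∉ A ∧ w - t ∉ A), (2 * t - w) ^ 2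

theorem mc {A : Finset ℤ} {a b : ℤ} (h : a ∈ A) (e : a = b) : b ∈ A := e ▸ h

theorem nc {A : Finset ℤ} {a b : ℤ} (h : a ∉ A) (e : a = b) : b ∉ A := e ▸ h

namespace Sys

variable {w j : ℤ} {A : Finset ℤ}

theorem Esym (_h : Sys w j A) {x : ℤ} (hx : Em w A x) : Em w A (w - x) := by
  rcases hx with h1 | h1
  · right; exact mc h1 (by ring)
  · left; exact h1

theorem E0 (h : Sys w j A) : Em w A 0 := Or.inl h.zero

theorem Ew (h : Sys w j A) : Em w A w := Or.inr (mc h.zero (by ring))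

theorem Erng (h : Sys w j A) {x : ℤ} (hx : Em w A x) : 0 ≤ x ∧ x ≤ w := by
  rcases hx with h1 | h1
  · have := h.rng _ h1; omega
  · have := h.rng _ h1; omega

/-- basic form of the covering condition -/
theorem c1 (h : Sys w j A) {x y : ℤ} (hx : Em w A x) (hy : Em w A y) (hxy : x ≤ y)
    (hs : x + y ≤ w) : y - x ∈ A ∨ w - (x + y) ∈ A := by
  rcases h.C1 x y hx hy with h1 | h1
  · left; exact mc h1 (abs_of_nonneg (by omega))
  · right
    refine mc h1 ?_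
    rw [abs_of_nonneg (by omega)]; ring

theorem inS_sym (h : Sys w j A) {t s : ℤ} (hs : InS w A t s) : InS w A t (w - s) := by
  obtain ⟨h1, h2, h3⟩ := hs
  refine ⟨fun hc => h1 ?_, mc h3 (by ring), mc h2 (by ring)⟩
  have := h.Esym hc
  rwa [show w - (w - s) = s by ring] at this

theorem inO_sym (h : Sys w j A) {t s : ℤ} (hs : InO w A t s) : InO w A t (w - s) := by
  obtain ⟨h1, h2, h3⟩ := hs
  refine ⟨fun hc => h1 ?_, mc h3 (by ring), mc h2 (by ring)⟩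
  have := h.Esym hc
  rwa [show w - (w - s) = s by ring] at this

/-- the decomposition attached to the smallest positive empty line -/
theorem dec (h : Sys w j A) {d : ℤ} (hd : 0 < d) (hE : Em w A d)
    (hmin : ∀ x, Em w A x → 0 < x → d ≤ x) :
    Dec w d (Em w A) (fun x => x ∈ A) (fun x => w - x ∈ A) where
  hd := hd
  rng := fun x hx => h.Erng hx
  spl := fun x => Iff.rfl
  dis := fun x hx => h.dis x hx
  zero := h.zero
  top := mc h.zero (by ring)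
  gap := hmin
  gap' := fun x hx h0 => by
    have := hmin _ (h.Esym hx) (by omega)
    omega
  shift := fun x hx h0 h1 => by
    have h2 := hmin x hx h0
    have h3 := hmin _ (h.Esym hx) (by omega)
    exact h.c1 hE hx h2 (by omega) |>.imp id (fun h4 => mc h4 (by ring))

theorem exists_d (h : Sys w j A) : ∃ d, 0 < d ∧ Em w A d ∧ ∀ x, Em w A x → 0 < x → d ≤ x := by
  classical
  have hne : ∃ n : ℕ, 0 < n ∧ Em w A (n : ℤ) := by
    refine ⟨w.toNat, ?_, ?_⟩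
    · have := h.hw; omega
    · have e : ((w.toNat : ℕ) : ℤ) = w := by have := h.hw; omega
      rw [e]; exact h.Ew
  obtain ⟨n, hn, hmin⟩ : ∃ n : ℕ, (0 < n ∧ Em w A (n : ℤ)) ∧ ∀ m : ℕ, m < n → ¬ (0 < m ∧ Em w A (m : ℤ)) :=
    ⟨Nat.find hne, Nat.find_spec hne, fun m hm => Nat.find_min hne hm⟩
  refine ⟨n, by exact_mod_cast hn.1, hn.2, ?_⟩
  intro x hx h0
  by_contra hcon
  refine hmin x.toNat (by omega) ⟨by omega, ?_⟩
  have e : ((x.toNat : ℕ) : ℤ) = x := by omega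
  rw [e]; exact hx

end Sys

end Pool.Agent.J6H66.Queens
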