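import Mathlib
import Pool.Agent.J6H66.Queens.Sys

set_option autoImplicit false

namespace Pool.Agent.J6H66.Queens

namespace Sys

variable {w j : ℤ} {A : Finset ℤ}

/-- If `d, 2d ∈ A`, all elements of `A` are `0` or `w` modulo `d`. -/
theorem mod_classes (h : Sys w j A) {d : ℤ} (hd : 0 < d) (hE : Em w A d)
    (hmin : ∀ x, Em w A x → 0 < x → d ≤ x) (_h1 : d ∈ A) (h2 : 2 * d ∈ A) :
    ∀ (n : ℕ) (y : ℤ), y.toNat = n → y ∈ A → d ∣ y ∨ d ∣ (w - y) := by
  intro n
  induction n using Nat.strong_induction_on with
  | _ n ih =>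
    intro y hn hy
    have D := h.dec hd hE hmin
    have hyr := h.rng y hy
    rcases D.X_cases hy with ⟨k, hk, _⟩ | ⟨h3, h4⟩
    · left; exact ⟨k, by rw [hk]; ring⟩
    · have hy0 : y ≠ 0 := by
        intro e
        subst e
        have := h.dis d _h1
        exact this (mc h4 (by ring))
      have hyd := hmin y (Or.inl hy) (by omega)
      have hyd' : y ≠ d := by
        intro e
        apply h3
        rw [e]; exact mc h.zero (by ring)
      have hwy := h.rng _ h4
      rcases h.C1 (2 * d) y (Or.inl h2) (Or.inl hy) with h5 | h5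
      · rcases le_or_gt (2 * d) y with h6 | h6
        · rw [abs_of_nonneg (by omega)] at h5
          rcases ih (y - 2 * d).toNat (by omega) (y - 2 * d) rfl h5 with h7 | h7
          · left
            have : y = (y - 2 * d) + d * 2 := by ring
            rw [this]; exact dvd_add h7 (dvd_mul_right _ _)
          · right
            have : w - y = (w - (y - 2 * d)) - d * 2 := by ring
            rw [this]; exact dvd_sub h7 (dvd_mul_right _ _)
        · rw [abs_of_neg (by omega)] at h5
          have := hmin _ (Or.inl h5) (by omega)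
          omega
      · rcases le_or_gt 0 (w - 2 * d - y) with h6 | h6
        · rw [abs_of_nonneg (by omega)] at h5
          obtain ⟨k, hk, _⟩ := D.chainY' (y := y + d) h4 (mc h5 (by ring))
          right
          have : w - y = d * (k + 1) := by linarith [hk]
          rw [this]; exact dvd_mul_right _ _
        · right
          have h7 : w - (y + d) = 0 := by
            by_contra hcon
            have := hmin _ (Or.inl h4) (by omega)
            omega
          have : w - y = d := by omega
          rw [this]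

/-- uniqueness of the elements of `A` in the class of `w` modulo `d` when `d ∤ w`. -/
theorem unique_w (h : Sys w j A) {d : ℤ} (hd : 0 < d) (hE : Em w A d)
    (hmin : ∀ x, Em w A x → 0 < x → d ≤ x) (_h1 : d ∈ A) (h2 : 2 * d ∈ A) (hdw : ¬ d ∣ w) :
    ∀ y ∈ A, d ∣ (w - y) → ∀ y' ∈ A, d ∣ (w - y') → y = y' := by
  have D := h.dec hd hE hmin
  -- no y with y and y - 2d both in the class
  have key : ∀ (n : ℕ) (y : ℤ), y.toNat = n → y ∈ A → d ∣ (w - y) → y - 2 * d ∉ A := by
    intro n
    induction n using Nat.strong_induction_on with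
    | _ n ih =>
      intro y hn hy hyw hcon
      have hz := h.rng _ hcon
      have hzd : d ∣ (w - (y - 2 * d)) := by
        have : w - (y - 2 * d) = (w - y) + d * 2 := by ring
        rw [this]; exact dvd_add hyw (dvd_mul_right _ _)
      have hz0 : y - 2 * d ≠ 0 := by
        intro e
        rw [e] at hzd
        apply hdw
        simpa using hzd
      have hzdd := hmin _ (Or.inl hcon) (by omega)
      have hzne : y - 2 * d ≠ d := by
        intro e
        rw [e] at hzd
        apply hdw
        have : w = (w - d) + d := by ring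
        rw [this]; exact dvd_add hzd dvd_rfl
      rcases h.C1 (2 * d) (y - 2 * d) (Or.inl h2) (Or.inl hcon) with h5 | h5
      · rcases le_or_gt (2 * d) (y - 2 * d) with h6 | h6
        · rw [abs_of_nonneg (by omega)] at h5
          exact ih (y - 2 * d).toNat (by omega) (y - 2 * d) rfl hcon hzd h5
        · rw [abs_of_neg (by omega)] at h5
          have := hmin _ (Or.inl h5) (by omega)
          omega
      · have hyr := h.rng _ hy
        rw [abs_of_nonneg (by omega)] at h5
        exact h.dis _ hy (mc h5 (by ring))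
  have key2 : ∀ y ∈ A, d ∣ (w - y) → ∀ y' ∈ A, d ∣ (w - y') → ¬ (y < y') := by
    intro y hy hyw y' hy' hyw' hlt
    -- B(y+d), B(y+2d)
    have hyr := h.rng y hy
    have hyr' := h.rng y' hy'
    rcases D.X_cases hy with ⟨k, hk, _⟩ | ⟨h3, h4⟩
    · apply hdw
      have : w = (w - y) + d * k := by rw [hk]; ring
      rw [this]; exact dvd_add hyw (dvd_mul_right _ _)
    · have hwy := h.rng _ h4
      have hy0 : y ≠ 0 := by
        intro e; rw [e] at hyw; apply hdw; simpa using hyw
      have hyd := hmin y (Or.inl hy) (by omega)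
      have hyd' : y ≠ d := by
        intro e
        apply h3
        rw [e]; exact mc h.zero (by ring)
      have hB : ∃ k : ℕ, y + d = w - k * d ∧ ∀ i : ℕ, i ≤ k → w - (w - i * d) ∈ A := by
        rcases h.C1 (2 * d) y (Or.inl h2) (Or.inl hy) with h5 | h5
        · rcases le_or_gt (2 * d) y with h6 | h6
          · rw [abs_of_nonneg (by omega)] at h5
            exact absurd h5 (key _ y rfl hy hyw)
          · rw [abs_of_neg (by omega)] at h5
            have := hmin _ (Or.inl h5) (by omega)
            omega
        · rcases le_or_gt 0 (w - 2 * d - y) with h6 | h6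
          · rw [abs_of_nonneg (by omega)] at h5
            exact D.chainY' (y := y + d) h4 (mc h5 (by ring))
          · refine ⟨0, ?_, ?_⟩
            · by_contra hcon
              have := hmin _ (Or.inl h4) (by push_cast at hcon; omega)
              omega
            · intro i hi
              interval_cases i
              exact mc h.zero (by ring)
      obtain ⟨k, hk, hall⟩ := hB
      obtain ⟨m, hm⟩ := hyw'
      -- w - y' = d*m, m ≤ k
      have hm0 : 0 < m := by
        have : 0 < d * m := by rw [← hm]; omega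
        exact (mul_pos_iff_of_pos_left hd).1 this
      have hmk : m ≤ k := by
        have h7 : d * m < d * (k + 1) := by
          have : d * ((k : ℤ) + 1) = w - y := by linarith [hk]
          rw [this, ← hm]; omega
        have := lt_of_mul_lt_mul_left h7 hd.le
        omega
      have h8 := hall m.toNat (by omega)
      have e : ((m.toNat : ℕ) : ℤ) = m := by omega
      rw [e] at h8
      apply h.dis _ hy'
      exact mc h8 (by linarith [hm])
  intro y hy hyw y' hy' hyw'
  rcases lt_trichotomy y y' with h3 | h3 | h3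
  · exact absurd h3 (key2 y hy hyw y' hy' hyw')
  · exact h3
  · exact absurd h3 (key2 y' hy' hyw' y hy hyw)

/-- Mirror form: elements of `B` that are multiples of `d`. -/
theorem unique_B (h : Sys w j A) {d : ℤ} (hd : 0 < d) (hE : Em w A d)
    (hmin : ∀ x, Em w A x → 0 < x → d ≤ x) (h1 : d ∈ A) (h2 : 2 * d ∈ A) (hdw : ¬ d ∣ w) :
    ∀ y, w - y ∈ A → d ∣ y → ∀ y', w - y' ∈ A → d ∣ y' → y = y' := by
  intro y hy hyw y' hy' hyw'
  have := h.unique_w hd hE hmin h1 h2 hdw (w - y) hy (by simpa using hyw) (w - y') hy' (by simpa using hyw')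
  omega

theorem d_ge_three_A (h : Sys w j A) {d : ℤ} (hd : 3 ≤ d) (hE : Em w A d)
    (hmin : ∀ x, Em w A x → 0 < x → d ≤ x) : d ∈ A ∧ 2 * d ∈ A := by
  have D := h.dec (by omega) hE hmin
  have hdw := h.Erng hE
  obtain ⟨s0, s1, hne, hs0, hs1⟩ := h.S 1 (by omega) (by omega) (fun x hx h0 => by
    have := hmin x hx h0; omega)
  -- choose s < w/2
  obtain ⟨s, hs, hsw⟩ : ∃ s, InS w A 1 s ∧ 2 * s < w := by
    by_cases h3 : 2 * s0 < w
    · exact ⟨s0, hs0, h3⟩
    · by_cases h4 : 2 * s0 = w
      · by_cases h5 : 2 * s1 < w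
        · exact ⟨s1, hs1, h5⟩
        · exact ⟨w - s1, h.inS_sym hs1, by omega⟩
      · exact ⟨w - s0, h.inS_sym hs0, by omega⟩
  obtain ⟨h3, h4, h5⟩ := hs
  have h4r := h.rng _ h4
  have h5r := h.rng _ h5
  have hs1' : s - 1 ≠ 0 := by
    intro e
    have := hmin (s + 1) (Or.inr h5) (by omega)
    omega
  have hs2 := hmin (s - 1) (Or.inl h4) (by omega)
  have hB2s : w - 2 * s ∈ A := by
    rcases h.c1 (Or.inl h4) (y := s + 1) (Or.inr h5) (by omega) (by omega) with h6 | h6
    · have := hmin _ (Or.inl h6) (by omega)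
      omega
    · exact mc h6 (by ring)
  have from_chain : ∀ k : ℕ, 2 ≤ k → (∀ i : ℕ, i ≤ k → w - (w - i * d) ∈ A) → d ∈ A ∧ 2 * d ∈ A := by
    intro k hk hall
    refine ⟨mc (hall 1 (by omega)) (by push_cast; ring), mc (hall 2 (by omega)) (by push_cast; ring)⟩
  rcases D.Y_cases (y := s + 1) h5 with ⟨k, hk, hall⟩ | ⟨h6, h7⟩
  · -- s + 1 = w - k d
    have hk2 : 2 ≤ k := by
      by_contra hcon
      have hk1 : k = 0 ∨ k = 1 := by omega
      rcases hk1 with e | e
      · subst e; push_cast at hk; omega
      · subst e; push_cast at hk; omega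
    exact from_chain k hk2 hall
  · -- s + 1 - d ∈ A
    have h7r := h.rng _ h7
    have h8 : w - (2 * s - d) ∈ A := by
      rcases h.c1 (Or.inl h7) (y := s - 1) (Or.inl h4) (by omega) (by omega) with h9 | h9
      · have := hmin _ (Or.inl h9) (by omega)
        omega
      · exact mc h9 (by ring)
    obtain ⟨k, hk, hall⟩ := D.chainY' (y := 2 * s - d) h8 (mc hB2s (by ring))
    have hk2 : 2 ≤ k := by
      by_contra hcon
      have hk1 : k = 0 ∨ k = 1 := by omega
      rcases hk1 with e | e
      · subst e; push_cast at hk; omega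
      · subst e; push_cast at hk; omega
    exact from_chain k hk2 hall

/-- `d ≥ 3` is impossible. -/
theorem not_d_ge_three (h : Sys w j A) {d : ℤ} (hd : 3 ≤ d) (hE : Em w A d)
    (hmin : ∀ x, Em w A x → 0 < x → d ≤ x) : False := by
  obtain ⟨h1, h2⟩ := h.d_ge_three_A hd hE hmin
  have D := h.dec (by omega) hE hmin
  have hcl : ∀ y ∈ A, d ∣ y ∨ d ∣ (w - y) := fun y hy =>
    h.mod_classes (by omega) hE hmin h1 h2 _ y rfl hy
  have nd2 : ¬ d ∣ 2 := by
    intro hc
    have := Int.le_of_dvd (by norm_num) hc
    omega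
  obtain ⟨s0, s1, hne, hs0, hs1⟩ := h.S 1 (by omega) (by have := h.rng _ h1; omega) (fun x hx h0 => by
    have := hmin x hx h0; omega)
  -- classes for S_1 elements
  have hS1 : ∀ s, InS w A 1 s → (d ∣ (s - 1) ∧ d ∣ (w - (s + 1))) ∨ (d ∣ (w - (s - 1)) ∧ d ∣ (s + 1)) := by
    intro s hs
    obtain ⟨_, h4, h5⟩ := hs
    rcases hcl _ h4 with h6 | h6 <;> rcases hcl _ h5 with h7 | h7
    · left; exact ⟨h6, h7⟩
    · exfalso; apply nd2
      have : (2 : ℤ) = (w - (w - (s + 1))) - (s - 1) := by ring
      rw [this]; exact dvd_sub h7 h6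
    · exfalso; apply nd2
      have : (2 : ℤ) = (w - (s - 1)) - (w - (s + 1)) := by ring
      rw [this]; exact dvd_sub h6 h7
    · right; refine ⟨h6, ?_⟩
      have : s + 1 = w - (w - (s + 1)) := by ring
      rw [this]; exact h7
  have hdw : ¬ d ∣ w := by
    intro hc
    apply nd2
    rcases hS1 s0 hs0 with ⟨h3, h4⟩ | ⟨h3, h4⟩
    · have : (2 : ℤ) = w - (s0 - 1) - (w - (s0 + 1)) := by ring
      rw [this]; exact dvd_sub (dvd_sub hc h3) h4
    · have : (2 : ℤ) = (s0 + 1) + (w - (s0 - 1)) - w := by ring
      rw [this]; exact dvd_sub (dvd_add h4 h3) hc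
  -- d = 3 by density
  have hd3 : d = 3 := by
    by_contra hcon
    have hd4 : 4 ≤ d := by omega
    -- injection of A into [0, w/d)
    have hcard : A.card ≤ (Finset.Ico (0 : ℤ) (w / d)).card := by
      classical
      let f : ℤ → ℤ := fun y => if d ∣ y then y / d else (w - y) / d
      have hmul : ∀ x, Em w A x → d ∣ x → x / d < w / d ∧ 0 ≤ x / d := by
        intro x hx hdx
        have hxr := h.Erng hx
        have hxw : x ≠ w := by intro e; exact hdw (e ▸ hdx)
        have := D.gap' x hx (by omega)
        constructor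
        · obtain ⟨c, hc⟩ := hdx
          rw [hc, Int.mul_ediv_cancel_left _ (by omega)]
          rw [Int.lt_iff_add_one_le, Int.le_ediv_iff_mul_le (by omega)]
          have e : (c + 1) * d = d * c + d := by ring
          rw [e, ← hc]; omega
        · exact Int.ediv_nonneg hxr.1 (by omega)
      refine Finset.card_le_card_of_injOn f ?_ ?_
      · intro y hy
        have hy' : y ∈ A := hy
        simp only [Finset.coe_Ico, Set.mem_Ico, f]
        split_ifs with h3
        · have := hmul y (Or.inl hy') h3; exact ⟨this.2, this.1⟩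
        · have h4 := (hcl y hy').resolve_left h3
          have := hmul (w - y) (h.Esym (Or.inl hy')) h4
          exact ⟨this.2, this.1⟩
      · intro y hy y' hy' he
        have hyA : y ∈ A := hy
        have hyA' : y' ∈ A := hy'
        simp only [f] at he
        split_ifs at he with h3 h4 h4
        · have e1 := Int.ediv_mul_cancel h3
          have e2 := Int.ediv_mul_cancel h4
          rw [← e1, ← e2, he]
        · have h5 := (hcl y' hyA').resolve_left h4
          have e1 := Int.ediv_mul_cancel h3
          have e2 := Int.ediv_mul_cancel h5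
          exfalso
          rw [he, e2] at e1
          exact h.dis _ hyA' (mc hyA e1.symm)
        · have h5 := (hcl y hyA).resolve_left h3
          have e1 := Int.ediv_mul_cancel h5
          have e2 := Int.ediv_mul_cancel h4
          exfalso
          rw [he, e2] at e1
          exact h.dis _ hyA (mc hyA' e1)
        · have h5 := (hcl y hyA).resolve_left h3
          have h6 := (hcl y' hyA').resolve_left h4
          have e1 := Int.ediv_mul_cancel h5
          have e2 := Int.ediv_mul_cancel h6
          rw [he, e2] at e1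
          omega
    rw [Int.card_Ico] at hcard
    have hcd := h.card
    have hjj := h.hj
    have hww := h.hw
    have h3 : (A.card : ℤ) ≤ w / d := by
      have h4 : 0 ≤ w / d := Int.ediv_nonneg (by omega) (by omega)
      have : (A.card : ℤ) ≤ ((w / d - 0).toNat : ℤ) := by exact_mod_cast hcard
      omega
    have h5 : w / d * d ≤ w := Int.ediv_mul_le _ (by omega)
    have h6 : 0 ≤ w / d := Int.ediv_nonneg (by omega) (by omega)
    nlinarith
  subst hd3
  -- now d = 3
  have h6mem : (6 : ℤ) ∈ A := mc h2 (by norm_num)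
  have hw6 := h.rng _ h6mem
  obtain ⟨t0, t1, hnet, ht0, ht1⟩ := h.S 2 (by omega) (by omega) (fun x hx h0 => by
    have := hmin x hx h0; omega)
  have huw := h.unique_w (by omega) hE hmin h1 h2 hdw
  rcases hS1 s0 hs0 with ⟨h3, h4⟩ | ⟨h3, h4⟩
  · -- w ≡ 2
    have hw2 : (3 : ℤ) ∣ w - 2 := by omega
    have hS2 : ∀ s, InS w A 2 s → (3 : ℤ) ∣ (w - (s - 2)) := by
      intro s hs
      obtain ⟨_, h5, h6⟩ := hs
      rcases hcl _ h5 with h7 | h7
      · exfalso
        rcases hcl _ h6 with h8 | h8 <;> omega
      · exact h7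
    have := huw _ ht0.2.1 (hS2 _ ht0) _ ht1.2.1 (hS2 _ ht1)
    omega
  · -- w ≡ 1
    have hw1 : (3 : ℤ) ∣ w - 1 := by omega
    have hS1' : ∀ s, InS w A 1 s → (3 : ℤ) ∣ (w - (s - 1)) := by
      intro s hs
      rcases hS1 s hs with ⟨h5, h6⟩ | ⟨h5, h6⟩
      · omega
      · exact h5
    have := huw _ hs0.2.1 (hS1' _ hs0) _ hs1.2.1 (hS1' _ hs1)
    omega

end Sys

end Pool.Agent.J6H66.Queens
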