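import Mathlib
import Pool.Agent.J6H66.Queens.DThree

set_option autoImplicit false

namespace Pool.Agent.J6H66.Queens

namespace Sys

variable {w j : ℤ} {A : Finset ℤ}

/-- least element of a nonempty set of nonnegative integers described by a predicate -/
theorem exists_least (P : ℤ → Prop) (x0 : ℤ) (hx0 : P x0) (hpos : ∀ x, P x → 0 ≤ x) :
    ∃ x, P x ∧ ∀ y, P y → x ≤ y := by
  classical
  have hne : ∃ n : ℕ, P (n : ℤ) := ⟨x0.toNat, by
    have e : ((x0.toNat : ℕ) : ℤ) = x0 := by have := hpos x0 hx0; omega
    rw [e]; exact hx0⟩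
  refine ⟨Nat.find hne, Nat.find_spec hne, ?_⟩
  intro y hy
  have hy0 := hpos y hy
  have e : ((y.toNat : ℕ) : ℤ) = y := by omega
  have := Nat.find_min' hne (m := y.toNat) (by rw [e]; exact hy)
  omega

/-- Case `d ∈ B`: `A` is an arithmetic progression. -/
theorem ap (h : Sys w j A) {d : ℤ} (hd : 0 < d) (hE : Em w A d)
    (hmin : ∀ x, Em w A x → 0 < x → d ≤ x) (hB : w - d ∈ A) (hdw : d < w) :
    ∃ g L : ℤ, d < g ∧ 1 ≤ L ∧ w = L * g + d ∧ (∀ y ∈ A, g ∣ y) ∧ (A.card : ℤ) = L + 1 := by
  have D := h.dec hd hE hmin
  have hdA : d ∉ A := fun hc => h.dis _ hc hB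
  have ha : ∀ x ∈ A, w - (x + d) ∈ A := by
    intro x hx
    rcases D.X_cases hx with ⟨k, hk, hall⟩ | ⟨_, h4⟩
    · rcases Nat.eq_zero_or_pos k with hk0 | hk0
      · subst hk0
        exact mc hB (by push_cast at hk; omega)
      · exfalso
        exact hdA (mc (hall 1 hk0) (by push_cast; ring))
    · exact h4
  have hb : ∀ y, w - y ∈ A → y - d ∈ A := by
    intro y hy
    exact mc (ha _ hy) (by ring)
  obtain ⟨g, ⟨hgA, hg0⟩, hgmin⟩ := exists_least (fun x => x ∈ A ∧ 0 < x) (w - d) ⟨hB, by omega⟩
    (fun x hx => by have := hx.2; omega)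
  have hgd : d < g := by
    have := hmin g (Or.inl hgA) hg0
    rcases lt_or_eq_of_le this with h1 | h1
    · exact h1
    · exact absurd (mc hgA h1.symm) hdA
  have hgle : g ≤ w - d := hgmin _ ⟨hB, by omega⟩
  have hmul : ∀ l : ℕ, (l : ℤ) * g ≤ w - d → (l : ℤ) * g ∈ A := by
    intro l
    induction l using Nat.strong_induction_on with
    | _ l ih =>
      intro hl
      match l, ih, hl with
      | 0, _, _ => simpa using h.zero
      | 1, _, _ => simpa using hgA
      | (m + 2), ih, hl =>
        have h1 : ((m + 1 : ℕ) : ℤ) * g ∈ A := ih (m + 1) (by omega) (by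
          push_cast at hl ⊢; nlinarith)
        have h0 : ((m : ℕ) : ℤ) * g ∈ A := ih m (by omega) (by
          push_cast at hl ⊢; nlinarith)
        push_cast at hl h1 h0 ⊢
        have hgd' : Em w A (g + d) := Or.inr (ha g hgA)
        rcases h.C1 (g + d) (((m : ℤ) + 1) * g) hgd' (Or.inl h1) with h2 | h2
        · exfalso
          rcases Nat.eq_zero_or_pos m with hm | hm
          · subst hm
            apply hdA
            refine mc h2 ?_
            push_cast
            rw [show (1 : ℤ) * g - (g + d) = -d by ring, abs_neg, abs_of_pos hd]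
          · have hm' : (1 : ℤ) ≤ m := by exact_mod_cast hm
            have hpos : 0 ≤ ((m : ℤ) + 1) * g - (g + d) := by nlinarith
            rw [abs_of_nonneg hpos] at h2
            have h3 := ha _ h2
            exact h.dis _ h0 (mc h3 (by ring))
        · have hpos : 0 ≤ w - (g + d) - ((m : ℤ) + 1) * g := by nlinarith
          rw [abs_of_nonneg hpos] at h2
          exact mc (hb (((m : ℤ) + 2) * g + d) (mc h2 (by ring))) (by ring)
  -- g divides w - d
  have hdiv : g ∣ w - d := by
    have hq : 0 ≤ (w - d) / g := Int.ediv_nonneg (by omega) (by omega)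
    have e : (((w - d) / g).toNat : ℤ) = (w - d) / g := by omega
    have h1 := hmul ((w - d) / g).toNat (by rw [e]; exact Int.ediv_mul_le _ (by omega))
    rw [e] at h1
    have h2 := ha _ h1
    have h3 : w - ((w - d) / g * g + d) = (w - d) % g := by
      have := Int.emod_add_mul_ediv (w - d) g
      linarith
    rw [h3] at h2
    have h4 := Int.emod_nonneg (w - d) (show g ≠ 0 by omega)
    have h5 := Int.emod_lt_of_pos (w - d) hg0
    by_contra hcon
    have h6 : (w - d) % g ≠ 0 := fun e => hcon (Int.dvd_of_emod_eq_zero e)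
    have := hgmin _ ⟨h2, by omega⟩
    omega
  have hall : ∀ y ∈ A, g ∣ y := by
    by_contra hcon
    push Not at hcon
    obtain ⟨y0, hy0, hy0'⟩ := hcon
    obtain ⟨x, ⟨hxA, hxn⟩, hxmin⟩ := exists_least (fun x => x ∈ A ∧ ¬ g ∣ x) y0 ⟨hy0, hy0'⟩
      (fun x hx => (h.rng x hx.1).1)
    have hx0 : x ≠ 0 := by intro e; apply hxn; rw [e]; exact dvd_zero _
    have hxr := h.rng x hxA
    have hxg := hgmin x ⟨hxA, by omega⟩
    have hxg' : x ≠ g := by intro e; apply hxn; rw [e]
    have hx' : x ≤ w - (x + d) := by
      apply hxmin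
      refine ⟨ha x hxA, ?_⟩
      intro hc
      apply hxn
      have : x = (w - d) - (w - (x + d)) := by ring
      rw [this]; exact dvd_sub hdiv hc
    -- x + g - d ∈ A
    have h1 : w - (x + g) ∈ A := by
      rcases h.c1 (Or.inl hgA) (Or.inl hxA) hxg (by omega) with h2 | h2
      · exfalso
        have := hxmin (x - g) ⟨h2, fun hc => hxn (by
          have : x = (x - g) + g := by ring
          rw [this]; exact dvd_add hc dvd_rfl)⟩
        omega
      · exact mc h2 (by ring)
    have h2 : w - (x + g + d) ∈ A := by
      rcases h.C1 (g + d) x (Or.inr (ha g hgA)) (Or.inl hxA) with h3 | h3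
      · exfalso
        rcases le_or_gt (g + d) x with h4 | h4
        · rw [abs_of_nonneg (by omega)] at h3
          by_cases h5 : g ∣ x - (g + d)
          · obtain ⟨c, hc⟩ := h5
            have hc0 : 0 ≤ c := by
              by_contra hneg
              have : g * c < 0 := mul_neg_of_pos_of_neg hg0 (by omega)
              omega
            have h6 := hmul (c + 1).toNat (by
              have e : (((c + 1).toNat : ℕ) : ℤ) = c + 1 := by omega
              rw [e]
              have : (c + 1) * g = x - d := by linarith
              omega)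
            have e : (((c + 1).toNat : ℕ) : ℤ) = c + 1 := by omega
            rw [e] at h6
            have h7 := ha _ h6
            apply h.dis x hxA
            exact mc h7 (by linarith)
          · have := hxmin _ ⟨h3, h5⟩
            omega
        · rw [abs_of_neg (by omega)] at h3
          have := hmin _ (Or.inl h3) (by omega)
          omega
      · rw [abs_of_nonneg (by omega)] at h3
        exact mc h3 (by ring)
    have h3 := hb _ h2
    exact h.dis _ (mc h3 (show x + g + d - d = x + g by ring)) h1
  obtain ⟨L, hL⟩ := hdiv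
  have hL1 : 1 ≤ L := by
    by_contra hcon
    have : g * L ≤ 0 := mul_nonpos_of_nonneg_of_nonpos hg0.le (by omega)
    omega
  refine ⟨g, L, hgd, hL1, by linarith, hall, ?_⟩
  -- card
  have hA : A = (Finset.Icc (0 : ℤ) L).image (fun l => l * g) := by
    ext y
    simp only [Finset.mem_image, Finset.mem_Icc]
    constructor
    · intro hy
      obtain ⟨c, hc⟩ := hall y hy
      have hyr := h.rng y hy
      have hyw := h.rng _ (ha y hy)
      refine ⟨c, ⟨?_, ?_⟩, by linarith⟩
      · by_contra hneg
        have : g * c < 0 := mul_neg_of_pos_of_neg hg0 (by omega)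
        omega
      · by_contra hneg
        have : g * L < g * c := mul_lt_mul_of_pos_left (by omega) hg0
        omega
    · rintro ⟨l, ⟨hl0, hlL⟩, rfl⟩
      have e : ((l.toNat : ℕ) : ℤ) = l := by omega
      have := hmul l.toNat (by
        rw [e]
        have : l * g ≤ L * g := mul_le_mul_of_nonneg_right hlL hg0.le
        linarith)
      rwa [e] at this
  rw [hA, Finset.card_image_of_injective _ (fun a b hab => mul_right_cancel₀ (show g ≠ 0 by omega) hab)]
  rw [Int.card_Icc]
  omega

/-- `d = 2 ∈ B`. -/
theorem two_kzero (h : Sys w j A) (hE : Em w A 2)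
    (hmin : ∀ x, Em w A x → 0 < x → 2 ≤ x) (hB : w - 2 ∈ A) : ∀ x, Em w A x → 2 ∣ x := by
  have hw := h.Erng hE
  rcases eq_or_lt_of_le hw.2 with h1 | h1
  · intro x hx
    have hxr := h.Erng hx
    have : x ≠ 1 := by
      intro e
      have := hmin x hx (by omega)
      omega
    omega
  · obtain ⟨g, L, hg, hL, hw', hall, hc⟩ := h.ap (by norm_num) hE hmin hB h1
    have hcard := h.card
    rw [hc] at hcard
    have hjj := h.hj
    have hg4 : g ≤ 4 := by nlinarith
    interval_cases g
    · -- g = 3
      exfalso
      obtain ⟨c, _, h2, h3⟩ := h.O1 (by omega)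
      have h4 := hall _ h2
      have h5 := hall _ h3
      omega
    · intro x hx
      rcases hx with h2 | h2
      · have := hall _ h2; omega
      · have := hall _ h2; omega

/-- `d = 1 ∈ B` is impossible. -/
theorem one_kzero (h : Sys w j A) (hE : Em w A 1)
    (hmin : ∀ x, Em w A x → 0 < x → 1 ≤ x) (hB : w - 1 ∈ A) : False := by
  have hw := h.Erng hE
  rcases eq_or_lt_of_le hw.2 with h1 | h1
  · have hA : A = {0} := by
      ext y
      simp only [Finset.mem_singleton]
      constructor
      · intro hy; have := h.rng y hy; omega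
      · rintro rfl; exact h.zero
    have hcard := h.card
    have hA1 : (A.card : ℤ) = 1 := by rw [hA]; simp
    rw [hA1] at hcard
    obtain ⟨c, _, h2, h3⟩ := h.O1 (by omega)
    have h4 := h.rng _ h2
    have h5 := h.rng _ h3
    omega
  · obtain ⟨g, L, hg, hL, hw', hall, hc⟩ := h.ap (by norm_num) hE hmin hB h1
    have hcard := h.card
    rw [hc] at hcard
    have hjj := h.hj
    rcases eq_or_lt_of_le hjj with hj0 | hj0
    · have := h.J0 hj0.symm 2 (by norm_num) (fun x hx0 hx2 => by
        have : x = 0 ∨ x = 1 := by omega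
        rcases this with e | e
        · rw [e]; exact h.E0
        · rw [e]; exact hE) _ hB
      omega
    · obtain ⟨c, _, h2, h3⟩ := h.O1 (by omega)
      have h4 := hall _ h2
      have h5 := hall _ h3
      have h6 : g ∣ 3 := by
        have : (3 : ℤ) = (c + 1) - (L * g) + (w - (c - 1)) := by rw [hw']; ring
        rw [this]
        exact dvd_add (dvd_sub h5 (dvd_mul_left _ _)) h4
      have h7 := Int.le_of_dvd (by norm_num) h6
      have hg3 : g = 3 := by
        have : g ≠ 2 := by
          intro e
          rw [e] at h6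
          omega
        omega
      subst hg3
      rcases eq_or_lt_of_le hL with hL1 | hL1
      · -- L = 1
        subst hL1
        rcases h.O2 (by omega) with ⟨c1, c2, hne, ⟨_, a2, a3⟩, ⟨_, b2, b3⟩⟩ | ⟨c1, _, a2, a3⟩
        · have := h.rng _ a2; have := h.rng _ a3
          have := h.rng _ b2; have := h.rng _ b3
          have := hall _ a3; have := hall _ b3
          have := hall _ a2; have := hall _ b2
          omega
        · have := hall _ a3; have := hall _ a2
          omega
      · obtain ⟨c1, _, a2, a3⟩ := h.O3 (by omega)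
        have := hall _ a3; have := hall _ a2
        omega

end Sys

end Pool.Agent.J6H66.Queens
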