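import Mathlib
import Pool.Agent.J6H66.Queens.KZero

set_option autoImplicit false

namespace Pool.Agent.J6H66.Queens

namespace Sys

variable {w j : ℤ} {A : Finset ℤ}

/-- `d = 2`, `2, 4 ∈ A`. -/
theorem two_ktwo (h : Sys w j A) (hE : Em w A 2)
    (hmin : ∀ x, Em w A x → 0 < x → 2 ≤ x) (h2 : (2 : ℤ) ∈ A) (h4 : (4 : ℤ) ∈ A) :
    ∀ x, Em w A x → 2 ∣ x := by
  have D := h.dec (by norm_num) hE hmin
  have h4' : 2 * (2 : ℤ) ∈ A := mc h4 (by norm_num)
  have hcl := fun y hy => h.mod_classes (by norm_num) hE hmin h2 h4' _ y rfl hy
  by_cases hw : (2 : ℤ) ∣ w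
  · intro x hx
    rcases hx with h1 | h1
    · rcases hcl _ h1 with h3 | h3 <;> omega
    · rcases hcl _ h1 with h3 | h3 <;> omega
  · exfalso
    have huw := h.unique_w (by norm_num) hE hmin h2 h4' hw
    have huB := h.unique_B (by norm_num) hE hmin h2 h4' hw
    have hcard := h.card
    have hj := h.hj
    obtain ⟨c, hc1, hc2, hc3⟩ := h.O1 (by omega)
    have hr2 := h.rng _ hc2
    have hr3 := h.rng _ hc3
    by_cases hpar : (2 : ℤ) ∣ c + 1
    · rcases D.X_cases hc3 with ⟨k, hk, hall⟩ | ⟨h5, h6⟩
      · have hk1 : 1 ≤ k := by
          by_contra hcon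
          have : k = 0 := by omega
          subst this
          push_cast at hk
          omega
        have := hall (k - 1) (by omega)
        apply h.dis _ this
        refine mc hc2 ?_
        push_cast [Nat.cast_sub hk1]
        linarith
      · have := huB (c - 1) hc2 (by omega) (c + 1 + 2) h6 (by omega)
        omega
    · rcases D.Y_cases (y := c - 1) hc2 with ⟨k, hk, hall⟩ | ⟨h5, h6⟩
      · rcases Nat.eq_zero_or_pos k with hk0 | hk0
        · subst hk0
          push_cast at hk
          omega
        · have := hall (k - 1) (by omega)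
          apply h.dis _ hc3
          refine mc this ?_
          push_cast [Nat.cast_sub (show 1 ≤ k from hk0)]
          linarith
      · have := huw (c - 1 - 2) h6 (by omega) (c + 1) hc3 (by omega)
        omega

/-- `d = 1`, `1, 2 ∈ A` is impossible. -/
theorem one_ktwo (h : Sys w j A) (h1 : (1 : ℤ) ∈ A) (h2 : (2 : ℤ) ∈ A) : False := by
  have D := h.dec (d := 1) (by norm_num) (Or.inl h1) (fun x _ hx => by omega)
  have hcard := h.card
  have hj := h.hj
  have hw1 : w - 1 ∉ A := h.dis _ h1
  have hw2 : w - 2 ∉ A := h.dis _ h2
  have hr1 := h.rng _ h1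
  have hr2 := h.rng _ h2
  rcases eq_or_lt_of_le hj with hj0 | hj0
  · -- j = 0
    have hJ0 := h.J0 hj0.symm
    have hJ1 := h.J1 hj0.symm
    have hex : ∃ x, 0 ≤ x ∧ ¬ Em w A x := by
      refine ⟨w + 1, by omega, fun hc => ?_⟩
      have := h.Erng hc; omega
    obtain ⟨x0, hx0, hx0'⟩ := hex
    obtain ⟨r, ⟨hr0, hrE⟩, hrmin⟩ := exists_least (fun x => 0 ≤ x ∧ ¬ Em w A x) x0 ⟨hx0, hx0'⟩
      (fun x hx => hx.1)
    have hlow : ∀ x, 0 ≤ x → x < r → Em w A x := by
      intro x hx hxr
      by_contra hcon
      have := hrmin x ⟨hx, hcon⟩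
      omega
    have hr3 : 3 ≤ r := by
      by_contra hcon
      apply hrE
      have : r = 0 ∨ r = 1 ∨ r = 2 := by omega
      rcases this with e | e | e
      · rw [e]; exact h.E0
      · rw [e]; exact Or.inl h1
      · rw [e]; exact Or.inl h2
    have hJ := hJ0 r (by omega) hlow
    have hlowA : ∀ x, 0 ≤ x → x < r → x ∈ A := by
      intro x hx hxr
      rcases hlow x hx hxr with h3 | h3
      · exact h3
      · have := hJ _ h3; omega
    have hA : ∀ x ∈ A, x < r := by
      by_contra hcon
      push Not at hcon
      obtain ⟨y0, hy0, hy0'⟩ := hcon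
      obtain ⟨y, ⟨hyA, hyr⟩, hymin⟩ := exists_least (fun x => x ∈ A ∧ r ≤ x) y0 ⟨hy0, hy0'⟩
        (fun x hx => (h.rng x hx.1).1)
      have hyr' : y ≠ r := by
        intro e; apply hrE; rw [← e]; exact Or.inl hyA
      have hyle := hJ _ hyA
      rcases D.X_cases hyA with ⟨k, hk, hall⟩ | ⟨h5, h6⟩
      · apply hrE
        have e : ((r.toNat : ℕ) : ℤ) = r := by omega
        have := hall r.toNat (by push_cast at hk; omega)
        rw [e] at this
        exact Or.inl (mc this (by ring))
      · have h6' := h.rng _ h6
        rcases h.C1 2 y (Or.inl h2) (Or.inl hyA) with h7 | h7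
        · rw [abs_of_nonneg (by omega)] at h7
          have h8 : y - 2 < r := by
            by_contra hcon
            have := hymin (y - 2) ⟨h7, by omega⟩
            omega
          have := hJ _ h6
          omega
        · have h8 : w - (y + 1) ≠ 0 := by
            intro e
            exact hw1 (mc hyA (by omega))
          rw [abs_of_nonneg (by omega)] at h7
          obtain ⟨k, hk, hall⟩ := D.chainY' (y := y + 1) h6 (mc h7 (by ring))
          have hkr : (k : ℤ) < r := by
            by_contra hcon
            apply hrE
            have e : ((r.toNat : ℕ) : ℤ) = r := by omega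
            have := hall r.toNat (by omega)
            rw [e] at this
            exact Or.inl (mc this (by ring))
          push_cast at hk
          omega
    have hAeq : A = Finset.Ico 0 r := by
      ext x
      rw [Finset.mem_Ico]
      exact ⟨fun hx => ⟨(h.rng x hx).1, hA x hx⟩, fun hx => hlowA x hx.1 hx.2⟩
    have hc : (A.card : ℤ) = r := by
      rw [hAeq, Int.card_Ico]; omega
    rw [hc] at hcard
    have hrw : ¬ Em w A (w - r) := by
      intro hc
      have := h.Esym hc
      rw [show w - (w - r) = r by ring] at this
      exact hrE this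
    obtain ⟨s, s', hne, q1, q2, q3, q4⟩ := hJ1 r (w - r) (by omega) (by omega) (by omega) (by omega)
      (by omega) hrE hrw
    have b1 := hA _ q1
    have b2 := hA _ q2
    have b3 := hA _ q3
    have b4 := hA _ q4
    rw [abs_lt] at b1 b2 b3 b4
    omega
  · -- j ≥ 1
    obtain ⟨c, hc⟩ := h.O1 (by omega)
    have key : ∀ c, InO w A 1 c → ∀ i, 0 ≤ i → i ≤ w - c - 2 → i ∈ A := by
      intro c hc i hi0 hi1
      obtain ⟨hc1, hc2, hc3⟩ := hc
      have r2 := h.rng _ hc2
      have r3 := h.rng _ hc3
      have hB2 : w - (c + 1 + 1) ∈ A := by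
        rcases D.X_cases hc3 with ⟨k, hk, hall⟩ | ⟨h5, h6⟩
        · exfalso
          have hk1 : 1 ≤ k := by
            by_contra hcon
            have : k = 0 := by omega
            subst this
            push_cast at hk
            omega
          apply hc1
          have := hall (k - 1) (by omega)
          left
          refine mc this ?_
          push_cast [Nat.cast_sub hk1]
          linarith
        · exact h6
      have rB2 := h.rng _ hB2
      have hne : w - (c + 1 + 1) ≠ 0 := by
        intro e
        exact hw1 (mc hc3 (by omega))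
      have hB3 : w - (c + 1 + 1 + 1) ∈ A := by
        rcases h.C1 2 (c + 1) (Or.inl h2) (Or.inl hc3) with h7 | h7
        · exfalso
          rw [abs_of_nonneg (by omega)] at h7
          exact h.dis _ h7 (mc hc2 (by ring))
        · rw [abs_of_nonneg (by omega)] at h7
          exact mc h7 (by ring)
      obtain ⟨k, hk, hall⟩ := D.chainY' (y := c + 1 + 1) hB2 hB3
      have e : ((i.toNat : ℕ) : ℤ) = i := by omega
      have := hall i.toNat (by push_cast at hk; omega)
      rw [e] at this
      exact mc this (by ring)
    have k1 := key c hc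
    have k2 := key (w - c) (h.inO_sym hc)
    obtain ⟨hc1, hc2, hc3⟩ := hc
    have r2 := h.rng _ hc2
    have r3 := h.rng _ hc3
    have hnotE : ¬ Em w A (w - c) := by
      intro hx
      apply hc1
      have := h.Esym hx
      rwa [show w - (w - c) = c by ring] at this
    -- all lines except c are empty
    have hall : ∀ x, 0 ≤ x → x ≤ w → x ≠ c → Em w A x := by
      intro x hx0 hxw hxc
      rcases lt_trichotomy x (c - 1) with h5 | h5 | h5
      · left; exact k2 x hx0 (by omega)
      · rw [h5]; exact Or.inr hc2
      · rcases eq_or_ne x (c + 1) with h6 | h6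
        · rw [h6]; exact Or.inl hc3
        · right; exact k1 (w - x) (by omega) (by omega)
    have hwc : w = 2 * c := by
      by_contra hcon
      exact hnotE (hall (w - c) (by omega) (by omega) (by omega))
    have hc4 : 4 ≤ c := by
      by_contra hcon
      have : c = 2 ∨ c = 3 := by omega
      rcases this with e | e
      · apply h.dis _ h1
        exact mc hc2 (by omega)
      · apply h.dis _ h2
        exact mc hc2 (by omega)
    have hcA : (c : ℤ) ≤ A.card := by
      have hsub : Finset.Icc (0 : ℤ) (c - 2) ∪ {c + 1} ⊆ A := by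
        intro x hx
        rw [Finset.mem_union, Finset.mem_Icc, Finset.mem_singleton] at hx
        rcases hx with h5 | h5
        · exact k2 x h5.1 (by omega)
        · rw [h5]; exact hc3
      have h6 := Finset.card_le_card hsub
      rw [Finset.card_union_of_disjoint (by
        rw [Finset.disjoint_singleton_right, Finset.mem_Icc]; omega), Int.card_Icc,
        Finset.card_singleton] at h6
      omega
    obtain ⟨c2, q1, q2, q3⟩ := h.O3 (by omega)
    have s2 := h.rng _ q2
    have s3 := h.rng _ q3
    have hc2c : c2 = c := by
      by_contra hne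
      exact q1 (hall c2 (by omega) (by omega) hne)
    rw [hc2c] at q2
    exact h.dis _ (k2 (c - 2) (by omega) (by omega)) (mc q2 (by ring))

end Sys

end Pool.Agent.J6H66.Queens
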