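import Mathlib
import Pool.Agent.J6H66.Queens.KTwo

set_option autoImplicit false

namespace Pool.Agent.J6H66.Queens

namespace Sys

variable {w j : ℤ} {A : Finset ℤ}

/-- For `d ∈ A`, `2d ∉ A`: an element of `A` other than `0, d` is followed by an element of `B`. -/
theorem kone_next (h : Sys w j A) {d : ℤ} (hd : 0 < d) (hE : Em w A d)
    (hmin : ∀ x, Em w A x → 0 < x → d ≤ x) (h2 : 2 * d ∉ A) {y : ℤ} (hy : y ∈ A)
    (hy0 : y ≠ 0) (hyd : y ≠ d) : w - (y + d) ∈ A := by
  have D := h.dec hd hE hmin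
  rcases D.X_cases hy with ⟨k, hk, hall⟩ | ⟨_, h6⟩
  · exfalso
    have hk2 : 2 ≤ k := by
      by_contra hcon
      have : k = 0 ∨ k = 1 := by omega
      rcases this with e | e
      · subst e; apply hy0; push_cast at hk; omega
      · subst e; apply hyd; push_cast at hk; omega
    exact h2 (mc (hall 2 hk2) (by push_cast; ring))
  · exact h6

/-- Case `d ∈ A`, `2d ∈ B`. -/
theorem kone_i_class (h : Sys w j A) {d : ℤ} (hd : 0 < d) (hE : Em w A d)
    (hmin : ∀ x, Em w A x → 0 < x → d ≤ x) (h1 : d ∈ A) (h2 : 2 * d ∉ A) (h3 : w - 2 * d ∈ A) :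
    ∀ (n : ℕ) (y : ℤ), y.toNat = n → y ∈ A →
      y = 0 ∨ y = d ∨ y = w - 2 * d ∨ (2 * d ∣ (y - d) ∧ 3 * d ∈ A) := by
  intro n
  induction n using Nat.strong_induction_on with
  | _ n ih =>
    intro y hn hy
    have D := h.dec hd hE hmin
    by_cases hy0 : y = 0
    · left; exact hy0
    by_cases hyd : y = d
    · right; left; exact hyd
    by_cases hyw : y = w - 2 * d
    · right; right; left; exact hyw
    right; right; right
    have h4 := h.kone_next hd hE hmin h2 hy hy0 hyd
    have hyr := h.rng _ hy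
    have h4r := h.rng _ h4
    have hyd' := hmin y (Or.inl hy) (by omega)
    have hdr := h.rng _ h1
    have hwd : w - d ∉ A := h.dis _ h1
    have h4p : 0 < w - (y + d) := by
      by_contra hcon
      apply hwd
      exact mc hy (by omega)
    have h4d := hmin _ (Or.inl h4) h4p
    have key : y - 2 * d ∈ A ∧ 2 * d < y := by
      rcases h.C1 (2 * d) y (Or.inr h3) (Or.inl hy) with h5 | h5
      · rcases le_or_gt (2 * d) y with h6 | h6
        · rw [abs_of_nonneg (by omega)] at h5
          refine ⟨h5, ?_⟩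
          rcases lt_or_eq_of_le h6 with h7 | h7
          · exact h7
          · exact absurd (mc hy h7.symm) h2
        · rw [abs_of_neg (by omega)] at h5
          have := hmin _ (Or.inl h5) (by omega)
          omega
      · exfalso
        rw [abs_of_nonneg (by omega)] at h5
        obtain ⟨k, hk, hall⟩ := D.chainY' (y := y + d) h4 (mc h5 (by ring))
        have hk2 : k < 2 := by
          by_contra hcon
          exact h2 (mc (hall 2 (by omega)) (by push_cast; ring))
        have : k = 0 ∨ k = 1 := by omega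
        rcases this with e | e
        · subst e; push_cast at hk; omega
        · subst e; push_cast at hk; omega
    obtain ⟨h5, h6⟩ := key
    rcases ih (y - 2 * d).toNat (by omega) (y - 2 * d) rfl h5 with h7 | h7 | h7 | ⟨h7, h8⟩
    · omega
    · refine ⟨⟨1, by linarith⟩, mc hy (by omega)⟩
    · omega
    · refine ⟨?_, h8⟩
      have : y - d = (y - 2 * d - d) + 2 * d := by ring
      rw [this]; exact dvd_add h7 dvd_rfl

theorem two_kone_i (h : Sys w j A) (hE : Em w A 2)
    (hmin : ∀ x, Em w A x → 0 < x → 2 ≤ x) (h1 : (2 : ℤ) ∈ A) (h2 : (4 : ℤ) ∉ A)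
    (h3 : w - 4 ∈ A) : ∀ x, Em w A x → 2 ∣ x := by
  have h2' : 2 * (2 : ℤ) ∉ A := nc h2 (by norm_num)
  have h3' : w - 2 * 2 ∈ A := mc h3 (by norm_num)
  have hcl := fun y hy => h.kone_i_class (by norm_num) hE hmin h1 h2' h3' _ y rfl hy
  by_cases hw : (2 : ℤ) ∣ w
  · intro x hx
    rcases hx with h4 | h4
    · have := hcl _ h4; omega
    · have := hcl _ h4; omega
  · exfalso
    have hcard := h.card
    have hj := h.hj
    have h6 : (6 : ℤ) ∉ A := by
      intro h6
      have h7 := h.kone_next (by norm_num) hE hmin h2' h6 (by norm_num) (by norm_num)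
      have h8 := hcl _ h7
      omega
    have h6' : 3 * (2 : ℤ) ∉ A := nc h6 (by norm_num)
    obtain ⟨c, hc1, hc2, hc3⟩ := h.O1 (by omega)
    have r2 := h.rng _ hc2
    have r3 := h.rng _ hc3
    have e2 := hcl _ hc2
    have e3 := hcl _ hc3
    have f2 : w - (c - 1) = 0 ∨ w - (c - 1) = 2 ∨ w - (c - 1) = w - 2 * 2 := by
      rcases e2 with e | e | e | ⟨_, e⟩
      · exact Or.inl e
      · exact Or.inr (Or.inl e)
      · exact Or.inr (Or.inr e)
      · exact absurd e h6'
    have f3 : c + 1 = 0 ∨ c + 1 = 2 ∨ c + 1 = w - 2 * 2 := by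
      rcases e3 with e | e | e | ⟨_, e⟩
      · exact Or.inl e
      · exact Or.inr (Or.inl e)
      · exact Or.inr (Or.inr e)
      · exact absurd e h6'
    clear e2 e3 hcl
    omega

theorem one_kone_i (h : Sys w j A) (h1 : (1 : ℤ) ∈ A) (h2 : (2 : ℤ) ∉ A)
    (h3 : w - 2 ∈ A) : False := by
  have hE : Em w A 1 := Or.inl h1
  have hmin : ∀ x, Em w A x → 0 < x → (1 : ℤ) ≤ x := fun x _ hx => by omega
  have h2' : 2 * (1 : ℤ) ∉ A := nc h2 (by norm_num)
  have h3' : w - 2 * 1 ∈ A := mc h3 (by norm_num)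
  have hcl := fun y hy => h.kone_i_class (by norm_num) hE hmin h1 h2' h3' _ y rfl hy
  have hE2 : Em w A 2 := Or.inr h3
  have hcard := h.card
  have hj := h.hj
  have hw1 : w - 1 ∉ A := h.dis _ h1
  have hr3 := h.rng _ h3
  have hr1 := h.rng _ h1
  rcases eq_or_lt_of_le hj with hj0 | hj0
  · have := h.J0 hj0.symm 3 (by norm_num) (fun x hx0 hx2 => by
      have : x = 0 ∨ x = 1 ∨ x = 2 := by omega
      rcases this with e | e | e
      · rw [e]; exact h.E0
      · rw [e]; exact hE
      · rw [e]; exact hE2) _ h3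
    omega
  · have h3w : (3 : ℤ) ∈ A → w = 4 ∨ w = 5 ∨ ¬ (2 : ℤ) ∣ w := by
      intro h6
      have h7 := h.kone_next (by norm_num) hE hmin h2' h6 (by norm_num) (by norm_num)
      have h8 := hcl _ h7
      omega
    obtain ⟨c, hc1, hc2, hc3⟩ := h.O1 (by omega)
    have r2 := h.rng _ hc2
    have r3 := h.rng _ hc3
    have e2 := hcl _ hc2
    have e3 := hcl _ hc3
    have n0 : c ≠ 0 := by intro e; apply hc1; rw [e]; exact h.E0
    have n1 : c ≠ w := by intro e; apply hc1; rw [e]; exact h.Ew
    have n2 : c ≠ 2 := by intro e; apply hc1; rw [e]; exact hE2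
    have hw6 : w = 6 ∧ c = 3 := by
      by_cases h3A : (3 : ℤ) ∈ A
      · have h3w' := h3w h3A
        have f2 : w - (c - 1) = 0 ∨ w - (c - 1) = 1 ∨ w - (c - 1) = w - 2 * 1 ∨ (2 * 1 ∣ (w - (c - 1)) - 1) := by
          rcases e2 with e | e | e | ⟨e, _⟩
          · exact Or.inl e
          · exact Or.inr (Or.inl e)
          · exact Or.inr (Or.inr (Or.inl e))
          · exact Or.inr (Or.inr (Or.inr e))
        have f3 : c + 1 = 0 ∨ c + 1 = 1 ∨ c + 1 = w - 2 * 1 ∨ (2 * 1 ∣ (c + 1 - 1)) := by
          rcases e3 with e | e | e | ⟨e, _⟩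
          · exact Or.inl e
          · exact Or.inr (Or.inl e)
          · exact Or.inr (Or.inr (Or.inl e))
          · exact Or.inr (Or.inr (Or.inr e))
        clear e2 e3 hcl
        omega
      · have h3A' : 3 * (1 : ℤ) ∉ A := nc h3A (by norm_num)
        have f2 : w - (c - 1) = 0 ∨ w - (c - 1) = 1 ∨ w - (c - 1) = w - 2 * 1 := by
          rcases e2 with e | e | e | ⟨_, e⟩
          · exact Or.inl e
          · exact Or.inr (Or.inl e)
          · exact Or.inr (Or.inr e)
          · exact absurd e h3A'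
        have f3 : c + 1 = 0 ∨ c + 1 = 1 ∨ c + 1 = w - 2 * 1 := by
          rcases e3 with e | e | e | ⟨_, e⟩
          · exact Or.inl e
          · exact Or.inr (Or.inl e)
          · exact Or.inr (Or.inr e)
          · exact absurd e h3A'
        clear e2 e3 hcl
        omega
    obtain ⟨hw6, hc3'⟩ := hw6
    have h4A : (4 : ℤ) ∈ A := mc h3 (by omega)
    have hcA : (3 : ℤ) ≤ A.card := by
      have hsub : ({0, 1, 4} : Finset ℤ) ⊆ A := by
        intro x hx
        simp only [Finset.mem_insert, Finset.mem_singleton] at hx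
        rcases hx with e | e | e
        · rw [e]; exact h.zero
        · rw [e]; exact h1
        · rw [e]; exact h4A
      have := Finset.card_le_card hsub
      have e : ({0, 1, 4} : Finset ℤ).card = 3 := by decide
      omega
    obtain ⟨c2, q1, q2, q3⟩ := h.O3 (by omega)
    have s2 := h.rng _ q2
    have s3 := h.rng _ q3
    have m0 : c2 ≠ 0 := by intro e; apply q1; rw [e]; exact h.E0
    have m1 : c2 ≠ 1 := by intro e; apply q1; rw [e]; exact hE
    have m2 : c2 ≠ 2 := by intro e; apply q1; rw [e]; exact hE2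
    have m4 : c2 ≠ 4 := by intro e; apply q1; rw [e]; exact Or.inl h4A
    have m5 : c2 ≠ 5 := by intro e; apply q1; rw [e]; exact Or.inr (mc h1 (by omega))
    have m3 : c2 = 3 := by omega
    rw [m3] at q3
    apply h.dis _ h1
    exact mc q3 (by omega)

end Sys

end Pool.Agent.J6H66.Queens
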