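import Mathlib
import Pool.Agent.J6H66.Queens.KOneI

set_option autoImplicit false

namespace Pool.Agent.J6H66.Queens

/-- elements of `A` other than `0` and `d` -/
def A1 (A : Finset ℤ) (d y : ℤ) : Prop := y ∈ A ∧ y ≠ 0 ∧ y ≠ d

/-- hypotheses of the case `d ∈ A`, `2d` not empty -/
structure KII (w j d : ℤ) (A : Finset ℤ) : Prop where
  S : Sys w j A
  hd : 0 < d
  hd2 : d ≤ 2
  hmin : ∀ x, Em w A x → 0 < x → d ≤ x
  h1 : d ∈ A
  h2 : 2 * d ∉ A
  h3 : w - 2 * d ∉ A

namespace KII

variable {w j d : ℤ} {A : Finset ℤ}

theorem mirror (K : KII w j d A) {y : ℤ} (hy : A1 A d y) : A1 A d (w - (y + d)) := by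
  obtain ⟨hy, hy0, hyd⟩ := hy
  have h4 := K.S.kone_next K.hd (Or.inl K.h1) K.hmin K.h2 hy hy0 hyd
  refine ⟨h4, ?_, ?_⟩
  · intro e
    apply K.S.dis _ K.h1
    exact mc hy (by omega)
  · intro e
    apply K.h3
    exact mc hy (by omega)

theorem gt (K : KII w j d A) {y : ℤ} (hy : A1 A d y) : d < y ∧ y ≠ 2 * d ∧ y + 2 * d < w := by
  have h5 := K.mirror hy
  obtain ⟨hy, hy0, hyd⟩ := hy
  obtain ⟨hz, hz0, hzd⟩ := h5
  have r1 := K.S.rng _ hy
  have r2 := K.S.rng _ hz
  have m1 := K.hmin _ (Or.inl hy) (by omega)
  have m2 := K.hmin _ (Or.inl hz) (by omega)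
  refine ⟨by omega, ?_, by omega⟩
  intro e
  exact K.h2 (mc hy e)

/-- `y + d` is not in `A` -/
theorem add_d (K : KII w j d A) {y z : ℤ} (hy : A1 A d y) (hz : z ∈ A) : z ≠ y + d := by
  intro e
  have h5 := (K.mirror hy).1
  exact K.S.dis _ hz (mc h5 (by omega))

theorem star (K : KII w j d A) {z y : ℤ} (hz : A1 A d z) (hy : A1 A d y) (hzy : z < y)
    (hs : z + y + d < w) :
    A1 A d (y - z) ∨ ((y - z - d = d ∨ A1 A d (y - z - d)) ∧ A1 A d (y - z + d)) := by
  have gz := K.gt hz
  have gy := K.gt hy
  have hd := K.hd
  have D := K.S.dec K.hd (Or.inl K.h1) K.hmin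
  have hzd := (K.mirror hz).1
  have hyd := (K.mirror hy).1
  have hne := K.add_d hz hy.1
  by_cases h0 : y - z ∈ A
  · left
    exact ⟨h0, by omega, by omega⟩
  · right
    have hB : w - (z + y) ∈ A := by
      rcases K.S.c1 (Or.inl hz.1) (Or.inl hy.1) hzy.le (by omega) with h5 | h5
      · exact absurd h5 h0
      · exact h5
    have hB' : w - (z + y + d) ∉ A := by
      intro hc
      obtain ⟨k, hk, hall⟩ := D.chainY' (y := z + y) hB hc
      have hk2 : k < 2 := by
        by_contra hcon
        exact K.h2 (mc (hall 2 (by omega)) (by push_cast; ring))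
      have : k = 0 ∨ k = 1 := by omega
      rcases this with e | e
      · subst e; push_cast at hk; omega
      · subst e; push_cast at hk; omega
    have hp : y - z + d ∈ A := by
      rcases K.S.C1 z (y + d) (Or.inl hz.1) (Or.inr hyd) with h5 | h5
      · rw [abs_of_nonneg (by omega)] at h5
        exact mc h5 (by ring)
      · rw [abs_of_nonneg (by omega)] at h5
        exact absurd (mc h5 (by ring)) hB'
    have hm : |y - (z + d)| ∈ A := by
      rcases K.S.C1 (z + d) y (Or.inr hzd) (Or.inl hy.1) with h5 | h5
      · exact h5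
      · rw [abs_of_nonneg (by omega)] at h5
        exact absurd (mc h5 (by ring)) hB'
    rcases le_or_gt (z + d) y with h6 | h6
    · rw [abs_of_nonneg (by omega)] at hm
      refine ⟨?_, hp, by omega, by omega⟩
      by_cases h7 : y - z - d = d
      · left; exact h7
      · right
        exact ⟨mc hm (by ring), by omega, h7⟩
    · rw [abs_of_neg (by omega)] at hm
      have := K.hmin _ (Or.inl hm) (by omega)
      omega

theorem inO (K : KII w j d A) {i c : ℤ} (hi : 1 ≤ i) (hc : InO w A i c) :
    A1 A d (c + i) ∧ A1 A d (w - (c - i)) := by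
  obtain ⟨_, hc2, hc3⟩ := hc
  have r2 := K.S.rng _ hc2
  have r3 := K.S.rng _ hc3
  have hd := K.hd
  have hd2 := K.hd2
  exact ⟨⟨hc3, by omega, by omega⟩, ⟨hc2, by omega, by omega⟩⟩

/-- no element besides `0, d` -/
theorem empty_case (K : KII w j d A) (hno : ∀ y, ¬ A1 A d y) : False := by
  have hd := K.hd
  have hd2 := K.hd2
  have hA : A = {0, d} := by
    ext y
    simp only [Finset.mem_insert, Finset.mem_singleton]
    constructor
    · intro hy
      by_contra hcon
      exact hno y ⟨hy, fun e => hcon (Or.inl e), fun e => hcon (Or.inr e)⟩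
    · rintro (e | e)
      · rw [e]; exact K.S.zero
      · rw [e]; exact K.h1
  have hc : (A.card : ℤ) = 2 := by
    rw [hA, Finset.card_pair (by omega)]; norm_num
  have hcard := K.S.card
  have hj := K.S.hj
  rw [hc] at hcard
  rcases eq_or_lt_of_le hj with hj0 | hj0
  · have hw6 : w = 6 := by omega
    have hd1 : d = 1 := by
      by_contra hcon
      have : d = 2 := by omega
      apply K.h3
      rw [this, hw6]
      rw [this] at hA
      rw [hA]; decide
    subst hd1
    subst hw6
    have hmem : ∀ x ∈ A, x ≤ 1 := by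
      intro x hx
      rw [hA] at hx
      simp only [Finset.mem_insert, Finset.mem_singleton] at hx
      omega
    have n2 : ¬ Em 6 A 2 := by
      intro hc
      rcases hc with h5 | h5
      · have := hmem _ h5; omega
      · have := hmem _ h5; omega
    have n4 : ¬ Em 6 A 4 := by
      intro hc
      rcases hc with h5 | h5
      · have := hmem _ h5; omega
      · have := hmem _ h5; omega
    obtain ⟨s, s', hne, q1, q2, q3, q4⟩ := K.S.J1 hj0.symm 2 4 (by norm_num) (by norm_num)
      (by norm_num) (by norm_num) (by norm_num) n2 n4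
    have b1 := hmem _ q1
    have b2 := hmem _ q2
    have b3 := hmem _ q3
    have b4 := hmem _ q4
    rw [abs_le] at b1 b2 b3 b4
    omega
  · obtain ⟨c, hc⟩ := K.S.O1 (by omega)
    exact hno _ (K.inO (by norm_num) hc).1

/-- a single extra element -/
theorem single_case (K : KII w j d A) {g : ℤ} (hg : A1 A d g) (hno : ∀ y, A1 A d y → y = g) :
    False := by
  have hd := K.hd
  have hd2 := K.hd2
  have gg := K.gt hg
  have hA : A = {0, d, g} := by
    ext y
    simp only [Finset.mem_insert, Finset.mem_singleton]
    constructor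
    · intro hy
      by_contra hcon
      push Not at hcon
      exact hcon.2.2 (hno y ⟨hy, hcon.1, hcon.2.1⟩)
    · rintro (e | e | e)
      · rw [e]; exact K.S.zero
      · rw [e]; exact K.h1
      · rw [e]; exact hg.1
  have hc : (A.card : ℤ) = 3 := by
    rw [hA, Finset.card_insert_of_notMem (by
      simp only [Finset.mem_insert, Finset.mem_singleton]; omega), Finset.card_pair (by omega)]
    norm_num
  have hcard := K.S.card
  have hj := K.S.hj
  rw [hc] at hcard
  have hm := hno _ (K.mirror hg)
  rcases eq_or_lt_of_le hj with hj0 | hj0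
  · omega
  · obtain ⟨c, hc⟩ := K.S.O1 (by omega)
    obtain ⟨q1, q2⟩ := K.inO (by norm_num) hc
    have := hno _ q1
    have := hno _ q2
    omega

/-- two extra elements -/
theorem pair_case (K : KII w j d A) {g k : ℤ} (hg : A1 A d g) (hk : A1 A d k) (hgk : g < k)
    (hno : ∀ y, A1 A d y → y = g ∨ y = k) : False := by
  have hd := K.hd
  have hd2 := K.hd2
  have gg := K.gt hg
  have gk := K.gt hk
  have hA : A = {0, d, g, k} := by
    ext y
    simp only [Finset.mem_insert, Finset.mem_singleton]
    constructor
    · intro hy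
      by_contra hcon
      push Not at hcon
      rcases hno y ⟨hy, hcon.1, hcon.2.1⟩ with e | e
      · exact hcon.2.2.1 e
      · exact hcon.2.2.2 e
    · rintro (e | e | e | e)
      · rw [e]; exact K.S.zero
      · rw [e]; exact K.h1
      · rw [e]; exact hg.1
      · rw [e]; exact hk.1
  have hc : (A.card : ℤ) = 4 := by
    rw [hA, Finset.card_insert_of_notMem (by
      simp only [Finset.mem_insert, Finset.mem_singleton]; omega), Finset.card_insert_of_notMem (by
      simp only [Finset.mem_insert, Finset.mem_singleton]; omega), Finset.card_pair (by omega)]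
    norm_num
  have hcard := K.S.card
  have hj := K.S.hj
  rw [hc] at hcard
  have hm := hno _ (K.mirror hg)
  have hm' := hno _ (K.mirror hk)
  have hw : w = g + k + d := by omega
  have hkg : k ≠ g + d := K.add_d hg hk.1
  rcases eq_or_lt_of_le hj with hj0 | hj0
  · have hw14 : w = 14 := by omega
    have hP := K.S.P hj0.symm
    have hd12 : d = 1 ∨ d = 2 := by omega
    subst hw14
    rcases hd12 with e | e
    · subst e
      have hk' : k = 13 - g := by omega
      subst hk'
      have : g = 3 ∨ g = 4 ∨ g = 5 := by omega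
      rcases this with e | e | e
      · subst e
        rw [hA] at hP
        revert hP
        decide
      · subst e
        rw [hA] at hP
        revert hP
        decide
      · subst e
        rw [hA] at hP
        revert hP
        decide
    · subst e
      have hk' : k = 12 - g := by omega
      subst hk'
      have : g = 3 := by omega
      subst this
      rw [hA] at hP
      revert hP
      decide
  · have hO1 : ∀ c, InO w A 1 c → c + 1 = k ∧ k = g + d + 2 := by
      intro c hc
      obtain ⟨q1, q2⟩ := K.inO (by norm_num) hc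
      have := hno _ q1
      have := hno _ q2
      omega
    have hO2 : ∀ c, InO w A 2 c → k = g + d + 4 := by
      intro c hc
      obtain ⟨q1, q2⟩ := K.inO (by norm_num) hc
      have := hno _ q1
      have := hno _ q2
      omega
    obtain ⟨c, hc⟩ := K.S.O1 (by omega)
    have := hO1 c hc
    rcases K.S.O2 (by omega) with ⟨c1, c2, hne, q1, q2⟩ | ⟨c1, q1⟩
    · have := hO1 _ q1
      have := hO1 _ q2
      omega
    · have := hO2 _ q1
      omega

end KII

end Pool.Agent.J6H66.Queens
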