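import Mathlib
import Pool.Agent.J6H66.Queens.KOneII

set_option autoImplicit false

namespace Pool.Agent.J6H66.Queens

namespace KII

variable {w j d : ℤ} {A : Finset ℤ}

/-- three or more extra elements, first case: the extra elements are multiples of the least -/
theorem mult_case (K : KII w j d A) {g : ℤ} (hg : A1 A d g) (hgmin : ∀ y, A1 A d y → g ≤ y)
    (h2g : A1 A d (2 * g)) (hhmin : ∀ y, A1 A d y → g < y → 2 * g ≤ y)
    (hmax : 2 * g < w - (g + d)) : False := by
  have hd := K.hd
  have hd2 := K.hd2
  have gg := K.gt hg
  have hmaxle : ∀ y, A1 A d y → y ≤ w - (g + d) := by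
    intro y hy
    have := hgmin _ (K.mirror hy)
    omega
  -- all extra elements are multiples of g
  have hall : ∀ y, A1 A d y → g ∣ y := by
    by_contra hcon
    push Not at hcon
    obtain ⟨y0, hy0, hy0'⟩ := hcon
    obtain ⟨y, ⟨hy, hyn⟩, hymin⟩ := Sys.exists_least (fun x => A1 A d x ∧ ¬ g ∣ x) y0 ⟨hy0, hy0'⟩
      (fun x hx => by have := K.gt hx.1; omega)
    have hle := hmaxle y hy
    have hyg : g < y := by
      have := hgmin y hy
      rcases lt_or_eq_of_le this with h | h
      · exact h
      · exfalso; apply hyn; rw [h]
    have hy2g := hhmin y hy hyg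
    have hne2g : y ≠ 2 * g := by
      intro e; apply hyn; rw [e]; exact Dvd.intro_left _ rfl
    have sm : ∀ z, A1 A d z → z < y → g ∣ z := by
      intro z hz hzy
      by_contra hcon
      have := hymin z ⟨hz, hcon⟩
      omega
    rcases eq_or_lt_of_le hle with he | he
    · have h5 := sm _ (K.mirror h2g) (by omega)
      apply hyn
      have : y = (w - (2 * g + d)) + g := by omega
      rw [this]; exact dvd_add h5 dvd_rfl
    · rcases K.star hg hy hyg (by omega) with h5 | ⟨h5, h6⟩
      · have := sm _ h5 (by omega)
        apply hyn
        have e : y = (y - g) + g := by ring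
        rw [e]; exact dvd_add this dvd_rfl
      · have h7 := sm _ h6 (by omega)
        rcases h5 with h5 | h5
        · -- y = g + 2d
          have hd' : d = 2 := by omega
          have hg' : g = 3 := by omega
          have hy' : y = 7 := by omega
          subst hd' hg' hy'
          have m3 := K.mirror hg
          have m6 := K.mirror h2g
          have m7 := K.mirror hy
          rcases K.S.C1 5 6 (Or.inr (mc m3.1 (by ring))) (Or.inl (mc h2g.1 (by ring))) with q | q
          · have := K.hmin _ (Or.inl q) (by norm_num)
            norm_num at this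
          · rw [abs_of_nonneg (by omega)] at q
            by_cases hw13 : w = 13
            · apply K.S.dis _ m6.1
              exact mc m3.1 (by omega)
            · have q1 : A1 A 2 (w - 5 - 6) := ⟨q, by omega, by omega⟩
              have q2 := K.mirror q1
              apply K.S.dis _ q2.1
              exact mc m7.1 (by ring)
        · have h8 := sm _ h5 (by omega)
          have h9 : g ∣ 2 * d := by
            have e : 2 * d = (y - g + d) - (y - g - d) := by ring
            rw [e]; exact dvd_sub h7 h8
          have h10 := Int.le_of_dvd (by omega) h9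
          have h11 : d = 1 ∨ d = 2 := by omega
          obtain ⟨c, hc⟩ := h9
          have hc1 : c = 1 := by
            have hcpos : 0 < c := by
              by_contra hneg
              have : g * c ≤ 0 := mul_nonpos_of_nonneg_of_nonpos (by omega) (by omega)
              omega
            by_contra hne
            have : g * 2 ≤ g * c := mul_le_mul_of_nonneg_left (by omega) (by omega)
            omega
          rw [hc1] at hc
          exact gg.2.1 (by omega)
  -- all multiples occur
  have hmul : ∀ l : ℕ, 1 ≤ l → (l : ℤ) * g ≤ w - (g + d) → A1 A d ((l : ℤ) * g) := by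
    intro l
    induction l using Nat.strong_induction_on with
    | _ l ih =>
      intro hl1 hl
      match l, ih, hl1, hl with
      | 1, _, _, _ => simpa using hg
      | 2, _, _, _ => simpa using h2g
      | (m + 3), ih, _, hl =>
        have a2 : A1 A d (((m + 2 : ℕ) : ℤ) * g) := ih (m + 2) (by omega) (by omega) (by
          push_cast at hl ⊢; nlinarith)
        have a1 : A1 A d (((m + 1 : ℕ) : ℤ) * g) := ih (m + 1) (by omega) (by omega) (by
          push_cast at hl ⊢; nlinarith)
        push_cast at hl a1 a2 ⊢
        have mg := K.mirror hg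
        rcases K.S.C1 (g + d) (((m : ℤ) + 2) * g) (Or.inr mg.1) (Or.inl a2.1) with q | q
        · exfalso
          have hpos : 0 < ((m : ℤ) + 2) * g - (g + d) := by nlinarith
          rw [abs_of_nonneg hpos.le] at q
          by_cases hq : ((m : ℤ) + 2) * g - (g + d) = d
          · have hm0 : m = 0 := by
              by_contra hm
              have : (1 : ℤ) ≤ m := by omega
              nlinarith
            subst hm0
            push_cast at hq
            exact gg.2.1 (by linarith)
          · have q1 := K.mirror (y := ((m : ℤ) + 2) * g - (g + d)) ⟨q, by omega, hq⟩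
            apply K.S.dis _ a1.1
            exact mc q1.1 (by ring)
        · have hpos : 0 ≤ w - (g + d) - ((m : ℤ) + 2) * g := by nlinarith
          rw [abs_of_nonneg hpos] at q
          -- w - ((m+3) g + d) ∈ A
          have hq0 : 0 < w - (g + d) - ((m : ℤ) + 2) * g := by
            have : ((m : ℤ) + 3) * g = (m + 2) * g + g := by ring
            nlinarith
          have hqd : w - (g + d) - ((m : ℤ) + 2) * g ≠ d := by
            intro e
            have : ((m : ℤ) + 3) * g = (m + 2) * g + g := by ring
            nlinarith
          have q1 := K.mirror (y := w - (g + d) - ((m : ℤ) + 2) * g) ⟨q, by omega, hqd⟩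
          have e : w - (w - (g + d) - ((m : ℤ) + 2) * g + d) = ((m : ℤ) + 3) * g := by ring
          rw [e] at q1
          exact q1
  obtain ⟨L, hL⟩ := hall _ (K.mirror hg)
  have hL3 : 3 ≤ L := by
    by_contra hcon
    have : g * L ≤ g * 2 := mul_le_mul_of_nonneg_left (by omega) (by omega)
    omega
  have hA : A = {0, d} ∪ (Finset.Icc (1 : ℤ) L).image (fun l => l * g) := by
    ext y
    simp only [Finset.mem_union, Finset.mem_insert, Finset.mem_singleton, Finset.mem_image,
      Finset.mem_Icc]
    constructor
    · intro hy
      by_cases h0 : y = 0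
      · left; left; exact h0
      by_cases h1 : y = d
      · left; right; exact h1
      right
      have hy1 : A1 A d y := ⟨hy, h0, h1⟩
      obtain ⟨c, hc⟩ := hall y hy1
      have l1 := K.gt hy1
      have l2 := hmaxle y hy1
      refine ⟨c, ⟨?_, ?_⟩, by linarith⟩
      · by_contra hneg
        have : g * c ≤ 0 := mul_nonpos_of_nonneg_of_nonpos (by omega) (by omega)
        omega
      · by_contra hneg
        have : g * L < g * c := mul_lt_mul_of_pos_left (by omega) (by omega)
        omega
    · rintro ((e | e) | ⟨l, ⟨hl0, hlL⟩, rfl⟩)
      · rw [e]; exact K.S.zero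
      · rw [e]; exact K.h1
      · have e : ((l.toNat : ℕ) : ℤ) = l := by omega
        have := hmul l.toNat (by omega) (by
          rw [e]
          have : l * g ≤ L * g := mul_le_mul_of_nonneg_right hlL (by omega)
          linarith)
        rw [e] at this
        exact this.1
  have hcardA : (A.card : ℤ) = L + 2 := by
    rw [hA, Finset.card_union_of_disjoint, Finset.card_pair (by omega),
      Finset.card_image_of_injective _ (fun a b hab => mul_right_cancel₀ (show g ≠ 0 by omega) hab),
      Int.card_Icc]
    · push_cast
      omega
    · rw [Finset.disjoint_left]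
      intro x hx hx2
      simp only [Finset.mem_insert, Finset.mem_singleton] at hx
      simp only [Finset.mem_image, Finset.mem_Icc] at hx2
      obtain ⟨l, ⟨hl1, hl2⟩, hl3⟩ := hx2
      have : 1 * g ≤ l * g := mul_le_mul_of_nonneg_right hl1 (by omega)
      omega
  have hcard := K.S.card
  have hj := K.S.hj
  rw [hcardA] at hcard
  have hd12 : d = 1 ∨ d = 2 := by omega
  have hg4 : g ≤ 4 := by
    by_contra hcon
    have : 5 * L ≤ g * L := mul_le_mul_of_nonneg_right (by omega) (by omega)
    omega
  have hg3 : g = 3 ∨ g = 4 := by omega
  rcases hg3 with e | e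
  · subst e
    rcases hd12 with e | e
    · subst e
      obtain ⟨c, hc⟩ := K.S.O3 (by omega)
      obtain ⟨q1, q2⟩ := K.inO (by norm_num) hc
      have := hall _ q1
      have := hall _ q2
      omega
    · subst e
      obtain ⟨c, hc⟩ := K.S.O1 (by omega)
      obtain ⟨q1, q2⟩ := K.inO (by norm_num) hc
      have := hall _ q1
      have := hall _ q2
      omega
  · subst e
    rcases hd12 with e | e
    · subst e
      obtain ⟨c, hc⟩ := K.S.O1 (by omega)
      obtain ⟨q1, q2⟩ := K.inO (by norm_num) hc
      have := hall _ q1
      have := hall _ q2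
      omega
    · subst e
      exact gg.2.1 (by norm_num)

/-- three or more extra elements, second case: `g = 3d`, then `5d`. -/
theorem odd_case (K : KII w j d A) (hg : A1 A d (3 * d)) (hgmin : ∀ y, A1 A d y → 3 * d ≤ y)
    (h5 : A1 A d (5 * d)) (hmax : 5 * d < w - (3 * d + d)) :
    ∀ y, A1 A d y → 2 * d ∣ y - d := by
  have hd := K.hd
  have hd2 := K.hd2
  have D := K.S.dec K.hd (Or.inl K.h1) K.hmin
  have hmaxle : ∀ y, A1 A d y → y ≤ w - (3 * d + d) := by
    intro y hy
    have := hgmin _ (K.mirror hy)
    omega
  by_contra hcon
  push Not at hcon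
  obtain ⟨y0, hy0, hy0'⟩ := hcon
  obtain ⟨y, ⟨hy, hyn⟩, hymin⟩ := Sys.exists_least (fun x => A1 A d x ∧ ¬ 2 * d ∣ x - d) y0 ⟨hy0, hy0'⟩
    (fun x hx => by have := K.gt hx.1; omega)
  have hle := hmaxle y hy
  have hlow := hgmin y hy
  have sm : ∀ z, A1 A d z → z < y → 2 * d ∣ z - d := by
    intro z hz hzy
    by_contra hcon
    have := hymin z ⟨hz, hcon⟩
    omega
  have hd12 : d = 1 ∨ d = 2 := by omega
  have hy3 : y ≠ 3 * d := by
    intro e; apply hyn; rw [e]; exact ⟨1, by ring⟩
  rcases eq_or_lt_of_le hle with he | he
  · have q := sm _ (K.mirror h5) (by omega)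
    apply hyn
    rcases hd12 with e | e
    · subst e; omega
    · subst e; omega
  · rcases K.star hg hy (by omega) (by omega) with q | ⟨_, q⟩
    · have q1 := sm _ q (by omega)
      have hq3 := hgmin _ q
      have hy6 : y ≠ 6 * d := by
        have := K.add_d h5 hy.1
        omega
      have hy8 : 8 * d ≤ y := by
        rcases hd12 with e | e
        · subst e; omega
        · subst e; omega
      -- y - 2d ∈ B, 4d ∈ B
      have b1 := (K.mirror q).1
      have b2 := (K.mirror hg).1
      have hB : w - (y + 2 * d) ∈ A := by
        rcases K.S.C1 (3 * d + d) (y - 3 * d + d) (Or.inr b2) (Or.inr b1) with r | r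
        · exfalso
          rw [abs_of_nonneg (by omega)] at r
          have r1 : A1 A d (y - 3 * d + d - (3 * d + d)) := by
            refine ⟨r, by omega, ?_⟩
            intro e1
            rcases hd12 with e | e
            · subst e; omega
            · subst e; omega
          have r2 := sm _ r1 (by omega)
          rcases hd12 with e | e
          · subst e; omega
          · subst e; omega
        · rw [abs_of_nonneg (by omega)] at r
          exact mc r (by ring)
      obtain ⟨k, hk, hall⟩ := D.chainY' (y := y + d) (K.mirror hy).1 (mc hB (by ring))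
      have hk2 : k < 2 := by
        by_contra hcon
        exact K.h2 (mc (hall 2 (by omega)) (by push_cast; ring))
      have : k = 0 ∨ k = 1 := by omega
      rcases this with e | e
      · subst e; push_cast at hk; omega
      · subst e; push_cast at hk; omega
    · -- y - 3d + d
      have q1 := sm _ q (by omega)
      apply hyn
      rcases hd12 with e | e
      · subst e; omega
      · subst e; omega

/-- Conclusion of case `2d` not empty. -/
theorem final (K : KII w j d A) : d = 2 ∧ ∀ x, Em w A x → 2 ∣ x := by
  have hd := K.hd
  have hd2 := K.hd2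
  by_cases hno : ∀ y, ¬ A1 A d y
  · exact (K.empty_case hno).elim
  push Not at hno
  obtain ⟨y0, hy0⟩ := hno
  obtain ⟨g, hg, hgmin⟩ := Sys.exists_least (fun x => A1 A d x) y0 hy0
    (fun x hx => by have := K.gt hx; omega)
  have gg := K.gt hg
  by_cases hno1 : ∀ y, A1 A d y → y = g
  · exact (K.single_case hg hno1).elim
  push Not at hno1
  obtain ⟨y1, hy1, hy1g⟩ := hno1
  obtain ⟨k, ⟨hk, hgk⟩, hkmin⟩ := Sys.exists_least (fun x => A1 A d x ∧ g < x) y1
    ⟨hy1, by have := hgmin _ hy1; omega⟩ (fun x hx => by have := K.gt hx.1; omega)
  by_cases hno2 : ∀ y, A1 A d y → y = g ∨ y = k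
  · exact (K.pair_case hg hk hgk hno2).elim
  push Not at hno2
  obtain ⟨y2, hy2, hy2g, hy2k⟩ := hno2
  have h2low := hgmin _ hy2
  have h2k := hkmin y2 ⟨hy2, by omega⟩
  have h2m := hgmin _ (K.mirror hy2)
  have hkmax : k < w - (g + d) := by omega
  rcases K.star hg hk hgk (by omega) with q | ⟨q, q'⟩
  · have q1 := hgmin _ q
    have : k - g = g := by
      by_contra hne
      have := hkmin _ ⟨q, by omega⟩
      omega
    have hk2 : k = 2 * g := by omega
    subst hk2
    exact (K.mult_case hg hgmin hk (fun y hy hgy => hkmin y ⟨hy, hgy⟩) hkmax).elim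
  · have q1 := hgmin _ q'
    have hkg : k - g + d = g := by
      by_contra hne
      have := hkmin _ ⟨q', by omega⟩
      omega
    rcases q with q | q
    · have hg3 : g = 3 * d := by omega
      have hk5 : k = 5 * d := by omega
      subst hg3 hk5
      have hodd := K.odd_case hg hgmin hk hkmax
      have hwm := hodd _ (K.mirror hg)
      have hd12 : d = 1 ∨ d = 2 := by omega
      rcases hd12 with e | e
      · exfalso
        subst e
        have hcard := K.S.card
        have hj := K.S.hj
        obtain ⟨c, hc⟩ := K.S.O1 (by omega)
        obtain ⟨q1, q2⟩ := K.inO (by norm_num) hc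
        have := hodd _ q1
        have := hodd _ q2
        omega
      · subst e
        refine ⟨rfl, ?_⟩
        have hev : ∀ x ∈ A, (2 : ℤ) ∣ x := by
          intro x hx
          by_cases h0 : x = 0
          · omega
          by_cases h1 : x = 2
          · omega
          have := hodd x ⟨hx, h0, h1⟩
          omega
        intro x hx
        rcases hx with h | h
        · exact hev x h
        · have := hev _ h
          omega
    · have q2 := hgmin _ q
      omega

end KII

end Pool.Agent.J6H66.Queens
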