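import Mathlib
import Pool.Agent.J6H66.Queens.KOneIII

set_option autoImplicit false

namespace Pool.Agent.J6H66.Queens

/-- All empty lines of the box have even offset. -/
theorem Sys.even {w j : ℤ} {A : Finset ℤ} (h : Sys w j A) : ∀ x, Em w A x → 2 ∣ x := by
  obtain ⟨d, hd, hE, hmin⟩ := h.exists_d
  rcases lt_or_ge d 3 with hd3 | hd3
  · have hd12 : d = 1 ∨ d = 2 := by omega
    rcases hd12 with e | e
    · subst e
      exfalso
      by_cases h1 : (1 : ℤ) ∈ A
      · by_cases h2 : (2 : ℤ) ∈ A
        · exact h.one_ktwo h1 h2
        · by_cases h3 : w - 2 ∈ A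
          · exact h.one_kone_i h1 h2 h3
          · have K : KII w j 1 A := ⟨h, by norm_num, by norm_num, hmin, h1, nc h2 (by norm_num),
              nc h3 (by ring)⟩
            have := K.final.1
            omega
      · exact h.one_kzero hE hmin (hE.resolve_left h1)
    · subst e
      by_cases h1 : (2 : ℤ) ∈ A
      · by_cases h2 : (4 : ℤ) ∈ A
        · exact h.two_ktwo hE hmin h1 h2
        · by_cases h3 : w - 4 ∈ A
          · exact h.two_kone_i hE hmin h1 h2 h3
          · have K : KII w j 2 A := ⟨h, by norm_num, by norm_num, hmin, h1, nc h2 (by norm_num),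
              nc h3 (by ring)⟩
            exact K.final.2
      · exact h.two_kzero hE hmin (hE.resolve_left h1)
  · exact (h.not_d_ge_three hd3 hE hmin).elim

end Pool.Agent.J6H66.Queens
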