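import Mathlib

set_option autoImplicit false

namespace Pool.Agent.J6H66.Queens

open Finset

/-- the set of occupied diagonals in centred halved coordinates -/
noncomputable def Dset (e o : ℤ) : Finset ℤ :=
  (Ioo (-e) e).image (fun i => 2 * i) ∪ (Ico (-o) o).image (fun i => 2 * i + 1)

theorem sum_Dset (e o : ℤ) (f : ℤ → ℤ) :
    ∑ x ∈ Dset e o, f x = ∑ i ∈ Ioo (-e) e, f (2 * i) + ∑ i ∈ Ico (-o) o, f (2 * i + 1) := by
  unfold Dset
  rw [sum_union, sum_image, sum_image]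
  · intro a _ b _ hab; simp only at hab; omega
  · intro a _ b _ hab; simp only at hab; omega
  · rw [disjoint_left]
    intro x hx hx2
    simp only [mem_image] at hx hx2
    obtain ⟨a, _, ha⟩ := hx
    obtain ⟨b, _, hb⟩ := hx2
    omega

theorem sum_Ioo_succ (n : ℕ) (f : ℤ → ℤ) :
    ∑ i ∈ Ioo (-((n : ℤ) + 2)) ((n : ℤ) + 2), f i =
      ∑ i ∈ Ioo (-((n : ℤ) + 1)) ((n : ℤ) + 1), f i + (f ((n : ℤ) + 1) + f (-((n : ℤ) + 1))) := by
  have : Ioo (-((n : ℤ) + 2)) ((n : ℤ) + 2) =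
      Ioo (-((n : ℤ) + 1)) ((n : ℤ) + 1) ∪ {(n : ℤ) + 1, -((n : ℤ) + 1)} := by
    ext x
    simp only [mem_Ioo, mem_union, mem_insert, mem_singleton]
    omega
  rw [this, sum_union, sum_pair (by omega)]
  rw [disjoint_left]
  intro x hx
  simp only [mem_Ioo] at hx
  simp only [mem_insert, mem_singleton]
  omega

theorem sum_Ico_succ (n : ℕ) (f : ℤ → ℤ) :
    ∑ i ∈ Ico (-((n : ℤ) + 1)) ((n : ℤ) + 1), f i =
      ∑ i ∈ Ico (-(n : ℤ)) (n : ℤ), f i + (f (n : ℤ) + f (-((n : ℤ) + 1))) := by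
  have : Ico (-((n : ℤ) + 1)) ((n : ℤ) + 1) =
      Ico (-(n : ℤ)) (n : ℤ) ∪ {(n : ℤ), -((n : ℤ) + 1)} := by
    ext x
    simp only [mem_Ico, mem_union, mem_insert, mem_singleton]
    omega
  rw [this, sum_union, sum_pair (by omega)]
  rw [disjoint_left]
  intro x hx
  simp only [mem_Ico] at hx
  simp only [mem_insert, mem_singleton]
  omega

theorem Ioo_one : Ioo (-((0 : ℕ) + 1 : ℤ)) ((0 : ℕ) + 1 : ℤ) = {0} := by decide

theorem F1 (n : ℕ) : ∑ i ∈ Ioo (-((n : ℤ) + 1)) ((n : ℤ) + 1), |i| = n * (n + 1) := by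
  induction n with
  | zero => rw [Ioo_one]; simp
  | succ n ih =>
    push_cast
    rw [show (n : ℤ) + 1 + 1 = n + 2 by ring, sum_Ioo_succ, ih, abs_neg,
      abs_of_nonneg (show (0 : ℤ) ≤ (n : ℤ) + 1 by positivity)]
    ring

theorem F2 (n : ℕ) : 3 * ∑ i ∈ Ioo (-((n : ℤ) + 1)) ((n : ℤ) + 1), i ^ 2 = n * (n + 1) * (2 * n + 1) := by
  induction n with
  | zero => rw [Ioo_one]; simp
  | succ n ih =>
    push_cast
    rw [show (n : ℤ) + 1 + 1 = n + 2 by ring, sum_Ioo_succ, mul_add, ih]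
    ring

theorem F4 (n : ℕ) : 3 * ∑ i ∈ Ico (-(n : ℤ)) (n : ℤ), (2 * i + 1) ^ 2 = 2 * (n : ℤ) * (4 * (n : ℤ) ^ 2 - 1) := by
  induction n with
  | zero => simp
  | succ n ih =>
    push_cast
    rw [sum_Ico_succ, mul_add, ih]
    ring

theorem F5 (t m : ℕ) : ∑ i ∈ Ioo (-(((t + m : ℕ) : ℤ) + 1)) (((t + m : ℕ) : ℤ) + 1),
    max (|2 * i| - 2 * (t : ℤ)) 0 = 2 * m * (m + 1) := by
  induction m with
  | zero =>
    rw [sum_eq_zero]
    · simp
    · intro x hx
      rw [mem_Ioo] at hx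
      rw [max_eq_right]
      have : |2 * x| ≤ 2 * (t : ℤ) := by
        rw [abs_le]; push_cast at hx; omega
      omega
  | succ m ih =>
    have e : ((t + (m + 1) : ℕ) : ℤ) + 1 = ((t + m : ℕ) : ℤ) + 2 := by push_cast; ring
    rw [e, sum_Ioo_succ, ih]
    have h1 : |2 * (((t + m : ℕ) : ℤ) + 1)| = 2 * (((t + m : ℕ) : ℤ) + 1) :=
      abs_of_nonneg (by positivity)
    have h2 : |2 * -(((t + m : ℕ) : ℤ) + 1)| = 2 * (((t + m : ℕ) : ℤ) + 1) := by
      rw [mul_neg, abs_neg, h1]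
    rw [h1, h2]
    have h3 : max (2 * (((t + m : ℕ) : ℤ) + 1) - 2 * (t : ℤ)) 0 = 2 * (m + 1) := by
      rw [max_eq_left]
      · push_cast; ring
      · push_cast; nlinarith
    rw [h3]
    push_cast
    ring

theorem F6 (t m : ℕ) : ∑ i ∈ Ico (-((t + m : ℕ) : ℤ)) ((t + m : ℕ) : ℤ),
    max (|2 * i + 1| - 2 * (t : ℤ)) 0 = 2 * m ^ 2 := by
  induction m with
  | zero =>
    rw [sum_eq_zero]
    · simp
    · intro x hx
      rw [mem_Ico] at hx
      rw [max_eq_right]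
      have : |2 * x + 1| ≤ 2 * (t : ℤ) := by
        rw [abs_le]; push_cast at hx; omega
      omega
  | succ m ih =>
    have e : ((t + (m + 1) : ℕ) : ℤ) = ((t + m : ℕ) : ℤ) + 1 := by push_cast; ring
    rw [e, sum_Ico_succ, ih]
    have h1 : |2 * ((t + m : ℕ) : ℤ) + 1| = 2 * ((t + m : ℕ) : ℤ) + 1 :=
      abs_of_nonneg (by positivity)
    have h2 : |2 * -(((t + m : ℕ) : ℤ) + 1) + 1| = 2 * ((t + m : ℕ) : ℤ) + 1 := by
      rw [show 2 * -(((t + m : ℕ) : ℤ) + 1) + 1 = -(2 * ((t + m : ℕ) : ℤ) + 1) by ring, abs_neg, h1]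
    rw [h1, h2]
    have h3 : max (2 * ((t + m : ℕ) : ℤ) + 1 - 2 * (t : ℤ)) 0 = 2 * m + 1 := by
      rw [max_eq_left]
      · push_cast; ring
      · push_cast; nlinarith
    rw [h3]
    push_cast
    ring

/-- Sum over an injectively parametrised set. -/
theorem sum_of_image {ι : Type*} {Q : Finset ι} {g : ι → ℤ} {S : Finset ℤ}
    (himg : Q.image g = S) (hinj : ∀ z ∈ Q, ∀ z' ∈ Q, g z = g z' → z = z') (f : ℤ → ℤ) :
    ∑ z ∈ Q, f (g z) = ∑ x ∈ S, f x := by
  rw [← himg, sum_image]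
  intro a ha b hb hab
  exact hinj a ha b hb hab

/-- The concluding argument. -/
theorem final_part {ι : Type*} (K e o : ℕ) (Q : Finset ι) (a b : ι → ℤ) (he : 1 ≤ e) (hK : K + 1 = e + o)
    (hc : Q.image (fun z => (a z)) = Ioo (-((K : ℤ) + 1)) ((K : ℤ) + 1))
    (hci : ∀ z ∈ Q, ∀ z' ∈ Q, (a z) = (a z') → z = z')
    (hr : Q.image (fun z => (b z)) = Ioo (-((K : ℤ) + 1)) ((K : ℤ) + 1))
    (hri : ∀ z ∈ Q, ∀ z' ∈ Q, (b z) = (b z') → z = z')
    (hd : Q.image (fun z => (b z) - (a z)) = Dset e o)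
    (hdi : ∀ z ∈ Q, ∀ z' ∈ Q, (b z) - (a z) = (b z') - (a z') → z = z')
    (hs : Q.image (fun z => (a z) + (b z)) = Dset e o)
    (hsi : ∀ z ∈ Q, ∀ z' ∈ Q, (a z) + (b z) = (a z') + (b z') → z = z') :
    e = 1 ∧ (o = 0 ∨ o = 2) := by
  have Sc := fun f => sum_of_image (g := fun z => (a z)) hc hci f
  have Sr := fun f => sum_of_image (g := fun z => (b z)) hr hri f
  have Sd := fun f => sum_of_image (g := fun z => (b z) - (a z)) hd hdi f
  have Ss := fun f => sum_of_image (g := fun z => (a z) + (b z)) hs hsi f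
  obtain ⟨e', rfl⟩ : ∃ e', e = e' + 1 := ⟨e - 1, by omega⟩
  have hKe : K = e' + o := by omega
  subst hKe
  -- parallelogram law
  have hP : ∑ z ∈ Q, (((b z) - (a z)) ^ 2 + ((a z) + (b z)) ^ 2) = ∑ z ∈ Q, 2 * ((a z) ^ 2 + (b z) ^ 2) := by
    apply sum_congr rfl
    intro z _
    ring
  rw [sum_add_distrib, ← mul_sum, sum_add_distrib] at hP
  have Sd2 := Sd (fun x => x ^ 2)
  have Ss2 := Ss (fun x => x ^ 2)
  have Sc2 := Sc (fun x => x ^ 2)
  have Sr2 := Sr (fun x => x ^ 2)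
  rw [Sd2, Ss2, Sc2, Sr2, sum_Dset] at hP
  have G1 := F2 (e' + o)
  have G2 := F2 e'
  have G3 := F4 o
  have G4 : ∑ i ∈ Ioo (-((e' + 1 : ℕ) : ℤ)) ((e' + 1 : ℕ) : ℤ), (2 * i) ^ 2
      = 4 * ∑ i ∈ Ioo (-((e' : ℤ) + 1)) ((e' : ℤ) + 1), i ^ 2 := by
    rw [mul_sum]
    push_cast
    apply sum_congr rfl
    intro i _; ring
  rw [G4] at hP
  have hQ : (2 * ((e' : ℤ) + 1 + o) - 1) * (((e' : ℤ) + 1) ^ 2 + (o : ℤ) ^ 2 - 4 * (e' + 1) * o - (e' + 1) + 2 * o) = 0 := by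
    push_cast at G1 G2 G3 hP ⊢
    nlinarith
  have hQ0 : ((e' : ℤ) + 1) ^ 2 + (o : ℤ) ^ 2 - 4 * (e' + 1) * o - (e' + 1) + 2 * o = 0 := by
    rcases mul_eq_zero.1 hQ with h | h
    · exfalso; omega
    · exact h
  -- o is even
  have hoeven : ∃ t' : ℕ, o = 2 * t' := by
    rcases Nat.even_or_odd' o with ⟨t', h | h⟩
    · exact ⟨t', h⟩
    · exfalso
      have h1 : (o : ℤ) = 2 * t' + 1 := by exact_mod_cast h
      have h2 : Even ((e' : ℤ) * (e' + 1)) := Int.even_mul_succ_self _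
      obtain ⟨r, hr⟩ := h2
      rw [h1] at hQ0
      have h3 : (e' : ℤ) * (e' + 1) + (2 * t' + 1) ^ 2 - 4 * (e' + 1) * (2 * t' + 1) + 2 * (2 * t' + 1) = 0 := by
        linarith [hQ0, show ((e' : ℤ) + 1) ^ 2 - (e' + 1) = e' * (e' + 1) by ring]
      rw [hr] at h3
      have h4 : (2 : ℤ) * (r + 2 * t' * t' + 2 * t' - 2 * (e' + 1) * (2 * t' + 1) + (2 * t' + 1)) + 1 = 0 := by
        linarith [h3, show (2 * (t' : ℤ) + 1) ^ 2 = 2 * (2 * t' * t' + 2 * t') + 1 by ring]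
      omega
  obtain ⟨t', ht'⟩ := hoeven
  -- threshold for the even class
  obtain ⟨t, m, hem, htm⟩ : ∃ t m : ℕ, e' = t + m ∧ (t = m + 1 ∨ t = m) := by
    rcases Nat.even_or_odd' e' with ⟨k, h | h⟩
    · exact ⟨k, k, by omega, Or.inr rfl⟩
    · exact ⟨k + 1, k, by omega, Or.inl rfl⟩
  -- slack
  let th : ℤ → ℤ := fun x => if 2 ∣ x then 2 * (t : ℤ) else (o : ℤ)
  let ex : ℤ → ℤ := fun x => max (|x| - th x) 0
  let sl : ι → ℤ := fun z =>
    th ((b z) - (a z)) + ex ((b z) - (a z)) + ex ((a z) + (b z)) - (|(a z)| + |(b z)|)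
  have hthpar : ∀ z : ι, th ((a z) + (b z)) = th ((b z) - (a z)) := by
    intro z
    simp only [th]
    by_cases h : (2 : ℤ) ∣ (b z) - (a z)
    · rw [if_pos h, if_pos (by omega)]
    · rw [if_neg h, if_neg (by omega)]
  have hmax : ∀ z : ι, |(a z)| + |(b z)| = max |(b z) - (a z)| |(a z) + (b z)| := by
    intro z
    rcases abs_cases (a z) with ⟨h1, h1'⟩ | ⟨h1, h1'⟩ <;>
    rcases abs_cases (b z) with ⟨h2, h2'⟩ | ⟨h2, h2'⟩ <;>
    rcases abs_cases ((b z) - (a z)) with ⟨h3, h3'⟩ | ⟨h3, h3'⟩ <;>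
    rcases abs_cases ((a z) + (b z)) with ⟨h4, h4'⟩ | ⟨h4, h4'⟩ <;>
    omega
  have hth0 : ∀ x, 0 ≤ th x := by
    intro x; simp only [th]; split_ifs <;> positivity
  have hsl0 : ∀ z ∈ Q, 0 ≤ sl z := by
    intro z _
    simp only [sl, ex, hthpar z, hmax z]
    have := hth0 ((b z) - (a z))
    omega
  have hsum : ∑ z ∈ Q, sl z = 0 := by
    have hT : ∑ x ∈ Dset ((e' + 1 : ℕ) : ℤ) o, ex x = 2 * m * (m + 1) + 2 * (t' : ℤ) ^ 2 := by
      rw [sum_Dset]
      congr 1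
      · have := F5 t m
        rw [← hem] at this
        rw [← this]
        push_cast
        apply sum_congr rfl
        intro i _
        simp only [ex, th]
        rw [if_pos (Dvd.intro _ rfl)]
      · have := F6 t' t'
        rw [show t' + t' = o by omega] at this
        rw [← this]
        apply sum_congr rfl
        intro i _
        simp only [ex, th]
        rw [if_neg (by omega), ht']
        push_cast
        rfl
    have hTh : ∑ x ∈ Dset ((e' + 1 : ℕ) : ℤ) o, th x = (2 * e' + 1) * (2 * t) + 2 * o * (o : ℤ) := by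
      rw [sum_Dset]
      congr 1
      · rw [sum_congr rfl (g := fun _ => 2 * (t : ℤ))]
        · rw [sum_const, Int.card_Ioo, nsmul_eq_mul]
          congr 1
          push_cast
          omega
        · intro i _
          simp only [th]
          rw [if_pos (Dvd.intro _ rfl)]
      · rw [sum_congr rfl (g := fun _ => (o : ℤ))]
        · rw [sum_const, Int.card_Ico, nsmul_eq_mul]
          congr 1
          omega
        · intro i _
          simp only [th]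
          rw [if_neg (by omega)]
    simp only [sl]
    rw [sum_sub_distrib, sum_add_distrib, sum_add_distrib, sum_add_distrib]
    rw [Sd th, Sd ex, Ss ex, Sc (fun x => |x|), Sr (fun x => |x|), hT, hTh, F1]
    push_cast
    rw [hem] at hQ0 ⊢
    rw [ht'] at hQ0 ⊢
    push_cast at hQ0 ⊢
    rcases htm with h | h
    · rw [h] at hQ0 ⊢
      push_cast at hQ0 ⊢
      linear_combination hQ0
    · rw [h] at hQ0 ⊢
      linear_combination hQ0
  have hslz : ∀ z ∈ Q, sl z = 0 := fun z hz => (sum_eq_zero_iff_of_nonneg hsl0).1 hsum z hz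
  -- queen in the central column
  obtain ⟨z1, hz1, hz1'⟩ : ∃ z ∈ Q, (a z) = 0 := by
    have : (0 : ℤ) ∈ Q.image (fun z => (a z)) := by rw [hc, mem_Ioo]; constructor <;> linarith [show (0 : ℤ) ≤ ((e' + o : ℕ) : ℤ) by positivity]
    rw [mem_image] at this
    exact this
  obtain ⟨z2, hz2, hz2'⟩ : ∃ z ∈ Q, (b z) = 0 := by
    have : (0 : ℤ) ∈ Q.image (fun z => (b z)) := by rw [hr, mem_Ioo]; constructor <;> linarith [show (0 : ℤ) ≤ ((e' + o : ℕ) : ℤ) by positivity]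
    rw [mem_image] at this
    exact this
  have s1 := hslz z1 hz1
  have s2 := hslz z2 hz2
  have q1 : |(b z1)| = 2 * t := by
    simp only [sl, ex, th, hz1', sub_zero, zero_add, abs_zero] at s1
    split_ifs at s1 with hp
    · omega
    · exfalso
      have : |(b z1)| = o := by omega
      apply hp
      rcases abs_cases (b z1) with ⟨h, _⟩ | ⟨h, _⟩ <;> omega
  have q2 : |(a z2)| = 2 * t := by
    simp only [sl, ex, th, hz2', zero_sub, add_zero, abs_zero, abs_neg] at s2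
    split_ifs at s2 with hp
    · omega
    · omega
    · omega
    · exfalso
      have : |(a z2)| = o := by omega
      rename_i hp1
      apply hp1
      rcases abs_cases (a z2) with ⟨h, _⟩ | ⟨h, _⟩ <;> omega
  have ht0 : t = 0 := by
    by_contra hne
    have hne12 : z1 ≠ z2 := by
      intro h
      rw [h, hz2', abs_zero] at q1
      omega
    have d1 : (b z1) - (a z1) ≠ (b z2) - (a z2) := fun h => hne12 (hdi _ hz1 _ hz2 h)
    have d2 : (a z1) + (b z1) ≠ (a z2) + (b z2) := fun h => hne12 (hsi _ hz1 _ hz2 h)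
    rcases abs_cases (b z1) with ⟨h, _⟩ | ⟨h, _⟩ <;> rcases abs_cases (a z2) with ⟨h', _⟩ | ⟨h', _⟩ <;> omega
  have he0 : e' = 0 := by omega
  subst he0
  refine ⟨rfl, ?_⟩
  push_cast at hQ0
  have : (o : ℤ) * (o - 2) = 0 := by linarith [hQ0]
  rcases mul_eq_zero.1 this with h | h
  · left; omega
  · right; omega

end Pool.Agent.J6H66.Queens
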