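import Mathlib
import Pool.Agent.J6H66.Queens.Dec

set_option autoImplicit false

namespace Pool.Agent.J6H66.Queens

namespace Dec

variable {w d : ℤ} {E X Y : ℤ → Prop}

theorem Mlem (h : Dec w d E X Y) {XF YF : Finset ℤ} (hX : ∀ x, X x ↔ x ∈ XF)
    (hY : ∀ y, Y y ↔ y ∈ YF) (hc : XF.card = YF.card) (n : ℕ)
    (h1 : ∀ i : ℕ, i ≤ n → X (i * d)) (h2 : ¬ Y (((n + 1 : ℕ) : ℤ) * d)) :
    (∀ i : ℕ, i ≤ n → Y (w - i * d)) ∧ ¬ X (w - ((n + 1 : ℕ) : ℤ) * d) := by
  classical
  by_contra hcon
  have hd := h.hd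
  let f : ℤ → ℤ := fun y => if ∃ i : ℕ, i < n ∧ y = w - i * d then w - y else y - d
  have hmaps : ∀ y ∈ YF, f y ∈ XF.erase (n * d) := by
    intro y hy
    rw [← hY] at hy
    simp only [f]
    rw [Finset.mem_erase, ← hX]
    split_ifs with hi
    · obtain ⟨i, hi, rfl⟩ := hi
      rw [show w - (w - (i : ℤ) * d) = i * d by ring]
      refine ⟨?_, h1 i (by omega)⟩
      intro he
      have : (i : ℤ) = n := by
        have := mul_right_cancel₀ (by omega : d ≠ 0) he
        exact this
      omega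
    · refine ⟨?_, ?_⟩
      · intro he
        apply h2
        have : ((n + 1 : ℕ) : ℤ) * d = y := by push_cast; linarith
        rw [this]; exact hy
      · rcases h.Y_cases hy with ⟨k, hk, hall⟩ | ⟨_, h3⟩
        · have hkn : n ≤ k := by
            by_contra hlt
            exact hi ⟨k, by omega, hk⟩
          have h4 : X (w - ((n + 1 : ℕ) : ℤ) * d) := by
            by_contra h5
            exact hcon ⟨fun i hi => hall i (by omega), h5⟩
          have hkn' : k = n := by
            by_contra hne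
            exact h.dis _ h4 (hall (n + 1) (by omega))
          subst hkn'
          rw [hk]
          convert h4 using 1
          push_cast
          ring
        · exact h3
  have hinj : ∀ y ∈ YF, ∀ y' ∈ YF, f y = f y' → y = y' := by
    intro y hy y' hy' he
    rw [← hY] at hy hy'
    simp only [f] at he
    split_ifs at he with h3 h4 h4
    · linarith
    · exfalso
      obtain ⟨i, hi, rfl⟩ := h3
      have e : y' = ((i + 1 : ℕ) : ℤ) * d := by push_cast; linarith
      rw [e] at hy'
      exact h.dis _ (h1 (i + 1) (by omega)) hy'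
    · exfalso
      obtain ⟨i, hi, rfl⟩ := h4
      have e : y = ((i + 1 : ℕ) : ℤ) * d := by push_cast; linarith
      rw [e] at hy
      exact h.dis _ (h1 (i + 1) (by omega)) hy
    · linarith
  have h3 := Finset.card_le_card_of_injOn f hmaps (fun y hy y' hy' he => hinj y hy y' hy' he)
  have h4 : (n : ℤ) * d ∈ XF := by rw [← hX]; exact h1 n le_rfl
  rw [Finset.card_erase_of_mem h4] at h3
  have h5 : 0 < XF.card := Finset.card_pos.2 ⟨_, h4⟩
  omega

theorem Mlem' (h : Dec w d E X Y) {XF YF : Finset ℤ} (hX : ∀ x, X x ↔ x ∈ XF)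
    (hY : ∀ y, Y y ↔ y ∈ YF) (hc : XF.card = YF.card) (n : ℕ)
    (h1 : ∀ i : ℕ, i ≤ n → Y (w - i * d)) (h2 : ¬ X (w - ((n + 1 : ℕ) : ℤ) * d)) :
    (∀ i : ℕ, i ≤ n → X (i * d)) ∧ ¬ Y (((n + 1 : ℕ) : ℤ) * d) := by
  classical
  have hinj : Function.Injective (fun x : ℤ => w - x) := fun a b hab => by
    simp only at hab; linarith
  have := h.mirror.Mlem (XF := YF.image (fun x => w - x)) (YF := XF.image (fun x => w - x))
    (by
      intro x
      rw [hY, Finset.mem_image]
      constructor
      · intro hx; exact ⟨_, hx, by ring⟩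
      · rintro ⟨a, ha, rfl⟩
        rwa [show w - (w - a) = a by ring])
    (by
      intro x
      rw [hX, Finset.mem_image]
      constructor
      · intro hx; exact ⟨_, hx, by ring⟩
      · rintro ⟨a, ha, rfl⟩
        rwa [show w - (w - a) = a by ring])
    (by rw [Finset.card_image_of_injective _ hinj, Finset.card_image_of_injective _ hinj, hc])
    n h1 h2
  obtain ⟨h3, h4⟩ := this
  refine ⟨fun i hi => ?_, fun h5 => h4 ?_⟩
  · have := h3 i hi
    rwa [show w - (w - (i : ℤ) * d) = i * d by ring] at this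
  · rwa [show w - (w - ((n + 1 : ℕ) : ℤ) * d) = ((n + 1 : ℕ) : ℤ) * d by ring]

/-- first consequence of the counting lemma -/
theorem key (h : Dec w d E X Y) {XF YF : Finset ℤ} (hX : ∀ x, X x ↔ x ∈ XF)
    (hY : ∀ y, Y y ↔ y ∈ YF) (hc : XF.card = YF.card) : Y d ↔ X (w - d) := by
  constructor
  · intro h1
    by_contra h2
    have := (h.Mlem' hX hY hc 0 (by
      intro i hi
      obtain rfl : i = 0 := by omega
      simpa using h.top) (by simpa using h2)).2
    apply this
    simpa using h1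
  · intro h1
    by_contra h2
    have := (h.Mlem hX hY hc 0 (by
      intro i hi
      obtain rfl : i = 0 := by omega
      simpa using h.zero) (by simpa using h2)).2
    apply this
    simpa using h1

theorem share_chain {E1 X1 E2 X2 : ℤ → Prop} (h1 : Dec w d E1 X1 Y) (h2 : Dec w d E2 X2 Y)
    {XF2 YF : Finset ℤ} (hX2 : ∀ x, X2 x ↔ x ∈ XF2)
    (hY : ∀ y, Y y ↔ y ∈ YF) (hc2 : XF2.card = YF.card)
    (hx : ∀ z, X1 z → ¬ X2 z → X2 (w - z)) :
    ∀ k : ℕ, (∀ i : ℕ, i ≤ k → X1 (i * d)) → X2 (k * d) := by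
  intro k
  induction k using Nat.strong_induction_on with
  | _ k ih =>
    intro hall
    rcases Nat.eq_zero_or_pos k with hk | hk
    · subst hk
      simpa using h2.zero
    · by_contra hcon
      have h3 := hx _ (hall k le_rfl) hcon
      obtain ⟨k', rfl⟩ : ∃ k', k = k' + 1 := ⟨k - 1, by omega⟩
      exact (h2.Mlem hX2 hY hc2 k' (fun i hi => ih i (by omega) (fun i' hi' => hall i' (by omega)))
        (h1.dis _ (hall (k' + 1) le_rfl))).2 h3

theorem share_sub {E1 X1 E2 X2 : ℤ → Prop} (h1 : Dec w d E1 X1 Y) (h2 : Dec w d E2 X2 Y)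
    {XF1 XF2 YF : Finset ℤ} (hX1 : ∀ x, X1 x ↔ x ∈ XF1) (hX2 : ∀ x, X2 x ↔ x ∈ XF2)
    (hY : ∀ y, Y y ↔ y ∈ YF) (hc1 : XF1.card = YF.card) (hc2 : XF2.card = YF.card)
    (hx : ∀ z, X1 z → ¬ X2 z → X2 (w - z) ∧ ¬ X1 (w - z))
    (hx' : ∀ z, X2 z → ¬ X1 z → X1 (w - z) ∧ ¬ X2 (w - z)) :
    ∀ z, X1 z → X2 z := by
  intro z hz
  by_contra hcon
  obtain ⟨h3, h4⟩ := hx z hz hcon
  rcases h1.X_cases hz with ⟨k, hk, hall⟩ | ⟨_, h5⟩
  · apply hcon
    rw [hk]
    exact share_chain h1 h2 hX2 hY hc2 (fun z a b => (hx z a b).1) k hall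
  · rcases h2.Y_cases h5 with ⟨j, hj, hall⟩ | ⟨_, h6⟩
    · have e : w - z = ((j + 1 : ℕ) : ℤ) * d := by push_cast; linarith
      have e' : w - ((j + 1 : ℕ) : ℤ) * d = z := by linarith
      have h7 := (h2.Mlem' hX2 hY hc2 j hall (by rw [e']; exact hcon)).1
      apply h4
      rw [e]
      apply share_chain h2 h1 hX1 hY hc1 (fun z a b => (hx' z a b).1) (j + 1)
      intro i hi
      rcases Nat.lt_or_ge i (j + 1) with h8 | h8
      · exact h7 i (by omega)
      · obtain rfl : i = j + 1 := by omega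
        rw [← e]; exact h3
    · apply hcon
      rwa [show z + d - d = z by ring] at h6

theorem selfdual_aux (h : Dec w d E X Y) {XF YF : Finset ℤ} (hX : ∀ x, X x ↔ x ∈ XF)
    (hY : ∀ y, Y y ↔ y ∈ YF) (hc : XF.card = YF.card) (hE : ∀ x, E x → E (w - x)) :
    ∀ (n : ℕ) (t : ℤ), t.toNat = n → 0 ≤ t → ¬ (X t ∧ X (w - t)) ∧ ¬ (Y t ∧ Y (w - t)) := by
  have hd := h.hd
  have a1 : ∀ k : ℕ, 1 ≤ k → (∀ i : ℕ, i ≤ k → X (i * d)) → ¬ X (w - k * d) := by
    intro k hk hall
    obtain ⟨k', rfl⟩ : ∃ k', k = k' + 1 := ⟨k - 1, by omega⟩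
    exact (h.Mlem hX hY hc k' (fun i hi => hall i (by omega)) (h.dis _ (hall (k' + 1) le_rfl))).2
  have a2 : ∀ k : ℕ, 1 ≤ k → (∀ i : ℕ, i ≤ k → Y (w - i * d)) → ¬ Y (k * d) := by
    intro k hk hall
    obtain ⟨k', rfl⟩ : ∃ k', k = k' + 1 := ⟨k - 1, by omega⟩
    exact (h.Mlem' hX hY hc k' (fun i hi => hall i (by omega))
      (fun h1 => h.dis _ h1 (hall (k' + 1) le_rfl))).2
  intro n
  induction n using Nat.strong_induction_on with
  | _ n ih =>
    intro t hn ht
    constructor
    · rintro ⟨h1, h2⟩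
      rcases h.X_cases h1 with ⟨k, hk, hall⟩ | ⟨h3, _⟩
      · rcases Nat.eq_zero_or_pos k with hk0 | hk0
        · subst hk0
          have e : w - t = w := by rw [hk]; push_cast; ring
          rw [e] at h2
          exact h.dis _ h2 h.top
        · apply a1 k hk0 hall
          rw [← hk]; exact h2
      · rcases h.X_cases h2 with ⟨k, hk, hall⟩ | ⟨_, h4⟩
        · rcases Nat.eq_zero_or_pos k with hk0 | hk0
          · subst hk0
            have e : t = w := by push_cast at hk; linarith
            rw [e] at h1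
            exact h.dis _ h1 h.top
          · apply a1 k hk0 hall
            rw [← hk]
            rwa [show w - (w - t) = t by ring]
        · have h5 := hE _ (h.EY h4)
          rw [show w - (w - t + d) = t - d by ring] at h5
          have h6 := h.rng _ h5
          rcases (h.spl _).1 h5 with h7 | h7
          · exact h3 h7
          · refine (ih (t - d).toNat (by omega) (t - d) rfl h6.1).2 ⟨h7, ?_⟩
            rwa [show w - (t - d) = w - t + d by ring]
    · rintro ⟨h1, h2⟩
      rcases h.Y_cases h1 with ⟨k, hk, hall⟩ | ⟨_, h3⟩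
      · rcases Nat.eq_zero_or_pos k with hk0 | hk0
        · subst hk0
          have e : w - t = 0 := by rw [hk]; push_cast; ring
          rw [e] at h2
          exact h.dis _ h.zero h2
        · apply a2 k hk0 hall
          have e : (k : ℤ) * d = w - t := by linarith
          rw [e]; exact h2
      · rcases h.Y_cases h2 with ⟨k, hk, hall⟩ | ⟨h4, _⟩
        · rcases Nat.eq_zero_or_pos k with hk0 | hk0
          · subst hk0
            have e : t = 0 := by push_cast at hk; linarith
            rw [e] at h1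
            exact h.dis _ h.zero h1
          · apply a2 k hk0 hall
            have e : (k : ℤ) * d = t := by linarith
            rw [e]; exact h1
        · have h5 := hE _ (h.EX h3)
          have h6 := h.rng _ (h.EX h3)
          rw [show w - (t - d) = w - t + d by ring] at h5
          rcases (h.spl _).1 h5 with h7 | h7
          · refine (ih (t - d).toNat (by omega) (t - d) rfl h6.1).1 ⟨h3, ?_⟩
            rwa [show w - (t - d) = w - t + d by ring]
          · exact h4 h7

theorem selfdual (h : Dec w d E X Y) {XF YF : Finset ℤ} (hX : ∀ x, X x ↔ x ∈ XF)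
    (hY : ∀ y, Y y ↔ y ∈ YF) (hc : XF.card = YF.card) (hE : ∀ x, E x → E (w - x)) :
    ∀ t, (X t → Y (w - t)) ∧ (Y t → X (w - t)) := by
  intro t
  constructor
  · intro h1
    have h2 := h.rng _ (h.EX h1)
    have h3 := (h.selfdual_aux hX hY hc hE _ t rfl h2.1).1
    rcases (h.spl _).1 (hE _ (h.EX h1)) with h4 | h4
    · exact absurd ⟨h1, h4⟩ h3
    · exact h4
  · intro h1
    have h2 := h.rng _ (h.EY h1)
    have h3 := (h.selfdual_aux hX hY hc hE _ t rfl h2.1).2
    rcases (h.spl _).1 (hE _ (h.EY h1)) with h4 | h4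
    · exact h4
    · exact absurd ⟨h1, h4⟩ h3

end Dec

end Pool.Agent.J6H66.Queens
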