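import Mathlib
import Pool.Agent.J6H66.Queens.Share

set_option autoImplicit false

namespace Pool.Agent.J6H66.Queens

open Finset

/-- Counting functions of rows, columns and diagonals of a configuration. -/
structure Cfg (N w : ℤ) (R C F G : ℤ → ℕ) : Prop where
  hw : 1 ≤ w
  R0 : R 0 = 0
  Rw : R w = 0
  C0 : C 0 = 0
  Cw : C w = 0
  F0 : ∀ x, w ≤ |x| → F x = 0
  G0 : ∀ x, w ≤ |x| → G x = 0
  e1 : ∀ t, 0 ≤ t → t ≤ w → R t + F t + G (t - w) = 1
  e2 : ∀ t, 0 ≤ t → t ≤ w → R t + F (t - w) + G t = 1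
  e3 : ∀ t, 0 ≤ t → t ≤ w → C t + F (-t) + G (t - w) = 1
  e4 : ∀ t, 0 ≤ t → t ≤ w → C t + F (w - t) + G t = 1
  I : ∀ x y, 0 ≤ x → x ≤ w → 0 ≤ y → y ≤ w → C x = 0 → R y = 0 →
    0 < F (y - x) ∨ 0 < G (x + y - w)
  cF : ((∑ x ∈ Icc (-w) w, F x : ℕ) : ℤ) = N
  cG : ((∑ x ∈ Icc (-w) w, G x : ℕ) : ℤ) = N

/-- the support of `H` inside `[0,w]` -/
noncomputable def P (w : ℤ) (H : ℤ → ℕ) : Finset ℤ := (Icc 0 w).filter (fun t => 0 < H t)

theorem mem_P {w : ℤ} {H : ℤ → ℕ} {t : ℤ} : t ∈ P w H ↔ (0 ≤ t ∧ t ≤ w) ∧ 0 < H t := by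
  unfold P
  rw [mem_filter, mem_Icc]

theorem card_P {w : ℤ} {H : ℤ → ℕ} (h : ∀ t, 0 ≤ t → t ≤ w → H t ≤ 1) :
    (P w H).card = ∑ t ∈ Icc 0 w, H t := by
  unfold P
  rw [card_filter]
  apply sum_congr rfl
  intro t ht
  rw [mem_Icc] at ht
  have := h t ht.1 ht.2
  split_ifs with h1 <;> omega

theorem sum_refl (w : ℤ) (H : ℤ → ℕ) : ∑ t ∈ Icc 0 w, H (w - t) = ∑ t ∈ Icc 0 w, H t := by
  apply sum_nbij' (fun t => w - t) (fun t => w - t)
  · intro a ha; rw [mem_Icc] at *; omega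
  · intro a ha; rw [mem_Icc] at *; omega
  · intro a _; ring
  · intro a _; ring
  · intro a _; rfl

theorem sum_neg (w : ℤ) (H : ℤ → ℕ) :
    ∑ t ∈ Icc (-w) w, H (-t) = ∑ t ∈ Icc (-w) w, H t := by
  apply sum_nbij' (fun t => -t) (fun t => -t)
  · intro a ha; rw [mem_Icc] at *; omega
  · intro a ha; rw [mem_Icc] at *; omega
  · intro a _; ring
  · intro a _; ring
  · intro a _; rfl

theorem sum_split (w : ℤ) (hw : 0 ≤ w) (H : ℤ → ℕ) :
    ∑ t ∈ Icc (-w) w, H t + H 0 = ∑ t ∈ Icc 0 w, H t + ∑ t ∈ Icc 0 w, H (-t) := by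
  have h1 : Icc (-w) w = Icc 1 w ∪ Icc (-w) 0 := by
    ext x; rw [mem_union, mem_Icc, mem_Icc, mem_Icc]; omega
  have h2 : Icc 0 w = Icc 1 w ∪ {0} := by
    ext x; rw [mem_union, mem_Icc, mem_Icc, mem_singleton]; omega
  have h3 : ∑ t ∈ Icc 0 w, H (-t) = ∑ t ∈ Icc (-w) 0, H t := by
    apply sum_nbij' (fun t => -t) (fun t => -t)
    · intro a ha; rw [mem_Icc] at *; omega
    · intro a ha; rw [mem_Icc] at *; omega
    · intro a _; ring
    · intro a _; ring
    · intro a _; rfl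
  rw [h3, h1, sum_union, h2, sum_union, sum_singleton]
  · ring
  · rw [disjoint_left]; intro x hx hx'; rw [mem_Icc] at hx; rw [mem_singleton] at hx'; omega
  · rw [disjoint_left]; intro x hx hx'; rw [mem_Icc] at hx; rw [mem_Icc] at hx'; omega

namespace Cfg

variable {N w : ℤ} {R C F G : ℤ → ℕ}

theorem transpose (h : Cfg N w R C F G) : Cfg N w C R (fun x => F (-x)) G where
  hw := h.hw
  R0 := h.C0
  Rw := h.Cw
  C0 := h.R0
  Cw := h.Rw
  F0 := fun x hx => h.F0 _ (by rwa [abs_neg])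
  G0 := h.G0
  e1 := h.e3
  e2 := fun t h0 h1 => by
    have := h.e4 t h0 h1
    rwa [show -(t - w) = w - t by ring]
  e3 := fun t h0 h1 => by
    have := h.e1 t h0 h1
    rwa [show - -t = t by ring]
  e4 := fun t h0 h1 => by
    have := h.e2 t h0 h1
    rwa [show -(w - t) = t - w by ring]
  I := fun x y h1 h2 h3 h4 h5 h6 => by
    have := h.I y x h3 h4 h1 h2 h6 h5
    rwa [show -(y - x) = x - y by ring, show x + y - w = y + x - w by ring]
  cF := by
    rw [sum_neg]
    exact h.cF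
  cG := h.cG

theorem flip (h : Cfg N w R C F G) :
    Cfg N w (fun t => R (w - t)) C (fun x => G (-x)) (fun x => F (-x)) where
  hw := h.hw
  R0 := by simpa using h.Rw
  Rw := by simpa using h.R0
  C0 := h.C0
  Cw := h.Cw
  F0 := fun x hx => h.G0 _ (by rwa [abs_neg])
  G0 := fun x hx => h.F0 _ (by rwa [abs_neg])
  e1 := fun t h0 h1 => by
    have := h.e1 (w - t) (by omega) (by omega)
    rw [show w - t - w = -t by ring] at this
    rw [show -(t - w) = w - t by ring]
    omega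
  e2 := fun t h0 h1 => by
    have := h.e2 (w - t) (by omega) (by omega)
    rw [show w - t - w = -t by ring] at this
    rw [show -(t - w) = w - t by ring]
    omega
  e3 := fun t h0 h1 => by
    have := h.e4 t h0 h1
    rw [show -(t - w) = w - t by ring, show - -t = t by ring]
    omega
  e4 := fun t h0 h1 => by
    have := h.e3 t h0 h1
    rw [show -(w - t) = t - w by ring]
    omega
  I := fun x y h1 h2 h3 h4 h5 h6 => by
    have := h.I x (w - y) h1 h2 (by omega) (by omega) h5 h6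
    rw [show w - y - x = -(x + y - w) by ring, show x + (w - y) - w = -(y - x) by ring] at this
    exact this.symm
  cF := by
    rw [sum_neg]
    exact h.cG
  cG := by
    rw [sum_neg]
    exact h.cF

/-- the common size of the four half diagonal sets -/
theorem sums (h : Cfg N w R C F G) :
    2 * ((∑ t ∈ Icc 0 w, F t : ℕ) : ℤ) = N + 1 ∧ 2 * ((∑ t ∈ Icc 0 w, F (-t) : ℕ) : ℤ) = N + 1 ∧
    2 * ((∑ t ∈ Icc 0 w, G t : ℕ) : ℤ) = N + 1 ∧ 2 * ((∑ t ∈ Icc 0 w, G (-t) : ℕ) : ℤ) = N + 1 := by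
  have hw := h.hw
  have c1 : ((∑ t ∈ Icc 0 w, (R t + F t + G (t - w)) : ℕ) : ℤ) = w + 1 := by
    rw [sum_congr rfl (g := fun _ => 1) (fun t ht => by
      rw [mem_Icc] at ht; exact h.e1 t ht.1 ht.2)]
    rw [sum_const, Int.card_Icc, smul_eq_mul, mul_one]; omega
  have c2 : ((∑ t ∈ Icc 0 w, (R t + F (t - w) + G t) : ℕ) : ℤ) = w + 1 := by
    rw [sum_congr rfl (g := fun _ => 1) (fun t ht => by
      rw [mem_Icc] at ht; exact h.e2 t ht.1 ht.2)]
    rw [sum_const, Int.card_Icc, smul_eq_mul, mul_one]; omega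
  have c3 : ((∑ t ∈ Icc 0 w, (C t + F (-t) + G (t - w)) : ℕ) : ℤ) = w + 1 := by
    rw [sum_congr rfl (g := fun _ => 1) (fun t ht => by
      rw [mem_Icc] at ht; exact h.e3 t ht.1 ht.2)]
    rw [sum_const, Int.card_Icc, smul_eq_mul, mul_one]; omega
  have c4 : ((∑ t ∈ Icc 0 w, (C t + F (w - t) + G t) : ℕ) : ℤ) = w + 1 := by
    rw [sum_congr rfl (g := fun _ => 1) (fun t ht => by
      rw [mem_Icc] at ht; exact h.e4 t ht.1 ht.2)]
    rw [sum_const, Int.card_Icc, smul_eq_mul, mul_one]; omega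
  have r1 : ∑ t ∈ Icc 0 w, G (t - w) = ∑ t ∈ Icc 0 w, G (-t) := by
    rw [← sum_refl w (fun t => G (-t))]
    apply sum_congr rfl
    intro t _; congr 1; ring
  have r2 : ∑ t ∈ Icc 0 w, F (t - w) = ∑ t ∈ Icc 0 w, F (-t) := by
    rw [← sum_refl w (fun t => F (-t))]
    apply sum_congr rfl
    intro t _; congr 1; ring
  have r3 : ∑ t ∈ Icc 0 w, F (w - t) = ∑ t ∈ Icc 0 w, F t := sum_refl w F
  rw [sum_add_distrib, sum_add_distrib] at c1 c2 c3 c4
  rw [r1] at c1 c3
  rw [r2] at c2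
  rw [r3] at c4
  have s1 := sum_split w (by omega) F
  have s2 := sum_split w (by omega) G
  have f0 : F 0 = 1 := by
    have h1 := h.e1 0 le_rfl (by omega)
    have h2 := h.R0
    have h3 := h.G0 (0 - w) (by rw [zero_sub, abs_neg, abs_of_nonneg (by omega)])
    omega
  have g0 : G 0 = 1 := by
    have h1 := h.e2 0 le_rfl (by omega)
    have h2 := h.R0
    have h3 := h.F0 (0 - w) (by rw [zero_sub, abs_neg, abs_of_nonneg (by omega)])
    omega
  have cF := h.cF
  have cG := h.cG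
  rw [f0] at s1
  rw [g0] at s2
  omega

theorem cardF (h : Cfg N w R C F G) : 2 * ((P w F).card : ℤ) = N + 1 := by
  rw [card_P]
  · exact h.sums.1
  · intro t h0 h1
    have := h.e1 t h0 h1
    omega

theorem cardG' (h : Cfg N w R C F G) : 2 * ((P w (fun t => G (t - w))).card : ℤ) = N + 1 := by
  rw [card_P]
  · have := h.sums.2.2.2
    rw [← this, ← sum_refl w (fun t => G (-t))]
    congr 2
    apply sum_congr rfl
    intro t _; congr 1; ring
  · intro t h0 h1
    have := h.e1 t h0 h1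
    omega

/-- emptiness predicate of a row -/
def Er (w : ℤ) (R : ℤ → ℕ) (t : ℤ) : Prop := (0 ≤ t ∧ t ≤ w) ∧ R t = 0

theorem dec1 (h : Cfg N w R C F G) {d : ℤ} (hd : 0 < d) (hdw : d ≤ w)
    (hm : ∀ x, 0 < x → x ≤ w → R x = 0 → d ≤ x) (hm' : ∀ x, 0 ≤ x → x < w → R x = 0 → x ≤ w - d)
    (hC : C d = 0) :
    Dec w d (Er w R) (fun t => t ∈ P w F) (fun t => t ∈ P w (fun t => G (t - w))) where
  hd := hd
  rng := fun x hx => hx.1
  spl := fun x => by
    rw [mem_P, mem_P]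
    unfold Er
    constructor
    · rintro ⟨h1, h2⟩
      have := h.e1 x h1.1 h1.2
      by_cases h3 : 0 < F x
      · left; exact ⟨h1, h3⟩
      · right; exact ⟨h1, by omega⟩
    · rintro (⟨h1, h2⟩ | ⟨h1, h2⟩)
      · have := h.e1 x h1.1 h1.2
        exact ⟨h1, by omega⟩
      · have := h.e1 x h1.1 h1.2
        exact ⟨h1, by omega⟩
  dis := fun x hx hy => by
    rw [mem_P] at hx hy
    have := h.e1 x hx.1.1 hx.1.2
    omega
  zero := by
    rw [mem_P]
    have hw := h.hw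
    have h1 := h.e1 0 le_rfl (by omega)
    have h2 := h.R0
    have h3 := h.G0 (0 - w) (by rw [zero_sub, abs_neg, abs_of_nonneg (by omega)])
    exact ⟨⟨le_rfl, by omega⟩, by omega⟩
  top := by
    rw [mem_P]
    have hw := h.hw
    have h1 := h.e1 w (by omega) le_rfl
    have h2 := h.Rw
    have h3 := h.F0 w (by rw [abs_of_nonneg (by omega)])
    exact ⟨⟨by omega, le_rfl⟩, by omega⟩
  gap := fun x hx h0 => hm x h0 hx.1.2 hx.2
  gap' := fun x hx h0 => hm' x hx.1.1 h0 hx.2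
  shift := fun x hx h0 h1 => by
    have h2 := hm x h0 hx.1.2 hx.2
    have h3 := hm' x hx.1.1 h1 hx.2
    have := h.I d x (by omega) hdw hx.1.1 hx.1.2 hC hx.2
    rw [mem_P, mem_P]
    rcases this with h4 | h4
    · left; exact ⟨⟨by omega, by omega⟩, h4⟩
    · right; refine ⟨⟨by omega, by omega⟩, ?_⟩
      rwa [show x + d - w = d + x - w by ring]

theorem key1 (h : Cfg N w R C F G) {d : ℤ} (hd : 0 < d) (hdw : d ≤ w)
    (hm : ∀ x, 0 < x → x ≤ w → R x = 0 → d ≤ x) (hm' : ∀ x, 0 ≤ x → x < w → R x = 0 → x ≤ w - d)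
    (hC : C d = 0) : 0 < G (d - w) ↔ 0 < F (w - d) := by
  have h1 := (h.dec1 hd hdw hm hm' hC).key (fun x => Iff.rfl) (fun x => Iff.rfl) (by
    have := h.cardF
    have := h.cardG'
    omega)
  rw [mem_P, mem_P] at h1
  constructor
  · intro h2; exact (h1.1 ⟨⟨by omega, by omega⟩, h2⟩).2
  · intro h2; exact (h1.2 ⟨⟨by omega, by omega⟩, h2⟩).2

/-- all four lines at the first offset are empty -/
theorem four (h : Cfg N w R C F G) {d : ℤ} (hd : 0 < d) (hdw : d ≤ w)
    (hm : ∀ x, 0 < x → x ≤ w → (R x = 0 ∨ C x = 0 ∨ R (w - x) = 0 ∨ C (w - x) = 0) → d ≤ x)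
    (hex : R d = 0 ∨ C d = 0 ∨ R (w - d) = 0 ∨ C (w - d) = 0) :
    R d = 0 ∧ C d = 0 ∧ R (w - d) = 0 ∧ C (w - d) = 0 := by
  have k1 := h.key1 hd hdw (fun x h1 h2 h3 => hm x h1 h2 (Or.inl h3)) (fun x h1 h2 h3 => by
    have := hm (w - x) (by omega) (by omega) (by
      right; right; left; rwa [show w - (w - x) = x by ring])
    omega)
  have k2 := h.transpose.key1 hd hdw (fun x h1 h2 h3 => hm x h1 h2 (by tauto)) (fun x h1 h2 h3 => by
    have := hm (w - x) (by omega) (by omega) (by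
      right; right; right; rwa [show w - (w - x) = x by ring])
    omega)
  have k3 := h.flip.transpose.key1 hd hdw (fun x h1 h2 h3 => hm x h1 h2 (by tauto))
    (fun x h1 h2 h3 => by
    have := hm (w - x) (by omega) (by omega) (by
      right; right; right; rwa [show w - (w - x) = x by ring])
    omega)
  have k4 := h.transpose.flip.transpose.key1 hd hdw
    (fun x h1 h2 h3 => hm x h1 h2 (by tauto))
    (fun x h1 h2 h3 => by
    have := hm (w - x) (by omega) (by omega) (by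
      right; right; left; rwa [show w - (w - x) = x by ring])
    omega)
  simp only [show - -(d - w) = d - w by ring, show -(d - w) = w - d by ring,
    show -(w - d) = d - w by ring, show - -(w - d) = w - d by ring, neg_neg] at k1 k2 k3 k4
  have a1 := h.e1 d (by omega) hdw
  have a2 := h.e2 d (by omega) hdw
  have a3 := h.e3 d (by omega) hdw
  have a4 := h.e4 d (by omega) hdw
  have b1 := h.e1 (w - d) (by omega) (by omega)
  have b2 := h.e2 (w - d) (by omega) (by omega)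
  have b3 := h.e3 (w - d) (by omega) (by omega)
  have b4 := h.e4 (w - d) (by omega) (by omega)
  rw [show w - d - w = -d by ring] at b1 b2 b3
  rw [show -(w - d) = d - w by ring] at b3
  rw [show w - (w - d) = d by ring] at b4
  omega

theorem exd (h : Cfg N w R C F G) : ∃ d, 0 < d ∧ d ≤ w ∧
    (R d = 0 ∨ C d = 0 ∨ R (w - d) = 0 ∨ C (w - d) = 0) ∧
    ∀ x, 0 < x → x ≤ w → (R x = 0 ∨ C x = 0 ∨ R (w - x) = 0 ∨ C (w - x) = 0) → d ≤ x := by
  have hw := h.hw
  obtain ⟨d, ⟨h1, h2, h3⟩, h4⟩ := Int.exists_least_of_bdd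
    (P := fun x => 0 < x ∧ x ≤ w ∧ (R x = 0 ∨ C x = 0 ∨ R (w - x) = 0 ∨ C (w - x) = 0))
    ⟨0, fun z hz => by omega⟩ ⟨w, by omega, le_rfl, Or.inl h.Rw⟩
  exact ⟨d, h1, h2, h3, fun x a b c => h4 x ⟨a, b, c⟩⟩

/-- both decompositions that share their second part -/
theorem decs (h : Cfg N w R C F G) : ∃ d,
    Dec w d (Er w R) (fun t => t ∈ P w F) (fun t => t ∈ P w (fun t => G (t - w))) ∧
    Dec w d (Er w C) (fun t => t ∈ P w (fun t => F (-t))) (fun t => t ∈ P w (fun t => G (t - w))) := by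
  obtain ⟨d, hd, hdw, hex, hm⟩ := h.exd
  obtain ⟨f1, f2, f3, f4⟩ := h.four hd hdw hm hex
  refine ⟨d, h.dec1 hd hdw (fun x h1 h2 h3 => hm x h1 h2 (Or.inl h3)) (fun x h1 h2 h3 => ?_) f2,
    h.transpose.dec1 hd hdw (fun x h1 h2 h3 => hm x h1 h2 (by tauto)) (fun x h1 h2 h3 => ?_) f1⟩
  · have := hm (w - x) (by omega) (by omega) (by
      right; right; left; rwa [show w - (w - x) = x by ring])
    omega
  · have := hm (w - x) (by omega) (by omega) (by
      right; right; right; rwa [show w - (w - x) = x by ring])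
    omega

theorem evenF (h : Cfg N w R C F G) : ∀ t, 0 ≤ t → t ≤ w → F (-t) = F t := by
  obtain ⟨d, D1, D2⟩ := h.decs
  have cc : ∀ z, 0 ≤ z → z ≤ w → (R z + F z + G (z - w) = 1 ∧ R z + F (z - w) + G z = 1 ∧
      C z + F (-z) + G (z - w) = 1 ∧ C z + F (w - z) + G z = 1) := fun z h1 h2 =>
    ⟨h.e1 z h1 h2, h.e2 z h1 h2, h.e3 z h1 h2, h.e4 z h1 h2⟩
  have hx : ∀ z, z ∈ P w F → z ∉ P w (fun t => F (-t)) →
      (w - z ∈ P w (fun t => F (-t)) ∧ w - z ∉ P w F) := by
    intro z h1 h2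
    rw [mem_P] at *
    rw [mem_P]
    have := cc z h1.1.1 h1.1.2
    rw [show -(w - z) = z - w by ring]
    omega
  have hx' : ∀ z, z ∈ P w (fun t => F (-t)) → z ∉ P w F →
      (w - z ∈ P w F ∧ w - z ∉ P w (fun t => F (-t))) := by
    intro z h1 h2
    rw [mem_P] at *
    rw [mem_P]
    have := cc z h1.1.1 h1.1.2
    rw [show -(w - z) = z - w by ring]
    omega
  have c1 : (P w F).card = (P w (fun t => G (t - w))).card := by
    have := h.cardF
    have := h.cardG'
    omega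
  have c2 : (P w (fun t => F (-t))).card = (P w (fun t => G (t - w))).card := by
    have := h.transpose.cardF
    have := h.cardG'
    omega
  have s1 := Dec.share_sub D1 D2 (fun _ => Iff.rfl) (fun _ => Iff.rfl) (fun _ => Iff.rfl) c1 c2 hx hx'
  have s2 := Dec.share_sub D2 D1 (fun _ => Iff.rfl) (fun _ => Iff.rfl) (fun _ => Iff.rfl) c2 c1 hx' hx
  intro t h0 h1
  have k1 := s1 t
  have k2 := s2 t
  rw [mem_P, mem_P] at k1 k2
  have := cc t h0 h1
  by_cases h3 : 0 < F t
  · have := (k1 ⟨⟨h0, h1⟩, h3⟩).2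
    omega
  · by_cases h4 : 0 < F (-t)
    · exact absurd (k2 ⟨⟨h0, h1⟩, h4⟩).2 h3
    · omega

theorem evenG (h : Cfg N w R C F G) : ∀ t, 0 ≤ t → t ≤ w → G (-t) = G t := by
  intro t h0 h1
  have := h.flip.evenF t h0 h1
  simp only [neg_neg] at this
  exact this.symm

theorem GF (h : Cfg N w R C F G) : ∀ t, 0 ≤ t → t ≤ w → G t = F t := by
  obtain ⟨d, D1, D2⟩ := h.decs
  have cc : ∀ z, 0 ≤ z → z ≤ w → (R z + F z + G (z - w) = 1 ∧ R z + F (z - w) + G z = 1 ∧
      C z + F (-z) + G (z - w) = 1 ∧ C z + F (w - z) + G z = 1) := fun z h1 h2 =>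
    ⟨h.e1 z h1 h2, h.e2 z h1 h2, h.e3 z h1 h2, h.e4 z h1 h2⟩
  have c1 : (P w F).card = (P w (fun t => G (t - w))).card := by
    have := h.cardF
    have := h.cardG'
    omega
  have hE : ∀ x, Er w R x → Er w R (w - x) := by
    rintro x ⟨h1, h2⟩
    refine ⟨by omega, ?_⟩
    have k1 := cc x h1.1 h1.2
    have k2 := cc (w - x) (by omega) (by omega)
    have k3 := h.evenF (w - x) (by omega) (by omega)
    have k4 := h.evenG x h1.1 h1.2
    rw [show -(w - x) = x - w by ring] at k3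
    rw [show w - x - w = -x by ring] at k2
    omega
  have s := D1.selfdual (fun _ => Iff.rfl) (fun _ => Iff.rfl) c1 hE
  intro t h0 h1
  have k1 := (s t).1
  have k2 := (s (w - t)).2
  rw [mem_P, mem_P] at k1 k2
  rw [show w - t - w = -t by ring, h.evenG t h0 h1] at k1 k2
  rw [show w - (w - t) = t by ring] at k2
  have k3 := cc t h0 h1
  by_cases h3 : 0 < F t
  · have := (k1 ⟨⟨h0, h1⟩, h3⟩).2
    omega
  · by_cases h4 : 0 < G t
    · exact absurd (k2 ⟨⟨by omega, by omega⟩, h4⟩).2 h3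
    · omega

/-- the offsets of occupied diagonals -/
noncomputable def Aset (w : ℤ) (F : ℤ → ℕ) : Finset ℤ := P w F

/-- description of everything in terms of `P w F` -/
theorem descr (h : Cfg N w R C F G) :
    (∀ x, F x = if |x| ∈ P w F then 1 else 0) ∧ (∀ x, G x = if |x| ∈ P w F then 1 else 0) ∧
    (∀ t, 0 ≤ t → t ≤ w → (R t = 0 ↔ (t ∈ P w F ∨ w - t ∈ P w F))) ∧
    (∀ t, 0 ≤ t → t ≤ w → (C t = 0 ↔ (t ∈ P w F ∨ w - t ∈ P w F))) := by
  have cc : ∀ z, 0 ≤ z → z ≤ w → (R z + F z + G (z - w) = 1 ∧ R z + F (z - w) + G z = 1 ∧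
      C z + F (-z) + G (z - w) = 1 ∧ C z + F (w - z) + G z = 1) := fun z h1 h2 =>
    ⟨h.e1 z h1 h2, h.e2 z h1 h2, h.e3 z h1 h2, h.e4 z h1 h2⟩
  have hF : ∀ x, F x = if |x| ∈ P w F then 1 else 0 := by
    intro x
    have hm := mem_P (w := w) (H := F) (t := |x|)
    by_cases hx : |x| ≤ w
    · have h1 : F |x| = F x := by
        rcases abs_cases x with ⟨h1, h2⟩ | ⟨h1, h2⟩
        · rw [h1]
        · rw [h1]
          have := h.evenF (-x) (by omega) (by omega)
          rw [neg_neg] at this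
          exact this.symm
      have h2 := cc |x| (abs_nonneg x) hx
      split_ifs with h3
      · have h4 := (hm.1 h3).2
        omega
      · have : ¬ 0 < F |x| := fun h4 => h3 (hm.2 ⟨⟨abs_nonneg x, hx⟩, h4⟩)
        omega
    · rw [if_neg (fun h1 => hx (hm.1 h1).1.2)]
      exact h.F0 x (by omega)
  have hG : ∀ x, G x = if |x| ∈ P w F then 1 else 0 := by
    intro x
    by_cases hx : |x| ≤ w
    · have h1 : G |x| = G x := by
        rcases abs_cases x with ⟨h1, h2⟩ | ⟨h1, h2⟩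
        · rw [h1]
        · rw [h1]
          have := h.evenG (-x) (by omega) (by omega)
          rw [neg_neg] at this
          exact this.symm
      rw [← h1, h.GF |x| (abs_nonneg x) hx]
      have := hF |x|
      rwa [abs_abs] at this
    · rw [if_neg (fun h1 => hx (mem_P.1 h1).1.2)]
      exact h.G0 x (by omega)
  refine ⟨hF, hG, ?_, ?_⟩
  · intro t h0 h1
    have k := (cc t h0 h1).1
    rw [hF t, hG (t - w), abs_of_nonneg h0, abs_of_nonpos (by omega : t - w ≤ 0),
      show -(t - w) = w - t by ring] at k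
    split_ifs at k with h2 h3 h3
    · omega
    · simp only [h2, h3, true_or, iff_true]; omega
    · simp only [h2, h3, or_true, iff_true]; omega
    · simp only [h2, h3, or_self, iff_false]; omega
  · intro t h0 h1
    have k := (cc t h0 h1).2.2.1
    rw [hF (-t), hG (t - w), abs_neg, abs_of_nonneg h0, abs_of_nonpos (by omega : t - w ≤ 0),
      show -(t - w) = w - t by ring] at k
    split_ifs at k with h2 h3 h3
    · omega
    · simp only [h2, h3, true_or, iff_true]; omega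
    · simp only [h2, h3, or_true, iff_true]; omega
    · simp only [h2, h3, or_self, iff_false]; omega

end Cfg

end Pool.Agent.J6H66.Queens
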