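import Mathlib
import Pool.Agent.J6H66.Queens.Box
import Pool.Agent.J6H66.Queens.Symm
import Pool.Agent.J6H66.Queens.Sys

set_option autoImplicit false

namespace Pool.Agent.J6H66.Queens

open Finset

variable {ι : Type*}

theorem sum_fib {Q : Finset ι} {g : ι → ℤ} {S : Finset ℤ} (h : ∀ i ∈ Q, g i ∈ S) (f : ℤ → ℤ) :
    ∑ i ∈ Q, f (g i) = ∑ x ∈ S, (cnt Q g x : ℤ) * f x := by
  rw [← sum_fiberwise_of_maps_to h]
  apply sum_congr rfl
  intro x _
  rw [sum_congr rfl (g := fun _ => f x) (fun i hi => by rw [(mem_filter.1 hi).2])]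
  rw [sum_const, nsmul_eq_mul]
  rfl

theorem sum_split' (w : ℤ) (hw : 0 ≤ w) (H : ℤ → ℤ) :
    ∑ t ∈ Icc (-w) w, H t + H 0 = ∑ t ∈ Icc 0 w, H t + ∑ t ∈ Icc 0 w, H (-t) := by
  have h1 : Icc (-w) w = Icc 1 w ∪ Icc (-w) 0 := by
    ext x; rw [mem_union, mem_Icc, mem_Icc, mem_Icc]; omega
  have h2 : Icc 0 w = Icc 1 w ∪ {0} := by
    ext x; rw [mem_union, mem_Icc, mem_Icc, mem_singleton]; omega
  have h3 : ∑ t ∈ Icc 0 w, H (-t) = ∑ t ∈ Icc (-w) 0, H t := by
    apply sum_nbij' (fun t => -t) (fun t => -t)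
    · intro a ha; rw [mem_Icc] at *; omega
    · intro a ha; rw [mem_Icc] at *; omega
    · intro a _; ring
    · intro a _; ring
    · intro a _; rfl
  rw [h3, h1, sum_union, h2, sum_union, sum_singleton]
  · ring
  · rw [disjoint_left]; intro x hx hx'; rw [mem_Icc] at hx; rw [mem_singleton] at hx'; omega
  · rw [disjoint_left]; intro x hx hx'; rw [mem_Icc] at hx; rw [mem_Icc] at hx'; omega

namespace Pre

variable {N p q w : ℤ} {Q : Finset ι} {s t : ι → ℤ}

theorem cfg (h : Pre N p q w w Q s t) :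
    Cfg N w (cnt Q t) (cnt Q s) (cnt Q (fun i => t i - s i)) (cnt Q (fun i => s i + t i - w)) where
  hw := h.hw
  R0 := cnt_zero.2 h.r0
  Rw := cnt_zero.2 h.rw
  C0 := cnt_zero.2 h.c0
  Cw := cnt_zero.2 h.cw
  F0 := fun x hx => cnt_zero.2 (fun i hi he => by
    have := (h.exact.2 i hi).1
    rw [he] at this
    omega)
  G0 := fun x hx => cnt_zero.2 (fun i hi he => by
    have := (h.exact.2 i hi).2
    rw [he] at this
    omega)
  e1 := fun y h0 h1 => (h.exact.1 y h0 h1).1
  e2 := fun y h0 h1 => (h.exact.1 y h0 h1).2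
  e3 := fun y h0 h1 => by
    have := (h.swap.exact.1 y h0 h1).1
    rw [cnt_congr (Q := Q) (g := fun i => s i - t i) (g' := fun i => t i - s i) (x := y) (x' := -y)
      (fun i => by constructor <;> intro h <;> linarith),
      cnt_congr (Q := Q) (g := fun i => t i + s i - w) (g' := fun i => s i + t i - w) (x := y - w)
        (x' := y - w) (fun i => by constructor <;> intro h <;> linarith)] at this
    exact this
  e4 := fun y h0 h1 => by
    have := (h.swap.exact.1 y h0 h1).2
    rw [cnt_congr (Q := Q) (g := fun i => s i - t i) (g' := fun i => t i - s i) (x := y - w)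
      (x' := w - y) (fun i => by constructor <;> intro h <;> linarith),
      cnt_congr (Q := Q) (g := fun i => t i + s i - w) (g' := fun i => s i + t i - w) (x := y)
        (x' := y) (fun i => by constructor <;> intro h <;> linarith)] at this
    exact this
  I := fun x y h0 h1 h2 h3 h4 h5 => by
    have hp := h.hp
    have hq := h.hq
    have hwq := h.hwq
    have hwp := h.hwp
    obtain ⟨i, hi, h6⟩ := h.dom x y (by omega) (by omega) (by omega) (by omega)
    rw [cnt_zero] at h4 h5
    rcases h6 with h6 | h6 | h6 | h6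
    · exact absurd h6 (h4 i hi)
    · exact absurd h6 (h5 i hi)
    · left; exact cnt_pos.2 ⟨i, hi, h6⟩
    · right; exact cnt_pos.2 ⟨i, hi, by linarith⟩
  cF := by
    rw [sum_cnt, filter_true_of_mem, h.card]
    intro i hi
    have := (h.exact.2 i hi).1
    rw [abs_lt] at this
    rw [mem_Icc]; omega
  cG := by
    rw [sum_cnt, filter_true_of_mem, h.card]
    intro i hi
    have := (h.exact.2 i hi).2
    rw [abs_lt] at this
    rw [mem_Icc]; omega

/-- the set describing the configuration -/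
noncomputable def A (w : ℤ) (Q : Finset ι) (s t : ι → ℤ) : Finset ℤ := P w (cnt Q (fun i => t i - s i))

theorem qd (h : Pre N p q w w Q s t) {i : ι} (hi : i ∈ Q) : |t i - s i| ∈ A w Q s t := by
  have h1 := h.cfg.descr.1 (t i - s i)
  have h2 : 0 < cnt Q (fun i => t i - s i) (t i - s i) := cnt_pos.2 ⟨i, hi, rfl⟩
  unfold A
  by_contra h3
  rw [if_neg h3] at h1
  omega

theorem qs (h : Pre N p q w w Q s t) {i : ι} (hi : i ∈ Q) : |s i + t i - w| ∈ A w Q s t := by
  have h1 := h.cfg.descr.2.1 (s i + t i - w)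
  have h2 : 0 < cnt Q (fun i => s i + t i - w) (s i + t i - w) := cnt_pos.2 ⟨i, hi, rfl⟩
  unfold A
  by_contra h3
  rw [if_neg h3] at h1
  omega

theorem exd' (h : Pre N p q w w Q s t) {x : ℤ} (hx : |x| ∈ A w Q s t) : ∃ i ∈ Q, t i - s i = x := by
  have h1 := h.cfg.descr.1 x
  unfold A at hx
  rw [if_pos hx] at h1
  exact cnt_pos.1 (by omega)

theorem exs' (h : Pre N p q w w Q s t) {x : ℤ} (hx : |x| ∈ A w Q s t) :
    ∃ i ∈ Q, s i + t i - w = x := by
  have h1 := h.cfg.descr.2.1 x
  unfold A at hx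
  rw [if_pos hx] at h1
  exact cnt_pos.1 (by omega)

theorem rowEm (h : Pre N p q w w Q s t) {y : ℤ} (h0 : 0 ≤ y) (h1 : y ≤ w) :
    Em w (A w Q s t) y ↔ ∀ i ∈ Q, t i ≠ y := by
  have := h.cfg.descr.2.2.1 y h0 h1
  rw [cnt_zero] at this
  exact this.symm

theorem colEm (h : Pre N p q w w Q s t) {x : ℤ} (h0 : 0 ≤ x) (h1 : x ≤ w) :
    Em w (A w Q s t) x ↔ ∀ i ∈ Q, s i ≠ x := by
  have := h.cfg.descr.2.2.2 x h0 h1
  rw [cnt_zero] at this
  exact this.symm

theorem exrow (h : Pre N p q w w Q s t) {y : ℤ} (h0 : 0 ≤ y) (h1 : y ≤ w)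
    (hn : ¬ Em w (A w Q s t) y) : ∃ i ∈ Q, t i = y := by
  rw [h.rowEm h0 h1] at hn
  push Not at hn
  exact hn

theorem excol (h : Pre N p q w w Q s t) {y : ℤ} (h0 : 0 ≤ y) (h1 : y ≤ w)
    (hn : ¬ Em w (A w Q s t) y) : ∃ i ∈ Q, s i = y := by
  rw [h.colEm h0 h1] at hn
  push Not at hn
  exact hn

theorem colInj (h : Pre N p q w w Q s t) {i i' : ι} (hi : i ∈ Q) (hi' : i' ∈ Q) (h0 : 0 ≤ s i)
    (h1 : s i ≤ w) (he : s i = s i') : i = i' := by
  have := h.cfg.e3 (s i) h0 h1
  exact cnt_inj (Q := Q) (g := s) (x := s i) (by omega) hi hi' rfl he.symm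

theorem rowInj (h : Pre N p q w w Q s t) {i i' : ι} (hi : i ∈ Q) (hi' : i' ∈ Q) (h0 : 0 ≤ t i)
    (h1 : t i ≤ w) (he : t i = t i') : i = i' := by
  have := h.cfg.e1 (t i) h0 h1
  exact cnt_inj (Q := Q) (g := t) (x := t i) (by omega) hi hi' rfl he.symm

theorem dInj (h : Pre N p q w w Q s t) {i i' : ι} (hi : i ∈ Q) (hi' : i' ∈ Q)
    (he : t i - s i = t i' - s i') : i = i' := by
  have := h.cfg.descr.1 (t i - s i)
  exact cnt_inj (Q := Q) (g := fun i => t i - s i) (x := t i - s i)
    (by split_ifs at this <;> omega) hi hi' rfl he.symm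

theorem sInj (h : Pre N p q w w Q s t) {i i' : ι} (hi : i ∈ Q) (hi' : i' ∈ Q)
    (he : s i + t i - w = s i' + t i' - w) : i = i' := by
  have := h.cfg.descr.2.1 (s i + t i - w)
  exact cnt_inj (Q := Q) (g := fun i => s i + t i - w) (x := s i + t i - w)
    (by split_ifs at this <;> omega) hi hi' rfl he.symm

/-- near-boundary location lemma -/
theorem locS (h : Pre N p q w w Q s t) {u : ℤ} (_hu : 0 < u) (huw : u < w)
    (hmin : ∀ x, Em w (A w Q s t) x → 0 < x → u < x) {i : ι} (hi : i ∈ Q)
    (h1 : |u - s i| ∈ A w Q s t) (h2 : |s i + u - w| ∈ A w Q s t) (h1' : |u - s i| < w)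
    (h2' : |s i + u - w| < w) :
    InS w (A w Q s t) u (s i) ∧ 0 ≤ s i ∧ s i ≤ w := by
  rw [abs_lt] at h1' h2'
  have a1 : u ≤ s i := by
    by_contra hlt
    rw [abs_of_pos (by omega)] at h1
    by_cases hc : 0 ≤ s i
    · have := hmin (u - s i) (Or.inl h1) (by omega)
      omega
    · rw [abs_of_neg (by omega)] at h2
      have := hmin (s i + u) (Or.inr (mc h2 (by ring))) (by omega)
      omega
  have a2 : s i + u ≤ w := by
    by_contra hlt
    rw [abs_of_pos (by omega)] at h2
    by_cases hc : s i ≤ w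
    · have := hmin (s i + u - w) (Or.inl h2) (by omega)
      omega
    · rw [abs_of_neg (by omega)] at h1
      have := hmin (w + u - s i) (Or.inr (mc h1 (by ring))) (by omega)
      omega
  rw [abs_of_nonpos (by omega)] at h1
  rw [abs_of_nonpos (by omega)] at h2
  refine ⟨⟨?_, mc h1 (by ring), mc h2 (by ring)⟩, by omega, by omega⟩
  intro h3
  exact (h.colEm (by omega) (by omega)).1 h3 i hi rfl

theorem locO (h : Pre N p q w w Q s t) {k : ℤ} (hk : 0 < k) {i : ι} (hi : i ∈ Q)
    (h1 : t i = -k ∨ t i = w + k) :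
    InO w (A w Q s t) k (s i) ∧ 0 ≤ s i ∧ s i ≤ w := by
  have hw := h.hw
  have a1 := h.qd hi
  have a2 := h.qs hi
  obtain ⟨b1, b2⟩ := h.exact.2 i hi
  rw [abs_lt] at b1 b2
  rcases h1 with h1 | h1
  · rw [h1] at a1 a2 b1 b2
    rw [abs_of_neg (by omega)] at a1 a2
    refine ⟨⟨?_, mc a2 (by ring), mc a1 (by ring)⟩, by omega, by omega⟩
    intro h3
    exact (h.colEm (by omega) (by omega)).1 h3 i hi rfl
  · rw [h1] at a1 a2 b1 b2
    rw [abs_of_pos (by omega)] at a1 a2
    refine ⟨⟨?_, mc a1 (by ring), mc a2 (by ring)⟩, by omega, by omega⟩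
    intro h3
    exact (h.colEm (by omega) (by omega)).1 h3 i hi rfl

theorem sys (h : Pre N p q w w Q s t) : Sys w (2 * N - w) (A w Q s t) where
  hw := h.hw
  hj := by
    have := h.hwq
    have := h.hq
    omega
  zero := by
    have h1 := h.cfg.e1 0 le_rfl (by have := h.hw; omega)
    have h2 := h.cfg.R0
    have h3 := h.cfg.G0 (0 - w) (by rw [zero_sub, abs_neg, abs_of_nonneg (by have := h.hw; omega)])
    unfold A
    rw [mem_P]
    have := h.hw
    exact ⟨⟨le_rfl, by omega⟩, by omega⟩
  rng := fun x hx => by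
    unfold A at hx
    rw [mem_P] at hx
    refine ⟨hx.1.1, ?_⟩
    by_contra hlt
    have := h.cfg.F0 x (by rw [abs_of_nonneg hx.1.1]; omega)
    omega
  dis := fun x hx hy => by
    unfold A at hx hy
    have hx' := mem_P.1 hx
    have k1 := h.cfg.e1 x hx'.1.1 hx'.1.2
    have k2 := h.cfg.descr.2.1 (x - w)
    rw [abs_of_nonpos (by omega), show -(x - w) = w - x by ring, if_pos hy] at k2
    omega
  C1 := fun x y hx hy => by
    have hx' : 0 ≤ x ∧ x ≤ w := by
      rcases hx with h1 | h1 <;> unfold A at h1 <;> rw [mem_P] at h1 <;> omega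
    have hy' : 0 ≤ y ∧ y ≤ w := by
      rcases hy with h1 | h1 <;> unfold A at h1 <;> rw [mem_P] at h1 <;> omega
    have k := h.cfg.I x y hx'.1 hx'.2 hy'.1 hy'.2
      ((h.cfg.descr.2.2.2 x hx'.1 hx'.2).2 hx) ((h.cfg.descr.2.2.1 y hy'.1 hy'.2).2 hy)
    rcases k with k | k
    · left
      obtain ⟨i, hi, he⟩ := cnt_pos.1 k
      have := h.qd hi
      exact mc this (by rw [he])
    · right
      obtain ⟨i, hi, he⟩ := cnt_pos.1 k
      have := h.qs hi
      refine mc this (by rw [he, ← abs_neg]; congr 1; ring)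
  card := by
    have := h.cfg.cardF
    unfold A
    omega
  S := fun u hu huw hmin => by
    have hw := h.hw
    have hEw : Em w (A w Q s t) w := by
      rw [h.rowEm (by omega) le_rfl]
      exact h.rw
    have huw' := hmin w hEw (by omega)
    have n1 : ¬ Em w (A w Q s t) u := fun h1 => by
      have := hmin u h1 hu
      omega
    have n2 : ¬ Em w (A w Q s t) (w - u) := fun h1 => by
      apply n1
      rcases h1 with h1 | h1
      · right; exact h1
      · left; exact mc h1 (by ring)
    obtain ⟨i, hi, he⟩ := h.exrow (by omega) (by omega) n1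
    obtain ⟨i', hi', he'⟩ := h.exrow (by omega) (by omega) n2
    have a1 := h.qd hi
    have a2 := h.qs hi
    obtain ⟨a3, a4⟩ := h.exact.2 i hi
    rw [he] at a1 a2 a3 a4
    have b1 := h.qd hi'
    have b2 := h.qs hi'
    obtain ⟨b3, b4⟩ := h.exact.2 i' hi'
    rw [he'] at b1 b2 b3 b4
    have e1 : |w - u - s i'| = |s i' + u - w| := by rw [← abs_neg]; congr 1; ring
    have e2 : |s i' + (w - u) - w| = |u - s i'| := by rw [← abs_neg]; congr 1; ring
    rw [e1] at b1 b3
    rw [e2] at b2 b4
    obtain ⟨c1, c2, c3⟩ := h.locS hu huw' hmin hi a1 a2 a3 a4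
    obtain ⟨d1, d2, d3⟩ := h.locS hu huw' hmin hi' b2 b1 b4 b3
    refine ⟨s i, s i', ?_, c1, d1⟩
    intro hs
    have := h.colInj hi hi' c2 c3 hs
    rw [this] at he
    omega
  O1 := fun hj => by
    have hw := h.hw
    have hp := h.hp
    have hwp := h.hwp
    by_cases hp1 : 1 ≤ p
    · obtain ⟨i, hi, he⟩ := h.ro (-1) (by omega) (by omega) (by omega)
      exact ⟨s i, (h.locO (by norm_num) hi (Or.inl he)).1⟩
    · obtain ⟨i, hi, he⟩ := h.ro (w + 1) (by omega) (by omega) (by omega)
      exact ⟨s i, (h.locO (by norm_num) hi (Or.inr he)).1⟩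
  O2 := fun hj => by
    have hp := h.hp
    have hwp := h.hwp
    have hw := h.hw
    by_cases hp2 : 2 ≤ p
    · right
      obtain ⟨i, hi, he⟩ := h.ro (-2) (by omega) (by omega) (by omega)
      exact ⟨s i, (h.locO (by norm_num) hi (Or.inl he)).1⟩
    · by_cases hp0 : p = 0
      · right
        obtain ⟨i, hi, he⟩ := h.ro (w + 2) (by omega) (by omega) (by omega)
        exact ⟨s i, (h.locO (by norm_num) hi (Or.inr he)).1⟩
      · left
        obtain ⟨i, hi, he⟩ := h.ro (-1) (by omega) (by omega) (by omega)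
        obtain ⟨i', hi', he'⟩ := h.ro (w + 1) (by omega) (by omega) (by omega)
        obtain ⟨c1, c2, c3⟩ := h.locO (k := 1) (by norm_num) hi (Or.inl he)
        obtain ⟨d1, d2, d3⟩ := h.locO (k := 1) (by norm_num) hi' (Or.inr he')
        refine ⟨s i, s i', ?_, c1, d1⟩
        intro hs
        have := h.colInj hi hi' c2 c3 hs
        rw [this] at he
        omega
  O3 := fun hj => by
    have hw := h.hw
    have hp := h.hp
    have hwp := h.hwp
    by_cases hp2 : 2 ≤ p
    · obtain ⟨i, hi, he⟩ := h.ro (-2) (by omega) (by omega) (by omega)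
      exact ⟨s i, (h.locO (by norm_num) hi (Or.inl he)).1⟩
    · obtain ⟨i, hi, he⟩ := h.ro (w + 2) (by omega) (by omega) (by omega)
      exact ⟨s i, (h.locO (by norm_num) hi (Or.inr he)).1⟩
  J0 := fun hj r hr hall a ha => by
    have hp := h.hp
    have hwp := h.hwp
    have hq := h.hq
    have hwq := h.hwq
    have ha' := mem_P.1 ha
    obtain ⟨i, hi, he⟩ := cnt_pos.1 ha'.2
    have hc := h.bc i hi
    have hr' := h.br i hi
    have k1 : r ≤ s i := by
      by_contra hlt
      exact (h.colEm (by omega) (by omega)).1 (hall (s i) (by omega) (by omega)) i hi rfl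
    have k2 : r ≤ w - t i := by
      by_contra hlt
      have k3 := hall (w - t i) (by omega) (by omega)
      have k4 : Em w (A w Q s t) (t i) := by
        rcases k3 with k3 | k3
        · right; exact k3
        · left; exact mc k3 (by ring)
      exact (h.rowEm (by omega) (by omega)).1 k4 i hi rfl
    omega
  J1 := fun hj u u' hne h1 h2 h1' h2' n n' => by
    have hq := h.hq
    have hwq := h.hwq
    obtain ⟨i, hi, he⟩ := h.exrow (by omega) (by omega) n
    obtain ⟨i', hi', he'⟩ := h.exrow (by omega) (by omega) n'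
    have hc := h.bc i hi
    refine ⟨s i, s i', ?_, ?_, ?_, ?_, ?_⟩
    · intro hs
      have := h.colInj hi hi' (by omega) (by omega) hs
      rw [this] at he
      omega
    · rw [← he]; exact h.qd hi
    · rw [← he]
      refine mc (h.qs hi) ?_
      rw [← abs_neg]; congr 1; ring
    · rw [← he']; exact h.qd hi'
    · rw [← he']
      refine mc (h.qs hi') ?_
      rw [← abs_neg]; congr 1; ring
  P := fun hj => by
    have hp := h.hp
    have hwp := h.hwp
    have hq := h.hq
    have hwq := h.hwq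
    have hw := h.hw
    have mF : ∀ i ∈ Q, t i - s i ∈ Icc (-w) w := by
      intro i hi
      have := (h.exact.2 i hi).1
      rw [abs_lt] at this
      rw [mem_Icc]; omega
    have mG : ∀ i ∈ Q, s i + t i - w ∈ Icc (-w) w := by
      intro i hi
      have := (h.exact.2 i hi).2
      rw [abs_lt] at this
      rw [mem_Icc]; omega
    have mR : ∀ i ∈ Q, t i ∈ Icc 0 w := by
      intro i hi
      have := h.br i hi
      rw [mem_Icc]; omega
    have mC : ∀ i ∈ Q, s i ∈ Icc 0 w := by
      intro i hi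
      have := h.bc i hi
      rw [mem_Icc]; omega
    have sF := sum_fib mF (fun x => x ^ 2)
    have sG := sum_fib mG (fun x => x ^ 2)
    have sR := sum_fib mR (fun x => (2 * x - w) ^ 2)
    have sC := sum_fib mC (fun x => (2 * x - w) ^ 2)
    obtain ⟨d1, d2, d3, d4⟩ := h.cfg.descr
    have base : ∑ x ∈ Icc (-w) w, ((if |x| ∈ A w Q s t then 1 else 0 : ℕ) : ℤ) * x ^ 2
        = 2 * ∑ a ∈ A w Q s t, a ^ 2 := by
      have k1 := sum_split' w (by omega)
        (fun x => ((if |x| ∈ A w Q s t then 1 else 0 : ℕ) : ℤ) * x ^ 2)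
      have k2 : ∑ x ∈ Icc 0 w, ((if |x| ∈ A w Q s t then 1 else 0 : ℕ) : ℤ) * x ^ 2 =
          ∑ a ∈ A w Q s t, a ^ 2 := by
        have k3 : A w Q s t = (Icc 0 w).filter (fun x => x ∈ A w Q s t) := by
          ext x
          rw [mem_filter, mem_Icc]
          constructor
          · intro hx; exact ⟨(mem_P.1 hx).1, hx⟩
          · intro hx; exact hx.2
        conv_rhs => rw [k3]
        rw [sum_filter]
        apply sum_congr rfl
        intro x hx
        rw [mem_Icc] at hx
        rw [abs_of_nonneg hx.1]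
        split_ifs <;> simp
      simp only [abs_neg, neg_sq] at k1
      rw [k2] at k1
      simp only [ne_eq, OfNat.ofNat_ne_zero, not_false_eq_true, zero_pow, mul_zero, add_zero] at k1
      rw [k1]; ring
    have cF : ∀ x, cnt Q (fun i => t i - s i) x = if |x| ∈ A w Q s t then 1 else 0 := d1
    have cG : ∀ x, cnt Q (fun i => s i + t i - w) x = if |x| ∈ A w Q s t then 1 else 0 := d2
    simp only [cF] at sF
    simp only [cG] at sG
    rw [base] at sF sG
    have rR : ∑ x ∈ Icc 0 w, (cnt Q t x : ℤ) * (2 * x - w) ^ 2 =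
        ∑ x ∈ (Icc 0 w).filter (fun x => x ∉ A w Q s t ∧ w - x ∉ A w Q s t), (2 * x - w) ^ 2 := by
      rw [sum_filter]
      apply sum_congr rfl
      intro x hx
      rw [mem_Icc] at hx
      have k1 := h.cfg.e1 x hx.1 hx.2
      have k2 := d3 x hx.1 hx.2
      split_ifs with k3
      · have : cnt Q t x = 1 := by
          by_contra hne
          have h0 : cnt Q t x = 0 := by omega
          rcases k2.1 h0 with k4 | k4
          · exact k3.1 k4
          · exact k3.2 k4
        rw [this]; push_cast; ring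
      · have : cnt Q t x = 0 := by
          apply k2.2
          by_contra k4
          apply k3
          constructor
          · intro k5; exact k4 (Or.inl k5)
          · intro k5; exact k4 (Or.inr k5)
        rw [this]; push_cast; ring
    have rC : ∑ x ∈ Icc 0 w, (cnt Q s x : ℤ) * (2 * x - w) ^ 2 =
        ∑ x ∈ (Icc 0 w).filter (fun x => x ∉ A w Q s t ∧ w - x ∉ A w Q s t), (2 * x - w) ^ 2 := by
      rw [sum_filter]
      apply sum_congr rfl
      intro x hx
      rw [mem_Icc] at hx
      have k1 := h.cfg.e3 x hx.1 hx.2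
      have k2 := d4 x hx.1 hx.2
      split_ifs with k3
      · have : cnt Q s x = 1 := by
          by_contra hne
          have h0 : cnt Q s x = 0 := by omega
          rcases k2.1 h0 with k4 | k4
          · exact k3.1 k4
          · exact k3.2 k4
        rw [this]; push_cast; ring
      · have : cnt Q s x = 0 := by
          apply k2.2
          by_contra k4
          apply k3
          constructor
          · intro k5; exact k4 (Or.inl k5)
          · intro k5; exact k4 (Or.inr k5)
        rw [this]; push_cast; ring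
    rw [rR] at sR
    rw [rC] at sC
    have par : 2 * (∑ i ∈ Q, (t i - s i) ^ 2 + ∑ i ∈ Q, (s i + t i - w) ^ 2) =
        ∑ i ∈ Q, (2 * t i - w) ^ 2 + ∑ i ∈ Q, (2 * s i - w) ^ 2 := by
      rw [← sum_add_distrib, ← sum_add_distrib, mul_sum]
      apply sum_congr rfl
      intro i _
      ring
    rw [sF, sG, sR, sC] at par
    linarith

end Pre

end Pool.Agent.J6H66.Queens
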