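import Mathlib
import Pool.Agent.J6H66.Queens.ToSys
import Pool.Agent.J6H66.Queens.Classify
import Pool.Agent.J6H66.Queens.Final

set_option autoImplicit false

namespace Pool.Agent.J6H66.Queens

open Finset

namespace Sys

variable {w j : ℤ} {A : Finset ℤ}

/-- evenness forces the box to be the whole board -/
theorem full (h : Sys w j A) :
    j = 0 ∧ 2 ∣ w ∧ ∀ x, 0 ≤ x → x ≤ w → (Em w A x ↔ 2 ∣ x) := by
  classical
  have hev := h.even
  have hw2 : (2 : ℤ) ∣ w := hev w h.Ew
  obtain ⟨v, hv⟩ := hw2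
  set B := A ∪ A.image (fun x => w - x) with hB
  have hBm : ∀ x, x ∈ B ↔ Em w A x := by
    intro x
    rw [hB, mem_union, mem_image]
    unfold Em
    constructor
    · rintro (h1 | ⟨a, ha, rfl⟩)
      · left; exact h1
      · right; exact mc ha (by ring)
    · rintro (h1 | h1)
      · left; exact h1
      · right; exact ⟨_, h1, by ring⟩
  have hBc : B.card = 2 * A.card := by
    rw [hB, card_union_of_disjoint, card_image_of_injective]
    · ring
    · intro a b hab; simp only at hab; linarith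
    · rw [disjoint_left]
      intro x hx hx'
      rw [mem_image] at hx'
      obtain ⟨a, ha, rfl⟩ := hx'
      exact h.dis a ha hx
  have hsub : B ⊆ (Icc 0 v).image (fun x => 2 * x) := by
    intro x hx
    rw [hBm] at hx
    obtain ⟨y, hy⟩ := hev x hx
    have := h.Erng hx
    rw [mem_image]
    exact ⟨y, by rw [mem_Icc]; omega, hy.symm⟩
  have hcard : ((Icc 0 v).image (fun x => 2 * x)).card = (Icc (0 : ℤ) v).card := by
    rw [card_image_of_injective]
    intro a b hab; simp only at hab; omega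
  have h1 := card_le_card hsub
  rw [hcard, hBc, Int.card_Icc] at h1
  have h2 := h.card
  have hw := h.hw
  have hj := h.hj
  have hj0 : j = 0 := by omega
  refine ⟨hj0, ⟨v, hv⟩, ?_⟩
  intro x h0 hxw
  constructor
  · intro hx; exact hev x hx
  · rintro ⟨y, hy⟩
    have heq : B = (Icc 0 v).image (fun x => 2 * x) :=
      eq_of_subset_of_card_le hsub (by rw [hcard, hBc, Int.card_Icc]; omega)
    rw [← hBm, heq, mem_image]
    exact ⟨y, by rw [mem_Icc]; omega, hy.symm⟩

theorem form (h : Sys w j A) {N : ℤ} (hN : w = 2 * N) :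
    ∃ e o : ℕ, 1 ≤ e ∧ N = 2 * (e + o) - 1 ∧ ∀ u, 0 ≤ u → u ≤ N →
      (2 * u ∈ A ↔ (2 ∣ u ∧ u ≤ 2 * ((e : ℤ) - 1)) ∨ (¬ 2 ∣ u ∧ u < 2 * (o : ℤ) + 1)) := by
  obtain ⟨hj0, hw2, hE⟩ := h.full
  have hw := h.hw
  have hc := h.card
  have hNo : ¬ 2 ∣ N := by omega
  have ev : ∀ u, 0 ≤ u → u ≤ N → (2 * u ∈ A ∨ 2 * (N - u) ∈ A) := by
    intro u h0 h1
    rcases (hE (2 * u) (by omega) (by omega)).2 (Dvd.intro _ rfl) with h2 | h2
    · left; exact h2
    · right; exact mc h2 (by rw [hN]; ring)
  have dj : ∀ u, 2 * u ∈ A → 2 * (N - u) ∉ A := by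
    intro u h0
    exact nc (h.dis _ h0) (by rw [hN]; ring)
  have cc : ∀ α β, 0 ≤ α → 0 ≤ β → α + β ≤ N → ¬ 2 ∣ (α + β) → 2 * α ∈ A ∨ 2 * β ∈ A := by
    intro α β ha hb hab hodd
    have hx : Em w A (N - α - β) := (hE _ (by omega) (by omega)).2 (by omega)
    have hy : Em w A (N + α - β) := (hE _ (by omega) (by omega)).2 (by omega)
    rcases h.C1 _ _ hx hy with h1 | h1
    · left; refine mc h1 ?_; rw [abs_of_nonneg (by omega)]; ring
    · right; refine mc h1 ?_; rw [abs_of_nonneg (by omega), hN]; ring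
  obtain ⟨oo, ⟨p1, p2, p3, p4⟩, p5⟩ := Int.exists_least_of_bdd
    (P := fun u => 0 ≤ u ∧ u ≤ N ∧ ¬ 2 ∣ u ∧ 2 * u ∉ A)
    ⟨0, fun z hz => hz.1⟩ ⟨N, by omega, le_rfl, hNo, fun h1 => by
      have := h.rng _ h1
      omega⟩
  have hmin : ∀ v, 0 ≤ v → v < oo → ¬ 2 ∣ v → 2 * v ∈ A := by
    intro v h0 h1 h2
    by_contra h3
    have := p5 v ⟨h0, by omega, h2, h3⟩
    omega
  refine ⟨((N - oo) / 2 + 1).toNat, ((oo - 1) / 2).toNat, by omega, by omega, ?_⟩
  have e1 : 2 * (((((N - oo) / 2 + 1).toNat : ℕ) : ℤ) - 1) = N - oo := by omega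
  have e2 : 2 * ((((oo - 1) / 2).toNat : ℕ) : ℤ) + 1 = oo := by omega
  rw [e1, e2]
  have evn : ∀ u, 0 ≤ u → u ≤ N → 2 ∣ u → (2 * u ∈ A ↔ u ≤ N - oo) := by
    intro u h0 h1 h2
    constructor
    · intro h3
      by_contra h4
      exact dj u h3 (hmin (N - u) (by omega) (by omega) (by omega))
    · intro h3
      rcases cc u oo h0 p1 (by omega) (by omega) with h4 | h4
      · exact h4
      · exact absurd h4 p4
  intro u h0 h1
  by_cases h2 : 2 ∣ u
  · rw [evn u h0 h1 h2]
    constructor
    · intro h3; left; exact ⟨h2, h3⟩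
    · rintro (⟨_, h3⟩ | ⟨h3, _⟩)
      · exact h3
      · exact absurd h2 h3
  · constructor
    · intro h3
      right
      refine ⟨h2, ?_⟩
      by_contra h4
      exact dj u h3 ((evn (N - u) (by omega) (by omega) (by omega)).2 (by omega))
    · rintro (⟨h3, _⟩ | ⟨_, h3⟩)
      · exact absurd h3 h2
      · exact hmin u h0 h3 h2

end Sys

theorem mem_Dset {e o x : ℤ} :
    x ∈ Dset e o ↔ (2 ∣ x ∧ |x| ≤ 2 * (e - 1)) ∨ (¬ 2 ∣ x ∧ |x| < 2 * o + 1) := by
  unfold Dset
  rw [mem_union, mem_image, mem_image]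
  constructor
  · rintro (⟨i, hi, rfl⟩ | ⟨i, hi, rfl⟩)
    · rw [mem_Ioo] at hi
      left
      rw [abs_le]; omega
    · rw [mem_Ico] at hi
      right
      rw [abs_lt]; omega
  · rintro (⟨⟨i, rfl⟩, hi⟩ | ⟨h1, hi⟩)
    · left
      rw [abs_le] at hi
      exact ⟨i, by rw [mem_Ioo]; omega, rfl⟩
    · right
      rw [abs_lt] at hi
      exact ⟨(x - 1) / 2, by rw [mem_Ico]; omega, by omega⟩

namespace Pre

variable {ι : Type*} {N p q w : ℤ} {Q : Finset ι} {s t : ι → ℤ}

theorem concl (h : Pre N p q w w Q s t) : N = 1 ∨ N = 5 := by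
  have S := h.sys
  obtain ⟨hj0, _, hE⟩ := S.full
  have hwN : w = 2 * N := by omega
  obtain ⟨e, o, he, hN, hA⟩ := S.form hwN
  have hp := h.hp
  have hq := h.hq
  have hwp := h.hwp
  have hwq := h.hwq
  have hw := h.hw
  have hs : ∀ i ∈ Q, 0 < s i ∧ s i < w ∧ ¬ 2 ∣ s i := by
    intro i hi
    have h1 := h.bc i hi
    have h2 := h.c0 i hi
    have h3 := h.cw i hi
    refine ⟨by omega, by omega, fun h4 => ?_⟩
    exact (h.colEm (by omega) (by omega)).1 ((hE _ (by omega) (by omega)).2 h4) i hi rfl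
  have ht : ∀ i ∈ Q, 0 < t i ∧ t i < w ∧ ¬ 2 ∣ t i := by
    intro i hi
    have h1 := h.br i hi
    have h2 := h.r0 i hi
    have h3 := h.rw i hi
    refine ⟨by omega, by omega, fun h4 => ?_⟩
    exact (h.rowEm (by omega) (by omega)).1 ((hE _ (by omega) (by omega)).2 h4) i hi rfl
  let a : ι → ℤ := fun i => (s i - N) / 2
  let b : ι → ℤ := fun i => (t i - N) / 2
  have ha : ∀ i ∈ Q, s i = N + 2 * a i := by
    intro i hi
    have := hs i hi
    simp only [a]
    omega
  have hb : ∀ i ∈ Q, t i = N + 2 * b i := by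
    intro i hi
    have := ht i hi
    simp only [b]
    omega
  have hAD : ∀ x, |x| ≤ N → (|2 * x| ∈ A w Q s t ↔ x ∈ Dset e o) := by
    intro x hx
    rw [mem_Dset, abs_mul, abs_of_nonneg (by norm_num : (0 : ℤ) ≤ 2), hA |x| (abs_nonneg x) hx]
    rw [dvd_abs]
  have key := final_part (e + o - 1) e o Q a b he (by omega)
    (by
      ext x
      rw [mem_image, mem_Ioo]
      constructor
      · rintro ⟨i, hi, rfl⟩
        have h1 := hs i hi
        have h2 := ha i hi
        omega
      · intro hx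
        obtain ⟨i, hi, h1⟩ := h.excol (y := N + 2 * x) (by omega) (by omega) (by
          rw [hE _ (by omega) (by omega)]
          omega)
        refine ⟨i, hi, ?_⟩
        have h2 := ha i hi
        omega)
    (by
      intro i hi i' hi' heq
      have h1 := hs i hi
      exact h.colInj hi hi' (by omega) (by omega) (by rw [ha i hi, ha i' hi', heq]))
    (by
      ext x
      rw [mem_image, mem_Ioo]
      constructor
      · rintro ⟨i, hi, rfl⟩
        have h1 := ht i hi
        have h2 := hb i hi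
        omega
      · intro hx
        obtain ⟨i, hi, h1⟩ := h.exrow (y := N + 2 * x) (by omega) (by omega) (by
          rw [hE _ (by omega) (by omega)]
          omega)
        refine ⟨i, hi, ?_⟩
        have h2 := hb i hi
        omega)
    (by
      intro i hi i' hi' heq
      have h1 := ht i hi
      exact h.rowInj hi hi' (by omega) (by omega) (by rw [hb i hi, hb i' hi', heq]))
    (by
      ext x
      rw [mem_image]
      constructor
      · rintro ⟨i, hi, rfl⟩
        have h1 := h.qd hi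
        have h2 := (h.exact.2 i hi).1
        have h3 : t i - s i = 2 * (b i - a i) := by rw [ha i hi, hb i hi]; ring
        rw [h3] at h1 h2
        rw [abs_mul, abs_of_nonneg (by norm_num : (0 : ℤ) ≤ 2)] at h2
        exact (hAD _ (by omega)).1 h1
      · intro hx
        have hx' : |x| ≤ N := by
          rw [mem_Dset] at hx
          omega
        obtain ⟨i, hi, h1⟩ := h.exd' ((hAD x hx').2 hx)
        refine ⟨i, hi, ?_⟩
        rw [ha i hi, hb i hi] at h1
        omega)
    (by
      intro i hi i' hi' heq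
      exact h.dInj hi hi' (by rw [ha i hi, ha i' hi', hb i hi, hb i' hi']; linarith))
    (by
      ext x
      rw [mem_image]
      constructor
      · rintro ⟨i, hi, rfl⟩
        have h1 := h.qs hi
        have h2 := (h.exact.2 i hi).2
        have h3 : s i + t i - w = 2 * (a i + b i) := by rw [ha i hi, hb i hi]; linarith
        rw [h3] at h1 h2
        rw [abs_mul, abs_of_nonneg (by norm_num : (0 : ℤ) ≤ 2)] at h2
        exact (hAD _ (by omega)).1 h1
      · intro hx
        have hx' : |x| ≤ N := by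
          rw [mem_Dset] at hx
          omega
        obtain ⟨i, hi, h1⟩ := h.exs' ((hAD x hx').2 hx)
        refine ⟨i, hi, ?_⟩
        rw [ha i hi, hb i hi] at h1
        omega)
    (by
      intro i hi i' hi' heq
      exact h.sInj hi hi' (by rw [ha i hi, ha i' hi', hb i hi, hb i' hi']; linarith))
  omega

end Pre

end Pool.Agent.J6H66.Queens
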