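import Mathlib
import Pool.Agent.J6H66.Queens.Concl

set_option autoImplicit false

namespace Pool.Agent.J6H66.Queens

open Finset

theorem extremes {ι : Type*} (Q : Finset ι) (f : ι → ℤ) (N : ℤ) (hN : 1 ≤ N)
    (hc : (Q.card : ℤ) = N) :
    ∃ a b : ℤ, a < b ∧ 0 ≤ a ∧ b ≤ 2 * N ∧ (∀ i ∈ Q, f i ≠ a) ∧ (∀ i ∈ Q, f i ≠ b) ∧
      ∀ x, 0 ≤ x → x ≤ 2 * N → (x < a ∨ b < x) → ∃ i ∈ Q, f i = x := by
  classical
  have h1 : 1 < (Icc 0 (2 * N) \ Q.image f).card := by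
    have h2 : (Icc 0 (2 * N)).card - (Q.image f).card ≤ (Icc 0 (2 * N) \ Q.image f).card :=
      le_card_sdiff _ _
    have h3 : (Q.image f).card ≤ Q.card := card_image_le
    rw [Int.card_Icc] at h2
    omega
  obtain ⟨x1, hx1, x2, hx2, hne⟩ := one_lt_card.1 h1
  rw [mem_sdiff, mem_Icc, mem_image] at hx1 hx2
  obtain ⟨a, ⟨a1, a2, a3⟩, a4⟩ := Int.exists_least_of_bdd
    (P := fun x => 0 ≤ x ∧ x ≤ 2 * N ∧ ∀ i ∈ Q, f i ≠ x)
    ⟨0, fun z hz => hz.1⟩ ⟨x1, hx1.1.1, hx1.1.2, fun i hi he => hx1.2 ⟨i, hi, he⟩⟩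
  obtain ⟨b, ⟨b1, b2, b3⟩, b4⟩ := Int.exists_greatest_of_bdd
    (P := fun x => 0 ≤ x ∧ x ≤ 2 * N ∧ ∀ i ∈ Q, f i ≠ x)
    ⟨2 * N, fun z hz => hz.2.1⟩ ⟨x1, hx1.1.1, hx1.1.2, fun i hi he => hx1.2 ⟨i, hi, he⟩⟩
  refine ⟨a, b, ?_, a1, b2, a3, b3, ?_⟩
  · have c1 := a4 x1 ⟨hx1.1.1, hx1.1.2, fun i hi he => hx1.2 ⟨i, hi, he⟩⟩
    have c2 := a4 x2 ⟨hx2.1.1, hx2.1.2, fun i hi he => hx2.2 ⟨i, hi, he⟩⟩
    have c3 := b4 x1 ⟨hx1.1.1, hx1.1.2, fun i hi he => hx1.2 ⟨i, hi, he⟩⟩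
    have c4 := b4 x2 ⟨hx2.1.1, hx2.1.2, fun i hi he => hx2.2 ⟨i, hi, he⟩⟩
    omega
  · intro x h0 h2 h3
    by_contra h4
    push Not at h4
    have c1 := a4 x ⟨h0, h2, h4⟩
    have c2 := b4 x ⟨h0, h2, h4⟩
    omega

/-- A board of odd side `n = 2 N + 1` dominated by `N` queens has side `3` or `11`. -/
theorem main (n : ℕ) (D : Finset (Fin n × Fin n)) (hn : 2 * D.card + 1 = n)
    (hdom : ∀ p : Fin n × Fin n, ∃ q ∈ D,
      p.1 = q.1 ∨ p.2 = q.2 ∨
      (p.1.val : ℤ) - (p.2.val : ℤ) = (q.1.val : ℤ) - (q.2.val : ℤ) ∨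
      p.1.val + p.2.val = q.1.val + q.2.val) : n = 3 ∨ n = 11 := by
  have hN : 1 ≤ (D.card : ℤ) := by
    obtain ⟨q, hq, _⟩ := hdom (⟨0, by omega⟩, ⟨0, by omega⟩)
    have : 0 < D.card := card_pos.2 ⟨q, hq⟩
    omega
  obtain ⟨a, b, hab, a0, b0, a1, b1, ab⟩ := extremes D (fun i => (i.1.val : ℤ)) D.card hN rfl
  obtain ⟨c, d, hcd, c0, d0, c1, d1, cd⟩ := extremes D (fun i => (i.2.val : ℤ)) D.card hN rfl
  have h : Pre (D.card : ℤ) c a (b - a) (d - c) D (fun i => (i.1.val : ℤ) - a)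
      (fun i => (i.2.val : ℤ) - c) :=
    { card := rfl
      hp := c0
      hq := a0
      hw := by omega
      hw' := by omega
      hwq := by omega
      hwp := by omega
      bc := fun i _ => by have := i.1.isLt; omega
      br := fun i _ => by have := i.2.isLt; omega
      dom := fun x y h1 h2 h3 h4 => by
        obtain ⟨i, hi, h5⟩ := hdom (⟨(x + a).toNat, by omega⟩, ⟨(y + c).toNat, by omega⟩)
        refine ⟨i, hi, ?_⟩
        simp only at h5 ⊢
        rcases h5 with h5 | h5 | h5 | h5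
        · left
          have := congrArg Fin.val h5
          simp only at this
          omega
        · right; left
          have := congrArg Fin.val h5
          simp only at this
          omega
        · right; right; left; omega
        · right; right; right; omega
      c0 := fun i hi he => a1 i hi (by omega)
      cw := fun i hi he => b1 i hi (by omega)
      r0 := fun i hi he => c1 i hi (by omega)
      rw := fun i hi he => d1 i hi (by omega)
      co := fun x h1 h2 h3 => by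
        obtain ⟨i, hi, h4⟩ := ab (x + a) (by omega) (by omega) (by omega)
        exact ⟨i, hi, by omega⟩
      ro := fun x h1 h2 h3 => by
        obtain ⟨i, hi, h4⟩ := cd (x + c) (by omega) (by omega) (by omega)
        exact ⟨i, hi, by omega⟩ }
  have e := h.w_eq
  rw [e] at h
  rcases h.concl with h1 | h1
  · left; omega
  · right; omega

end Pool.Agent.J6H66.Queens
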